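import Mathlib

/-!
# The Kummer surface of the Jacobian of `y² = f(x)`, `f` a monic quintic: the equation, the
# duplication polynomials, and their values in the coordinates of Mumford
-/

set_option autoImplicit false

namespace Run7.h929.G2

variable {R : Type*} [CommRing R] {S : Type*} [CommRing S]

/-- the equation of the Kummer surface of `y² = x⁵ + a₄ x⁴ + a₃ x³ + a₂ x² + a₁ x + a₀` -/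
def kum (a : Fin 5 → R) (k : Fin 4 → R) : R :=
  k 2 ^ 4 - 2 * k 1 * k 2 ^ 2 * k 3 - 4 * k 0 * k 2 * k 3 ^ 2 - 4 * a 4 * k 0 * k 2 ^ 2 * k 3 - 2 * a 3 * k 0 * k 2 ^ 3
    - 2 * a 3 * k 0 * k 1 * k 2 * k 3 - 4 * a 2 * k 0 * k 1 * k 2 ^ 2 - 4 * a 1 * k 0 * k 1 ^ 2 * k 2
    - 4 * a 0 * k 0 * k 1 ^ 3 - 4 * a 2 * k 0 ^ 2 * k 2 * k 3 + a 3 ^ 2 * k 0 ^ 2 * k 2 ^ 2 - 4 * a 2 * a 4 * k 0 ^ 2 * k 2 ^ 2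
    + 2 * a 1 * k 0 ^ 2 * k 2 ^ 2 - 2 * a 1 * k 0 ^ 2 * k 1 * k 3 - 4 * a 1 * a 4 * k 0 ^ 2 * k 1 * k 2
    + 4 * a 0 * k 0 ^ 2 * k 1 * k 2 - 4 * a 0 * a 4 * k 0 ^ 2 * k 1 ^ 2 - 4 * a 0 * k 0 ^ 3 * k 3
    - 2 * a 1 * a 3 * k 0 ^ 3 * k 2 - 4 * a 0 * a 3 * k 0 ^ 3 * k 1 + a 1 ^ 2 * k 0 ^ 4 - 4 * a 0 * a 2 * k 0 ^ 4
    + k 1 ^ 2 * k 3 ^ 2

/-- the first duplication polynomial -/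
def D0 (a : Fin 5 → R) (k : Fin 4 → R) : R :=
  8 * k 2 ^ 3 * k 3 + 4 * a 4 * k 2 ^ 4 - 4 * k 1 * k 2 * k 3 ^ 2 + 4 * a 3 * k 1 * k 2 ^ 3 + 4 * a 2 * k 1 ^ 2 * k 2 ^ 2
    + 4 * a 1 * k 1 ^ 3 * k 2 + 4 * a 0 * k 1 ^ 4 + 4 * k 0 * k 3 ^ 3 - 4 * a 3 * k 0 * k 2 ^ 2 * k 3
    - 8 * a 2 * k 0 * k 1 * k 2 * k 3 - 8 * a 1 * k 0 * k 1 * k 2 ^ 2 - 4 * a 1 * k 0 * k 1 ^ 2 * k 3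
    - 16 * a 0 * k 0 * k 1 ^ 2 * k 2 + 4 * a 2 * k 0 ^ 2 * k 3 ^ 2 - 8 * a 1 * k 0 ^ 2 * k 2 * k 3
    - 8 * a 1 * a 4 * k 0 ^ 2 * k 2 ^ 2 + 16 * a 0 * k 0 ^ 2 * k 2 ^ 2 - 32 * a 0 * k 0 ^ 2 * k 1 * k 3
    - 4 * a 1 * a 3 * k 0 ^ 2 * k 1 * k 2 - 16 * a 0 * a 4 * k 0 ^ 2 * k 1 * k 2 - 8 * a 0 * a 3 * k 0 ^ 2 * k 1 ^ 2
    + 4 * a 1 * a 3 * k 0 ^ 3 * k 3 - 16 * a 0 * a 4 * k 0 ^ 3 * k 3 - 16 * a 0 * a 3 * k 0 ^ 3 * k 2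
    + 8 * a 1 ^ 2 * k 0 ^ 3 * k 1 - 32 * a 0 * a 2 * k 0 ^ 3 * k 1 + 4 * a 1 ^ 2 * a 4 * k 0 ^ 4
    + 4 * a 0 * a 3 ^ 2 * k 0 ^ 4 - 16 * a 0 * a 2 * a 4 * k 0 ^ 4

/-- the second duplication polynomial -/
def D1 (a : Fin 5 → R) (k : Fin 4 → R) : R :=
  4 * k 2 ^ 2 * k 3 ^ 2 - 4 * a 3 * k 2 ^ 4 + 4 * k 1 * k 3 ^ 3 + 8 * a 4 * k 1 * k 2 * k 3 ^ 2 + 12 * a 3 * k 1 * k 2 ^ 2 * k 3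
    + 8 * a 2 * k 1 ^ 2 * k 2 * k 3 + 4 * a 1 * k 1 ^ 2 * k 2 ^ 2 + 4 * a 1 * k 1 ^ 3 * k 3 + 8 * a 0 * k 1 ^ 3 * k 2
    + 12 * a 3 * k 0 * k 2 * k 3 ^ 2 + 8 * a 3 * a 4 * k 0 * k 2 ^ 2 * k 3 + 16 * a 2 * k 0 * k 2 ^ 2 * k 3
    + 4 * a 3 ^ 2 * k 0 * k 2 ^ 3 + 16 * a 1 * k 0 * k 2 ^ 3 + 8 * a 2 * k 0 * k 1 * k 3 ^ 2 + 16 * a 2 * a 4 * k 0 * k 1 * k 2 * k 3
    + 16 * a 1 * k 0 * k 1 * k 2 * k 3 + 8 * a 2 * a 3 * k 0 * k 1 * k 2 ^ 2 + 16 * a 1 * a 4 * k 0 * k 1 * k 2 ^ 2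
    + 32 * a 0 * k 0 * k 1 * k 2 ^ 2 + 8 * a 1 * a 4 * k 0 * k 1 ^ 2 * k 3 + 8 * a 0 * k 0 * k 1 ^ 2 * k 3
    + 12 * a 1 * a 3 * k 0 * k 1 ^ 2 * k 2 + 32 * a 0 * a 4 * k 0 * k 1 ^ 2 * k 2 + 16 * a 0 * a 3 * k 0 * k 1 ^ 3
    + 4 * a 1 * k 0 ^ 2 * k 3 ^ 2 + 8 * a 2 * a 3 * k 0 ^ 2 * k 2 * k 3 + 16 * a 1 * a 4 * k 0 ^ 2 * k 2 * k 3
    - 16 * a 0 * k 0 ^ 2 * k 2 * k 3 + 16 * a 2 ^ 2 * k 0 ^ 2 * k 2 ^ 2 + 16 * a 1 * a 4 ^ 2 * k 0 ^ 2 * k 2 ^ 2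
    - 24 * a 1 * a 3 * k 0 ^ 2 * k 2 ^ 2 + 12 * a 1 * a 3 * k 0 ^ 2 * k 1 * k 3 + 16 * a 0 * a 4 * k 0 ^ 2 * k 1 * k 3
    + 8 * a 1 * a 3 * a 4 * k 0 ^ 2 * k 1 * k 2 + 16 * a 1 * a 2 * k 0 ^ 2 * k 1 * k 2 + 32 * a 0 * a 4 ^ 2 * k 0 ^ 2 * k 1 * k 2
    - 40 * a 0 * a 3 * k 0 ^ 2 * k 1 * k 2 + 4 * a 1 ^ 2 * k 0 ^ 2 * k 1 ^ 2 + 16 * a 0 * a 3 * a 4 * k 0 ^ 2 * k 1 ^ 2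
    + 24 * a 0 * a 3 * k 0 ^ 3 * k 3 + 4 * a 1 * a 3 ^ 2 * k 0 ^ 3 * k 2 + 16 * a 1 ^ 2 * k 0 ^ 3 * k 2
    + 16 * a 0 * a 3 * a 4 * k 0 ^ 3 * k 2 - 32 * a 0 * a 2 * k 0 ^ 3 * k 2 + 16 * a 0 * a 3 ^ 2 * k 0 ^ 3 * k 1
    + 16 * a 0 * a 1 * k 0 ^ 3 * k 1 - 4 * a 1 ^ 2 * a 3 * k 0 ^ 4 + 16 * a 0 * a 2 * a 3 * k 0 ^ 4
    + 16 * a 0 ^ 2 * k 0 ^ 4

/-- the third duplication polynomial -/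
def D2 (a : Fin 5 → R) (k : Fin 4 → R) : R :=
  4 * k 2 * k 3 ^ 3 + 4 * a 4 * k 2 ^ 2 * k 3 ^ 2 + 4 * a 3 * k 2 ^ 3 * k 3 + 4 * a 2 * k 2 ^ 4 + 8 * a 1 * k 1 * k 2 ^ 3
    - 4 * a 1 * k 1 ^ 2 * k 2 * k 3 + 12 * a 0 * k 1 ^ 2 * k 2 ^ 2 - 8 * a 0 * k 1 ^ 3 * k 3 - 8 * a 1 * k 0 * k 2 ^ 2 * k 3
    - 16 * a 0 * k 0 * k 2 ^ 3 - 4 * a 1 * k 0 * k 1 * k 3 ^ 2 - 8 * a 1 * a 4 * k 0 * k 1 * k 2 * k 3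
    - 24 * a 0 * k 0 * k 1 * k 2 * k 3 - 4 * a 1 * a 3 * k 0 * k 1 * k 2 ^ 2 - 16 * a 0 * a 4 * k 0 * k 1 * k 2 ^ 2
    - 16 * a 0 * a 4 * k 0 * k 1 ^ 2 * k 3 - 24 * a 0 * a 3 * k 0 * k 1 ^ 2 * k 2 + 4 * a 1 ^ 2 * k 0 * k 1 ^ 3
    - 16 * a 0 * a 2 * k 0 * k 1 ^ 3 - 12 * a 0 * k 0 ^ 2 * k 3 ^ 2 - 4 * a 1 * a 3 * k 0 ^ 2 * k 2 * k 3
    - 16 * a 0 * a 4 * k 0 ^ 2 * k 2 * k 3 - 8 * a 1 * a 2 * k 0 ^ 2 * k 2 ^ 2 - 16 * a 0 * a 4 ^ 2 * k 0 ^ 2 * k 2 ^ 2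
    + 24 * a 0 * a 3 * k 0 ^ 2 * k 2 ^ 2 - 24 * a 0 * a 3 * k 0 ^ 2 * k 1 * k 3 - 8 * a 1 ^ 2 * k 0 ^ 2 * k 1 * k 2
    - 16 * a 0 * a 3 * a 4 * k 0 ^ 2 * k 1 * k 2 + 4 * a 1 ^ 2 * a 4 * k 0 ^ 2 * k 1 ^ 2 - 16 * a 0 * a 2 * a 4 * k 0 ^ 2 * k 1 ^ 2
    - 8 * a 0 * a 1 * k 0 ^ 2 * k 1 ^ 2 + 8 * a 1 ^ 2 * k 0 ^ 3 * k 3 - 32 * a 0 * a 2 * k 0 ^ 3 * k 3
    - 8 * a 0 * a 3 ^ 2 * k 0 ^ 3 * k 2 - 16 * a 0 * a 1 * k 0 ^ 3 * k 2 + 4 * a 1 ^ 2 * a 3 * k 0 ^ 3 * k 1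
    - 16 * a 0 * a 2 * a 3 * k 0 ^ 3 * k 1 - 32 * a 0 ^ 2 * k 0 ^ 3 * k 1 + 4 * a 1 ^ 2 * a 2 * k 0 ^ 4
    - 16 * a 0 * a 2 ^ 2 * k 0 ^ 4 + 8 * a 0 * a 1 * a 3 * k 0 ^ 4 - 16 * a 0 ^ 2 * a 4 * k 0 ^ 4

/-- the fourth duplication polynomial -/
def D3 (a : Fin 5 → R) (k : Fin 4 → R) : R :=
  k 3 ^ 4 - 2 * a 3 * k 2 ^ 2 * k 3 ^ 2 - 8 * a 2 * k 2 ^ 3 * k 3 + a 3 ^ 2 * k 2 ^ 4 - 4 * a 2 * a 4 * k 2 ^ 4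
    - 2 * a 1 * k 2 ^ 4 - 12 * a 1 * k 1 * k 2 ^ 2 * k 3 - 8 * a 1 * a 4 * k 1 * k 2 ^ 3 - 8 * a 0 * k 1 * k 2 ^ 3
    - 16 * a 0 * k 1 ^ 2 * k 2 * k 3 - 2 * a 1 * a 3 * k 1 ^ 2 * k 2 ^ 2 - 16 * a 0 * a 4 * k 1 ^ 2 * k 2 ^ 2
    - 8 * a 0 * a 3 * k 1 ^ 3 * k 2 + a 1 ^ 2 * k 1 ^ 4 - 4 * a 0 * a 2 * k 1 ^ 4 - 8 * a 0 * k 0 * k 2 ^ 2 * k 3
    - 4 * a 1 * a 3 * k 0 * k 2 ^ 3 + 8 * a 0 * k 0 * k 1 * k 3 ^ 2 + 4 * a 1 * a 3 * k 0 * k 1 * k 2 * k 3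
    - 8 * a 0 * a 3 * k 0 * k 1 * k 2 ^ 2 + 8 * a 0 * a 3 * k 0 * k 1 ^ 2 * k 3 - 2 * a 1 * a 3 * k 0 ^ 2 * k 3 ^ 2
    + 8 * a 0 * a 4 * k 0 ^ 2 * k 3 ^ 2 + 16 * a 0 * a 3 * k 0 ^ 2 * k 2 * k 3 + 12 * a 1 ^ 2 * k 0 ^ 2 * k 2 ^ 2
    + 8 * a 0 * a 3 * a 4 * k 0 ^ 2 * k 2 ^ 2 - 32 * a 0 * a 2 * k 0 ^ 2 * k 2 ^ 2 - 12 * a 1 ^ 2 * k 0 ^ 2 * k 1 * k 3
    + 48 * a 0 * a 2 * k 0 ^ 2 * k 1 * k 3 + 8 * a 0 * a 3 ^ 2 * k 0 ^ 2 * k 1 * k 2 + 16 * a 0 * a 1 * k 0 ^ 2 * k 1 * k 2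
    - 2 * a 1 ^ 2 * a 3 * k 0 ^ 2 * k 1 ^ 2 + 8 * a 0 * a 2 * a 3 * k 0 ^ 2 * k 1 ^ 2 + 16 * a 0 ^ 2 * k 0 ^ 2 * k 1 ^ 2
    - 8 * a 1 ^ 2 * a 4 * k 0 ^ 3 * k 3 - 8 * a 0 * a 3 ^ 2 * k 0 ^ 3 * k 3 + 32 * a 0 * a 2 * a 4 * k 0 ^ 3 * k 3
    - 4 * a 1 ^ 2 * a 3 * k 0 ^ 3 * k 2 + 16 * a 0 * a 2 * a 3 * k 0 ^ 3 * k 2 + 32 * a 0 ^ 2 * k 0 ^ 3 * k 2
    - 8 * a 1 ^ 2 * a 2 * k 0 ^ 3 * k 1 + 32 * a 0 * a 2 ^ 2 * k 0 ^ 3 * k 1 - 16 * a 0 * a 1 * a 3 * k 0 ^ 3 * k 1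
    + 32 * a 0 ^ 2 * a 4 * k 0 ^ 3 * k 1 + a 1 ^ 2 * a 3 ^ 2 * k 0 ^ 4 - 4 * a 1 ^ 2 * a 2 * a 4 * k 0 ^ 4
    - 2 * a 1 ^ 3 * k 0 ^ 4 - 4 * a 0 * a 2 * a 3 ^ 2 * k 0 ^ 4 + 16 * a 0 * a 2 ^ 2 * a 4 * k 0 ^ 4
    - 8 * a 0 * a 1 * a 3 * a 4 * k 0 ^ 4 + 8 * a 0 * a 1 * a 2 * k 0 ^ 4 + 16 * a 0 ^ 2 * a 4 ^ 2 * k 0 ^ 4
    - 16 * a 0 ^ 2 * a 3 * k 0 ^ 4

/-- the duplication map -/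
def dup (a : Fin 5 → R) (k : Fin 4 → R) : Fin 4 → R := ![D0 a k, D1 a k, D2 a k, D3 a k]

theorem map_kum (φ : R →+* S) (a : Fin 5 → R) (k : Fin 4 → R) :
    φ (kum a k) = kum (fun i => φ (a i)) (fun i => φ (k i)) := by
  simp only [kum, map_add, map_sub, map_mul, map_pow, map_ofNat]

theorem map_D0 (φ : R →+* S) (a : Fin 5 → R) (k : Fin 4 → R) :
    φ (D0 a k) = D0 (fun i => φ (a i)) (fun i => φ (k i)) := by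
  simp only [D0, map_add, map_sub, map_mul, map_pow, map_ofNat]

theorem map_D1 (φ : R →+* S) (a : Fin 5 → R) (k : Fin 4 → R) :
    φ (D1 a k) = D1 (fun i => φ (a i)) (fun i => φ (k i)) := by
  simp only [D1, map_add, map_sub, map_mul, map_pow, map_ofNat]

theorem map_D2 (φ : R →+* S) (a : Fin 5 → R) (k : Fin 4 → R) :
    φ (D2 a k) = D2 (fun i => φ (a i)) (fun i => φ (k i)) := by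
  simp only [D2, map_add, map_sub, map_mul, map_pow, map_ofNat]

theorem map_D3 (φ : R →+* S) (a : Fin 5 → R) (k : Fin 4 → R) :
    φ (D3 a k) = D3 (fun i => φ (a i)) (fun i => φ (k i)) := by
  simp only [D3, map_add, map_sub, map_mul, map_pow, map_ofNat]

/-- the value of the quintic -/
def fv (a : Fin 5 → R) (x : R) : R := x ^ 5 + a 4 * x ^ 4 + a 3 * x ^ 3 + a 2 * x ^ 2 + a 1 * x + a 0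

/-- the value of the derivative of the quintic -/
def fd (a : Fin 5 → R) (x : R) : R := 5 * x ^ 4 + 4 * a 4 * x ^ 3 + 3 * a 3 * x ^ 2 + 2 * a 2 * x + a 1

/-- the polynomial in the sum and the product of the roots which gives the fourth coordinate -/
def gg (a : Fin 5 → R) (s q : R) : R := a 2 + a 3 * s + a 4 * s ^ 2 + s * (s ^ 2 - q)

/-- the coefficients of `d v² + u w`, `u = x² - s x + q`, `v = v₁ x + v₀`, `w = x³ + w₂ x² + w₁ x + w₀` -/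
def co (d s q v1 v0 w2 w1 w0 : R) : Fin 5 → R :=
  ![d * v0 ^ 2 + q * w0, 2 * d * v1 * v0 - s * w0 + q * w1, d * v1 ^ 2 + w0 - s * w1 + q * w2,
    w1 - s * w2 + q, w2 - s]

/-- the Kummer coordinates of a pair of points -/
def kv (s q w2 w0 : R) : Fin 4 → R := ![1, s, q, -(w0 + q * w2)]

/-- `w` modulo `u` is `W₁ x + W₀` -/
def Wa (s q w2 w1 : R) : R := s ^ 2 - q + s * w2 + w1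
/-- `w` modulo `u` is `W₁ x + W₀` -/
def Wb (s q w2 w0 : R) : R := -s * q - q * w2 + w0
/-- `v ∧ w` modulo `u` -/
def vw (s q v1 v0 w2 w1 w0 : R) : R := v1 * Wb s q w2 w0 - v0 * Wa s q w2 w1
/-- `x v ∧ w` modulo `u` -/
def xw (s q v1 v0 w2 w1 w0 : R) : R :=
  (s * v1 + v0) * Wb s q w2 w0 + q * v1 * Wa s q w2 w1
/-- the resultant of `u` and `v` -/
def rv (s q v1 v0 : R) : R := v0 ^ 2 + s * v0 * v1 + q * v1 ^ 2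
/-- the resultant of `u` and `w` -/
def rw' (s q w2 w1 w0 : R) : R :=
  Wb s q w2 w0 ^ 2 + s * Wa s q w2 w1 * Wb s q w2 w0 + q * Wa s q w2 w1 ^ 2

section
variable (d s q v1 v0 w2 w1 w0 : R)

theorem kum_co : kum (co d s q v1 v0 w2 w1 w0) (kv s q w2 w0) = 0 := by
  simp [kum, co, kv]
  ring

theorem D0_co : D0 (co d s q v1 v0 w2 w1 w0) (kv s q w2 w0) =
    4 * d * vw s q v1 v0 w2 w1 w0 ^ 2 := by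
  simp [D0, co, kv, vw, Wa, Wb]
  ring

theorem D1_co : D1 (co d s q v1 v0 w2 w1 w0) (kv s q w2 w0) =
    8 * d * vw s q v1 v0 w2 w1 w0 * xw s q v1 v0 w2 w1 w0 + 16 * d ^ 2 * rv s q v1 v0 ^ 2 := by
  simp [D1, co, kv, vw, xw, rv, Wa, Wb]
  ring

theorem D2_co : D2 (co d s q v1 v0 w2 w1 w0) (kv s q w2 w0) =
    4 * d * (xw s q v1 v0 w2 w1 w0 ^ 2 - 4 * d * rv s q v1 v0 *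
      (v1 * vw s q v1 v0 w2 w1 w0 + rv s q v1 v0 * (w2 + s))) := by
  simp [D2, co, kv, vw, xw, rv, Wa, Wb]
  ring

theorem D3_co_zero : D3 (co d s q 0 0 w2 w1 w0) (kv s q w2 w0) = rw' s q w2 w1 w0 ^ 2 := by
  simp [D3, co, kv, rw', Wa, Wb]
  ring

theorem D3_co_zero' : D3 (co 0 s q v1 v0 w2 w1 w0) (kv s q w2 w0) = rw' s q w2 w1 w0 ^ 2 := by
  simp [D3, co, kv, rw', Wa, Wb]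
  ring

end

end Run7.h929.G2
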