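import Mathlib

/-!
# Identities between ideals with two generators
-/

set_option autoImplicit false

namespace Run7.h929.G2

section
variable {B : Type} [CommRing B]

theorem comb2 {I : Ideal B} {x1 x2 z : B} (h1 : x1 ∈ I) (h2 : x2 ∈ I) (a1 a2 : B)
    (h : z = a1 * x1 + a2 * x2) : z ∈ I := by
  rw [h]
  exact I.add_mem (I.mul_mem_left _ h1) (I.mul_mem_left _ h2)

theorem comb3 {I : Ideal B} {x1 x2 x3 z : B} (h1 : x1 ∈ I) (h2 : x2 ∈ I) (h3 : x3 ∈ I)
    (a1 a2 a3 : B) (h : z = a1 * x1 + a2 * x2 + a3 * x3) : z ∈ I := by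
  rw [h]
  exact I.add_mem (I.add_mem (I.mul_mem_left _ h1) (I.mul_mem_left _ h2)) (I.mul_mem_left _ h3)

theorem pl (x y : B) : x ∈ Ideal.span {x, y} := Ideal.subset_span (by simp)
theorem pr (x y : B) : y ∈ Ideal.span {x, y} := Ideal.subset_span (by simp)

theorem pair_le {I : Ideal B} {x y : B} (hx : x ∈ I) (hy : y ∈ I) : Ideal.span {x, y} ≤ I := by
  rw [Ideal.span_le]
  rintro z (rfl | rfl)
  · exact hx
  · exact hy

theorem pair_mul_le {I : Ideal B} {x y z w : B} (h1 : x * z ∈ I) (h2 : x * w ∈ I)
    (h3 : y * z ∈ I) (h4 : y * w ∈ I) : Ideal.span {x, y} * Ideal.span {z, w} ≤ I := by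
  rw [Ideal.span_pair_mul_span_pair, Ideal.span_le]
  rintro t (rfl | rfl | rfl | rfl)
  · exact h1
  · exact h2
  · exact h3
  · exact h4

theorem single_mul_pair (x y z : B) :
    Ideal.span {x} * Ideal.span {y, z} = Ideal.span {x * y, x * z} := by
  rw [Ideal.span_mul_span']
  congr 1
  rw [Set.singleton_mul, Set.image_pair]

/-- change of the second generator -/
theorem pair_congr (u y v v' c : B) (h : v - v' = u * c) :
    Ideal.span {u, y - v} = Ideal.span {u, y - v'} := by
  apply le_antisymm
  · apply pair_le (pl _ _)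
    exact comb2 (pl u (y - v')) (pr u (y - v')) (-c) 1 (by linear_combination -h)
  · apply pair_le (pl _ _)
    exact comb2 (pl u (y - v)) (pr u (y - v)) c 1 (by linear_combination h)

/-- the product with the conjugate -/
theorem pair_conj (u v w y α β γ : B) (hy : y * y = v * v + u * w)
    (h : α * u + β * (2 * v) + γ * w = 1) :
    Ideal.span {u, y - v} * Ideal.span {u, y + v} = Ideal.span {u} := by
  apply le_antisymm
  · have hu : u ∈ Ideal.span ({u} : Set B) := Ideal.mem_span_singleton_self u
    apply pair_mul_le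
    · exact Ideal.mul_mem_left _ _ hu
    · exact Ideal.mul_mem_right _ _ hu
    · exact Ideal.mul_mem_left _ _ hu
    · have : (y - v) * (y + v) = w * u := by linear_combination hy
      rw [this]
      exact Ideal.mul_mem_left _ _ hu
  · rw [Ideal.span_singleton_le_iff_mem]
    have h1 := Ideal.mul_mem_mul (pl u (y - v)) (pl u (y + v))
    have h2 := Ideal.mul_mem_mul (pl u (y - v)) (pr u (y + v))
    have h3 := Ideal.mul_mem_mul (pr u (y - v)) (pl u (y + v))
    have h4 := Ideal.mul_mem_mul (pr u (y - v)) (pr u (y + v))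
    have h5 : u * (2 * v) ∈ Ideal.span {u, y - v} * Ideal.span {u, y + v} :=
      comb2 h2 h3 1 (-1) (by ring)
    exact comb3 h1 h5 h4 α β γ (by linear_combination (-u) * h - γ * hy)

/-- the product of two coprime ideals -/
theorem pair_mul (t s z α β : B) (h : α * t + β * s = 1) :
    Ideal.span {t, z} * Ideal.span {s, z} = Ideal.span {t * s, z} := by
  apply le_antisymm
  · apply pair_mul_le
    · exact pl _ _
    · exact Ideal.mul_mem_left _ _ (pr _ _)
    · exact Ideal.mul_mem_right _ _ (pr _ _)
    · exact Ideal.mul_mem_left _ _ (pr _ _)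
  · have h1 := Ideal.mul_mem_mul (pl t z) (pl s z)
    have h2 := Ideal.mul_mem_mul (pl t z) (pr s z)
    have h3 := Ideal.mul_mem_mul (pr t z) (pl s z)
    exact pair_le h1 (comb2 h2 h3 α β (by linear_combination (-z) * h))

/-- the square of an ideal, the first generator is squared -/
theorem pair_sq (u v w y α β : B) (hy : y * y = v * v + u * u * w)
    (h : α * u + β * (2 * v) = 1) :
    Ideal.span {u, y - v} ^ 2 = Ideal.span {u * u, y - v} := by
  rw [pow_two]
  apply le_antisymm
  · apply pair_mul_le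
    · exact pl _ _
    · exact Ideal.mul_mem_left _ _ (pr _ _)
    · exact Ideal.mul_mem_right _ _ (pr _ _)
    · exact Ideal.mul_mem_left _ _ (pr _ _)
  · have h1 := Ideal.mul_mem_mul (pl u (y - v)) (pl u (y - v))
    have h2 := Ideal.mul_mem_mul (pl u (y - v)) (pr u (y - v))
    have h3 := Ideal.mul_mem_mul (pr u (y - v)) (pr u (y - v))
    exact pair_le h1 (comb3 h1 h2 h3 (β * w) α (-β)
      (by linear_combination (-(y - v)) * h + β * hy))

/-- the reduction of the square of an ideal -/
theorem pair_red (u v w y c e α β : B) (hy : y * y = v * v + u * w) (he : 2 * v * c + w = u * e)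
    (h : α * u + β * (2 * v) = 1) :
    Ideal.span {c ^ 2 - e} * Ideal.span {u, y - v} ^ 2 =
      Ideal.span {u * c - v + y} * Ideal.span {c ^ 2 - e, y - (u * c - v)} := by
  have key : Ideal.span {u, y - v} ^ 2 = Ideal.span {u * u, u * c - v + y} := by
    rw [pow_two]
    apply le_antisymm
    · have h1 := pl (u * u) (u * c - v + y)
      have h2 := pr (u * u) (u * c - v + y)
      apply pair_mul_le
      · exact h1
      · exact comb2 h1 h2 (-c) u (by ring)
      · exact comb2 h1 h2 (-c) u (by ring)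
      · exact comb2 h1 h2 (c * c) (y - v - u * c) (by ring)
    · have h1 := Ideal.mul_mem_mul (pl u (y - v)) (pl u (y - v))
      have h2 := Ideal.mul_mem_mul (pl u (y - v)) (pr u (y - v))
      have h3 := Ideal.mul_mem_mul (pr u (y - v)) (pr u (y - v))
      refine pair_le h1 (comb3 h1 h2 h3 (β * e + α * c) α (-β) ?_)
      linear_combination (-(y - v)) * h + β * hy + (-(u * c)) * h + u * β * he
  rw [key]
  have e1 : Ideal.span {c ^ 2 - e} * Ideal.span {u * u, u * c - v + y} =
      Ideal.span {(c ^ 2 - e) * (u * u), (c ^ 2 - e) * (u * c - v + y)} := by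
    rw [single_mul_pair]
  have e2 : Ideal.span {u * c - v + y} * Ideal.span {c ^ 2 - e, y - (u * c - v)} =
      Ideal.span {(u * c - v + y) * (c ^ 2 - e), (u * c - v + y) * (y - (u * c - v))} := by
    rw [single_mul_pair]
  have e3 : (u * c - v + y) * (y - (u * c - v)) = -((c ^ 2 - e) * (u * u)) := by
    linear_combination hy + u * he
  rw [e1, e2, e3]
  apply le_antisymm
  · exact pair_le (comb2 (pl _ _) (pr ((u * c - v + y) * (c ^ 2 - e)) (-((c ^ 2 - e) * (u * u))))
      0 (-1) (by ring)) (comb2 (pl ((u * c - v + y) * (c ^ 2 - e)) (-((c ^ 2 - e) * (u * u))))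
      (pr _ _) 1 0 (by ring))
  · exact pair_le (comb2 (pl ((c ^ 2 - e) * (u * u)) ((c ^ 2 - e) * (u * c - v + y))) (pr _ _)
      0 1 (by ring)) (comb2 (pl ((c ^ 2 - e) * (u * u)) ((c ^ 2 - e) * (u * c - v + y))) (pr _ _)
      (-1) 0 (by ring))

end

end Run7.h929.G2
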