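import Pool.Agent.Run7.h929.G2.Null
import Pool.Agent.Run7.h929.G2.Ide

/-!
# Ideals of the ring `K[x, Y] / (Y² - g)` in the representation of Mumford
-/

set_option autoImplicit false

namespace Run7.h929.G2

open Polynomial

variable {K : Type} [Field K]

/-- the ring `K[x, Y] / (Y² - g)` -/
abbrev QB (g : K[X]) : Type := QuadraticAlgebra K[X] g 0

/-- the class of `Y` -/
noncomputable def yy (g : K[X]) : QB g := QuadraticAlgebra.omega

/-- the embedding of `K[x]` -/
noncomputable def io (g : K[X]) : K[X] →+* QB g := algebraMap K[X] (QB g)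

/-- the ideal `(u, Y - V)` -/
noncomputable def MI (g u V : K[X]) : Ideal (QB g) := Ideal.span {io g u, yy g - io g V}

/-- two ideals in the same class -/
def Same {B : Type} [CommRing B] (I J : Ideal B) : Prop :=
  ∃ x y : B, x ≠ 0 ∧ y ≠ 0 ∧ Ideal.span {x} * I = Ideal.span {y} * J

section same
variable {B : Type} [CommRing B] {I J L I' J' : Ideal B}

theorem Same.symm (h : Same I J) : Same J I := by
  obtain ⟨x, y, hx, hy, h⟩ := h
  exact ⟨y, x, hy, hx, h.symm⟩

theorem Same.refl [Nontrivial B] (I : Ideal B) : Same I I := ⟨1, 1, one_ne_zero, one_ne_zero, rfl⟩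

variable [IsDomain B]

theorem Same.trans (h : Same I J) (h' : Same J L) : Same I L := by
  obtain ⟨x, y, hx, hy, h⟩ := h
  obtain ⟨z, w, hz, hw, h'⟩ := h'
  refine ⟨z * x, y * w, mul_ne_zero hz hx, mul_ne_zero hy hw, ?_⟩
  rw [← Ideal.span_singleton_mul_span_singleton, ← Ideal.span_singleton_mul_span_singleton,
    mul_assoc, h, mul_left_comm, h', mul_assoc]

theorem Same.mul (h : Same I J) (h' : Same I' J') : Same (I * I') (J * J') := by
  obtain ⟨x, y, hx, hy, h⟩ := h
  obtain ⟨z, w, hz, hw, h'⟩ := h'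
  refine ⟨x * z, y * w, mul_ne_zero hx hz, mul_ne_zero hy hw, ?_⟩
  rw [← Ideal.span_singleton_mul_span_singleton, ← Ideal.span_singleton_mul_span_singleton]
  calc Ideal.span {x} * Ideal.span {z} * (I * I') =
        (Ideal.span {x} * I) * (Ideal.span {z} * I') := by ring
    _ = (Ideal.span {y} * J) * (Ideal.span {w} * J') := by rw [h, h']
    _ = _ := by ring

theorem Same.pow (h : Same I J) (n : ℕ) : Same (I ^ n) (J ^ n) := by
  induction n with
  | zero => exact Same.refl _
  | succ n ih =>
    rw [pow_succ, pow_succ]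
    exact ih.mul h

end same

section ring
variable {g : K[X]}

theorem yy_sq : yy g * yy g = io g g := by
  have := QuadraticAlgebra.omega_mul_omega_eq_algebraMap (R := K[X]) (a := g) (b := 0)
  rw [yy, this]
  simp [io]

theorem io_inj {p q : K[X]} (h : io g p = io g q) : p = q :=
  QuadraticAlgebra.algebraMap_injective h

theorem io_dvd {p : K[X]} {z : QB g} : io g p ∣ z ↔ p ∣ z.re ∧ p ∣ z.im :=
  QuadraticAlgebra.algebraMap_dvd_iff

theorem io_dvd_io {p q : K[X]} : io g p ∣ io g q ↔ p ∣ q :=
  QuadraticAlgebra.algebraMap_dvd_iff_dvd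

theorem natDegree_norm (hg : Odd g.natDegree) (z : QB g) (hz : z ≠ 0) :
    (z.im ≠ 0 → g.natDegree ≤ z.norm.natDegree) ∧ z.norm ≠ 0 := by
  have hg0 : g ≠ 0 := by
    rintro rfl
    simp at hg
  have e : z.norm = z.re ^ 2 - g * z.im ^ 2 := by
    rw [QuadraticAlgebra.norm_def]
    ring
  by_cases hi : z.im = 0
  · refine ⟨fun h => absurd hi h, ?_⟩
    have hr : z.re ≠ 0 := by
      intro hr
      apply hz
      exact QuadraticAlgebra.ext hr hi
    rw [e, hi]
    simpa using hr
  · have h2 : (g * z.im ^ 2).natDegree = g.natDegree + 2 * z.im.natDegree := by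
      rw [natDegree_mul hg0 (pow_ne_zero _ hi), natDegree_pow]
    by_cases hr : z.re = 0
    · rw [e, hr]
      have h3 : (0 : K[X]) ^ 2 - g * z.im ^ 2 = -(g * z.im ^ 2) := by ring
      rw [h3, natDegree_neg, h2, neg_ne_zero]
      exact ⟨fun _ => by omega, mul_ne_zero hg0 (pow_ne_zero _ hi)⟩
    · have h3 : (z.re ^ 2).natDegree = 2 * z.re.natDegree := natDegree_pow _ _
      have h4 : (z.re ^ 2).natDegree ≠ (g * z.im ^ 2).natDegree := by
        rw [h2, h3]
        rcases hg with ⟨m, hm⟩
        omega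
      have h5 : z.norm.natDegree = max (z.re ^ 2).natDegree (g * z.im ^ 2).natDegree := by
        rw [e]
        rcases lt_or_gt_of_ne h4 with h6 | h6
        · rw [natDegree_sub_eq_right_of_natDegree_lt h6, max_eq_right h6.le]
        · rw [natDegree_sub_eq_left_of_natDegree_lt h6, max_eq_left h6.le]
      have h7 : g.natDegree ≤ z.norm.natDegree := by
        rw [h5]
        exact le_max_of_le_right (by omega)
      refine ⟨fun _ => h7, ?_⟩
      intro h8
      rw [h8, natDegree_zero] at h7
      rcases hg with ⟨m, hm⟩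
      omega

theorem norm_ne_zero (hg : Odd g.natDegree) (z : QB g) (hz : z ≠ 0) : z.norm ≠ 0 :=
  (natDegree_norm hg z hz).2

theorem dom (hg : Odd g.natDegree) : IsDomain (QB g) := by
  have : NoZeroDivisors (QB g) := ⟨by
    intro a b hab
    by_contra h
    push Not at h
    have h1 := norm_ne_zero hg a h.1
    have h2 := norm_ne_zero hg b h.2
    have h3 : (a * b).norm = 0 := by rw [hab, QuadraticAlgebra.norm_zero]
    rw [map_mul] at h3
    exact mul_ne_zero h1 h2 h3⟩
  exact NoZeroDivisors.to_isDomain _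

/-- unimodularity -/
theorem unimod (hg : Squarefree g) (u V W : K[X]) (h : g = V ^ 2 + u * W) :
    ∃ α β γ : K[X], α * u + β * V + γ * W = 1 := by
  obtain ⟨p, hp⟩ := (IsPrincipalIdealRing.principal (Ideal.span {u, V, W})).principal
  have hp' : Ideal.span {u, V, W} = Ideal.span {p} := hp
  have h1 : p ∣ u := by
    rw [← Ideal.mem_span_singleton, ← hp']
    exact Ideal.subset_span (by simp)
  have h2 : p ∣ V := by
    rw [← Ideal.mem_span_singleton, ← hp']
    exact Ideal.subset_span (by simp)
  have h3 : p ∣ W := by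
    rw [← Ideal.mem_span_singleton, ← hp']
    exact Ideal.subset_span (by simp)
  have h4 : p * p ∣ g := by
    rw [h]
    apply dvd_add
    · rw [pow_two]
      exact mul_dvd_mul h2 h2
    · exact mul_dvd_mul h1 h3
  have h5 : IsUnit p := hg p h4
  have h6 : Ideal.span {u, V, W} = ⊤ := by
    rw [hp', Ideal.span_singleton_eq_top]
    exact h5
  have h7 : (1 : K[X]) ∈ Ideal.span {u, V, W} := by
    rw [h6]
    trivial
  rw [Ideal.mem_span_insert] at h7
  obtain ⟨α, z, hz, h8⟩ := h7
  rw [Ideal.mem_span_pair] at hz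
  obtain ⟨β, γ, h9⟩ := hz
  exact ⟨α, β, γ, by rw [h8, ← h9]; ring⟩

theorem unimod2 (h2 : (2 : K) ≠ 0) (hg : Squarefree g) (u V W : K[X]) (h : g = V ^ 2 + u * W) :
    ∃ α β γ : K[X], α * u + β * (2 * V) + γ * W = 1 := by
  obtain ⟨α, β, γ, h1⟩ := unimod hg u V W h
  refine ⟨α, β * C (1 / 2), γ, ?_⟩
  have : (C (1 / 2) : K[X]) * 2 = 1 := by
    have e : (2 : K[X]) = C 2 := rfl
    rw [e, ← C_mul, one_div, inv_mul_cancel₀ h2, C_1]
  linear_combination h1 + β * V * this

/-- the product with the conjugate -/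
theorem MI_conj (h2 : (2 : K) ≠ 0) (hg : Squarefree g) (u V W : K[X]) (h : g = V ^ 2 + u * W) :
    MI g u V * MI g u (-V) = Ideal.span {io g u} := by
  obtain ⟨α, β, γ, h1⟩ := unimod2 h2 hg u V W h
  have e1 := congrArg (io g) h1
  have e2 := congrArg (io g) h
  simp only [map_add, map_mul, map_pow, map_one, map_ofNat] at e1 e2
  rw [MI, MI, map_neg, sub_neg_eq_add]
  exact pair_conj _ _ (io g W) _ (io g α) (io g β) (io g γ)
    (by rw [yy_sq, e2]; ring) e1

/-- Mumford's pairs -/
structure Mum (g u V : K[X]) : Prop where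
  monic : u.Monic
  deg : u.natDegree ≤ 2
  lt : V.degree < u.degree
  dvd : u ∣ g - V ^ 2

theorem Mum.exW {u V : K[X]} (h : Mum g u V) : ∃ W, g = V ^ 2 + u * W := by
  obtain ⟨W, hW⟩ := h.dvd
  exact ⟨W, by rw [← hW]; ring⟩

theorem norm_eq_mul_star (z : QB g) : io g z.norm = z * star z :=
  QuadraticAlgebra.algebraMap_norm_eq_mul_star z

/-- the conjugation -/
noncomputable def cj (g : K[X]) : QB g →+* QB g := starRingEnd (QB g)

theorem cj_io (p : K[X]) : cj g (io g p) = io g p := by
  change star (io g p) = io g p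
  ext <;> simp [io]

theorem cj_yy : cj g (yy g) = -yy g := by
  change star (yy g) = -yy g
  ext <;> simp [yy]

theorem map_MI (u V : K[X]) : (MI g u V).map (cj g) = MI g u (-V) := by
  rw [MI, Ideal.map_span, Set.image_pair, cj_io, map_sub, cj_io, cj_yy, MI, map_neg]
  apply le_antisymm
  · apply pair_le (pl _ _)
    exact comb2 (pl _ _) (pr _ _) 0 (-1) (by ring)
  · apply pair_le (pl _ _)
    exact comb2 (pl _ _) (pr _ _) 0 (-1) (by ring)

theorem MI_ne_bot {u V : K[X]} (hu : u ≠ 0) : MI g u V ≠ ⊥ := by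
  intro h
  have : io g u ∈ MI g u V := pl _ _
  rw [h, Ideal.mem_bot] at this
  apply hu
  apply io_inj (g := g)
  rw [this, map_zero]

/-- the pair of a class is unique -/
theorem Mum.unique (h2 : (2 : K) ≠ 0) (hg : Squarefree g) (h5 : g.natDegree = 5)
    {u V u' V' : K[X]} (h : Mum g u V) (h' : Mum g u' V') (hs : Same (MI g u V) (MI g u' V')) :
    u = u' ∧ V = V' := by
  have hodd : Odd g.natDegree := by
    rw [h5]
    decide
  haveI := dom hodd
  obtain ⟨x, y, hx, hy, hxy⟩ := hs
  obtain ⟨W, hW⟩ := h.exW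
  obtain ⟨W', hW'⟩ := h'.exW
  have J1 := MI_conj h2 hg u V W hW
  have J2 := MI_conj h2 hg u' V' W' hW'
  have e1 : Ideal.span {x} * (MI g u V * MI g u' (-V')) = Ideal.span {y * io g u'} := by
    rw [← mul_assoc, hxy, mul_assoc, J2, Ideal.span_singleton_mul_span_singleton]
  have e2 : y * io g u' ∈ Ideal.span {x} * (MI g u V * MI g u' (-V')) := by
    rw [e1]
    exact Ideal.mem_span_singleton_self _
  rw [Ideal.mem_span_singleton_mul] at e2
  obtain ⟨γ, hγ, hγ2⟩ := e2
  have e3 : MI g u V * MI g u' (-V') = Ideal.span {γ} := by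
    rw [← Ideal.span_singleton_mul_right_inj hx, e1, ← hγ2,
      Ideal.span_singleton_mul_span_singleton]
  have hγ0 : γ ≠ 0 := by
    rintro rfl
    rw [mul_zero] at hγ2
    rcases mul_eq_zero.1 hγ2.symm with h3 | h3
    · exact hy h3
    · apply h'.monic.ne_zero
      apply io_inj (g := g)
      rw [h3, map_zero]
  have e4 : MI g u (-V) * MI g u' V' = Ideal.span {star γ} := by
    have := congrArg (Ideal.map (cj g)) e3
    rw [Ideal.map_mul, map_MI, map_MI, neg_neg, Ideal.map_span, Set.image_singleton] at this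
    exact this
  have e5 : Ideal.span {io g γ.norm} = Ideal.span {io g (u * u')} := by
    rw [norm_eq_mul_star, ← Ideal.span_singleton_mul_span_singleton, ← e3, ← e4, map_mul,
      ← Ideal.span_singleton_mul_span_singleton, ← J1, ← J2]
    ring
  have d1 : γ.norm ∣ u * u' := by
    rw [← io_dvd_io (g := g), ← Ideal.span_singleton_le_span_singleton, e5]
  have d2 : u * u' ∣ γ.norm := by
    rw [← io_dvd_io (g := g), ← Ideal.span_singleton_le_span_singleton, e5]
  have huu : u * u' ≠ 0 := mul_ne_zero h.monic.ne_zero h'.monic.ne_zero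
  have hn0 := norm_ne_zero hodd γ hγ0
  have n1 := natDegree_le_of_dvd d1 huu
  have n2 := natDegree_le_of_dvd d2 hn0
  have n3 : (u * u').natDegree = u.natDegree + u'.natDegree :=
    natDegree_mul h.monic.ne_zero h'.monic.ne_zero
  have him : γ.im = 0 := by
    by_contra hne
    have := (natDegree_norm hodd γ hγ0).1 hne
    have := h.deg
    have := h'.deg
    omega
  have hγA : γ = io g γ.re := by
    apply QuadraticAlgebra.ext
    · simp [io]
    · simp [io, him]
  set A := γ.re with hA
  have hA0 : A ≠ 0 := by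
    intro h0
    rw [h0, map_zero] at hγA
    exact hγ0 hγA
  have hnorm : γ.norm = A ^ 2 := by
    rw [QuadraticAlgebra.norm_def, him]
    ring
  have n4 : γ.norm.natDegree = 2 * A.natDegree := by rw [hnorm, natDegree_pow]
  have mem : ∀ z ∈ MI g u V * MI g u' (-V'), A ∣ z.re ∧ A ∣ z.im := by
    intro z hz
    rw [e3, Ideal.mem_span_singleton, hγA] at hz
    exact io_dvd.1 hz
  have a1 : A ∣ u := by
    have := (mem _ (Ideal.mul_mem_mul (pl (io g u) (yy g - io g V))
      (pr (io g u') (yy g - io g (-V'))))).2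
    simpa [io, yy] using this
  have a2 : A ∣ u' := by
    have := (mem _ (Ideal.mul_mem_mul (pr (io g u) (yy g - io g V))
      (pl (io g u') (yy g - io g (-V'))))).2
    simpa [io, yy] using this
  have a3 : A ∣ V' - V := by
    have := (mem _ (Ideal.mul_mem_mul (pr (io g u) (yy g - io g V))
      (pr (io g u') (yy g - io g (-V'))))).2
    simpa [io, yy, sub_eq_add_neg, add_comm] using this
  have n5 := natDegree_le_of_dvd a1 h.monic.ne_zero
  have n6 := natDegree_le_of_dvd a2 h'.monic.ne_zero
  have s1 : Associated A u := associated_of_dvd_of_natDegree_le a1 h.monic.ne_zero (by omega)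
  have s2 : Associated A u' := associated_of_dvd_of_natDegree_le a2 h'.monic.ne_zero (by omega)
  have huu' : u = u' := eq_of_monic_of_associated h.monic h'.monic (s1.symm.trans s2)
  refine ⟨huu', ?_⟩
  have s3 : u ∣ V' - V := s1.symm.dvd.trans a3
  have s4 : (V' - V).degree < u.degree := by
    refine (degree_sub_le _ _).trans_lt (max_lt ?_ h.lt)
    rw [huu']
    exact h'.lt
  have s5 := eq_zero_of_dvd_of_degree_lt s3 s4
  exact (sub_eq_zero.1 s5).symm

end ring

end Run7.h929.G2
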