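import Pool.Agent.Run7.h929.G2.Null

/-!
# The identities behind the doubling of a pair of Mumford
-/

set_option autoImplicit false

namespace Run7.h929.G2

section
variable {R : Type*} [CommRing R] (d s q v1 v0 l1 l0 e : R)

/-- the second coefficient of the cubic factor -/
def e2 (s v1 l1 e : R) : R := e - s - 2 * v1 * l1
/-- the first coefficient of the cubic factor -/
def e1 (s q v1 v0 l1 l0 e : R) : R := q - s * e - 2 * (v1 * l0 + v0 * l1)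
/-- the constant coefficient of the cubic factor -/
def e0 (q v0 l0 e : R) : R := q * e - 2 * v0 * l0

/-- the numerator of the fourth coordinate -/
def K4 (d s q v1 v0 l1 l0 e : R) : R :=
  s ^ 2 * l1 ^ 2 * l0 ^ 2 - s ^ 2 * l1 ^ 2 * e * d + 2 * s * q * l1 ^ 3 * l0
    - 2 * s * v0 * l1 ^ 3 * d + 2 * s * l1 * l0 ^ 3 - 2 * s * l1 * l0 * e * d + q ^ 2 * l1 ^ 4
    + 2 * q * l1 ^ 2 * l0 ^ 2 - 2 * q * l1 * l0 * d + 2 * v1 * l1 * l0 ^ 2 * d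
    - 2 * v1 * l1 * e * d ^ 2 - 2 * v0 * l1 ^ 2 * l0 * d + 2 * v0 * l1 * d ^ 2 + l0 ^ 4
    - 2 * l0 ^ 2 * e * d + e ^ 2 * d ^ 2

theorem vw_l : vw s q v1 v0 (e2 s v1 l1 e) (e1 s q v1 v0 l1 l0 e) (e0 q v0 l0 e) =
    2 * rv s q v1 v0 * l1 := by
  simp only [vw, Wa, Wb, e2, e1, e0, rv]
  ring

theorem xw_l : xw s q v1 v0 (e2 s v1 l1 e) (e1 s q v1 v0 l1 l0 e) (e0 q v0 l0 e) =
    -(2 * rv s q v1 v0 * l0) := by
  simp only [xw, Wa, Wb, e2, e1, e0, rv]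
  ring

theorem D0_l : D0 (co d s q v1 v0 (e2 s v1 l1 e) (e1 s q v1 v0 l1 l0 e) (e0 q v0 l0 e))
    (kv s q (e2 s v1 l1 e) (e0 q v0 l0 e)) = 16 * rv s q v1 v0 ^ 2 * (d * l1 ^ 2) := by
  rw [D0_co, vw_l]
  ring

theorem D1_l : D1 (co d s q v1 v0 (e2 s v1 l1 e) (e1 s q v1 v0 l1 l0 e) (e0 q v0 l0 e))
    (kv s q (e2 s v1 l1 e) (e0 q v0 l0 e)) =
    16 * rv s q v1 v0 ^ 2 * (d * (d - 2 * l1 * l0)) := by
  rw [D1_co, vw_l, xw_l]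
  ring

theorem D2_l : D2 (co d s q v1 v0 (e2 s v1 l1 e) (e1 s q v1 v0 l1 l0 e) (e0 q v0 l0 e))
    (kv s q (e2 s v1 l1 e) (e0 q v0 l0 e)) =
    16 * rv s q v1 v0 ^ 2 * (d * (l0 ^ 2 - d * e)) := by
  rw [D2_co, vw_l, xw_l, e2]
  ring

theorem D3_l : D3 (co d s q v1 v0 (e2 s v1 l1 e) (e1 s q v1 v0 l1 l0 e) (e0 q v0 l0 e))
    (kv s q (e2 s v1 l1 e) (e0 q v0 l0 e)) =
    16 * rv s q v1 v0 ^ 2 * K4 d s q v1 v0 l1 l0 e := by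
  simp [D3, co, kv, e2, e1, e0, rv, K4]
  ring

end

section field
variable {F : Type*} [Field F]

theorem four_id (d s q v1 v0 l1 l0 e s' q' m V : F) (h1 : l1 ≠ 0)
    (hs : s' * l1 ^ 2 = d - 2 * l1 * l0) (hq : q' * l1 ^ 2 = l0 ^ 2 - d * e)
    (hm : m = l0 - s * l1 + l1 * s')
    (hV : V = q * l1 - s * l0 - d * v1 - q' * l1 + s' * m) :
    l1 ^ 2 * (V ^ 2 - d * gg (co d s q v1 v0 (e2 s v1 l1 e) (e1 s q v1 v0 l1 l0 e)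
      (e0 q v0 l0 e)) s' q') = K4 d s q v1 v0 l1 l0 e := by
  have hs' : s' = (d - 2 * l1 * l0) / l1 ^ 2 := by
    field_simp
    exact hs
  have hq' : q' = (l0 ^ 2 - d * e) / l1 ^ 2 := by
    field_simp
    exact hq
  subst hV hm hs' hq'
  simp only [gg, co, e2, e1, e0, K4, Matrix.cons_val]
  field_simp
  ring

end field

section two
variable {R : Type*} [CommRing R] (d x0 x2 v1 w2 w1 w0 : R)

/-- the value of the cubic factor -/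
def wx (w2 w1 w0 x : R) : R := x ^ 3 + w2 * x ^ 2 + w1 * x + w0

theorem fv_two : fv (co d (x0 + x2) (x0 * x2) v1 (-(v1 * x0)) w2 w1 w0) x2 =
    d * v1 ^ 2 * (x2 - x0) ^ 2 := by
  rw [fv_co]
  ring

theorem D0_two : D0 (co d (x0 + x2) (x0 * x2) v1 (-(v1 * x0)) w2 w1 w0)
    (kv (x0 + x2) (x0 * x2) w2 w0) = 4 * d * v1 ^ 2 * wx w2 w1 w0 x0 ^ 2 := by
  rw [D0_co]
  simp only [vw, Wa, Wb, wx]
  ring

theorem D1_two : D1 (co d (x0 + x2) (x0 * x2) v1 (-(v1 * x0)) w2 w1 w0)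
    (kv (x0 + x2) (x0 * x2) w2 w0) = 8 * x2 * d * v1 ^ 2 * wx w2 w1 w0 x0 ^ 2 := by
  rw [D1_co]
  simp only [vw, xw, rv, Wa, Wb, wx]
  ring

theorem D2_two : D2 (co d (x0 + x2) (x0 * x2) v1 (-(v1 * x0)) w2 w1 w0)
    (kv (x0 + x2) (x0 * x2) w2 w0) = 4 * x2 ^ 2 * d * v1 ^ 2 * wx w2 w1 w0 x0 ^ 2 := by
  rw [D2_co]
  simp only [vw, xw, rv, Wa, Wb, wx]
  ring

theorem D3_two : (x2 - x0) ^ 2 * D3 (co d (x0 + x2) (x0 * x2) v1 (-(v1 * x0)) w2 w1 w0)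
    (kv (x0 + x2) (x0 * x2) w2 w0) = wx w2 w1 w0 x0 ^ 2 *
    (fd (co d (x0 + x2) (x0 * x2) v1 (-(v1 * x0)) w2 w1 w0) x2 ^ 2 -
      4 * fv (co d (x0 + x2) (x0 * x2) v1 (-(v1 * x0)) w2 w1 w0) x2 *
      gg (co d (x0 + x2) (x0 * x2) v1 (-(v1 * x0)) w2 w1 w0) (2 * x2) (x2 ^ 2)) := by
  rw [fv_two, fd_co]
  simp [D3, co, kv, wx, gg]
  ring

end two

end Run7.h929.G2
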