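import Pool.Agent.Run7.h929.G2.Local4

/-!
# The duplication map at one place
-/

set_option autoImplicit false

namespace Run7.h929.G2

/-- the exponent in the theorem of zeros -/
noncomputable def NN : ℕ := nullst'.choose
/-- the polynomials in the theorem of zeros -/
noncomputable def cc : Fin 4 → Fin 4 → U := nullst'.choose_spec.choose

theorem cc_spec {S : Type} [CommRing S] (a : Fin 5 → S) (k : Fin 4 → S) (hk : kum a k = 0)
    (j : Fin 4) : (2 * dis a * k j) ^ NN =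
      ∑ i, MvPolynomial.aeval (Sum.elim a k) (cc j i) * dup a k i :=
  nullst'.choose_spec.choose_spec S a k hk j

section sup

theorem le_sup4 (f : Fin 4 → ℝ) (i : Fin 4) : f i ≤ ⨆ i, f i :=
  le_ciSup (Set.finite_range f).bddAbove i

theorem sup4_eq (f : Fin 4 → ℝ) : ∃ i, f i = ⨆ i, f i := exists_eq_ciSup_of_finite

theorem sup4_le (f : Fin 4 → ℝ) (c : ℝ) (h : ∀ i, f i ≤ c) : ⨆ i, f i ≤ c := ciSup_le h

theorem sup4_mul (f : Fin 4 → ℝ) (c : ℝ) (hc : 0 ≤ c) : ⨆ i, c * f i = c * ⨆ i, f i :=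
  (Real.mul_iSup_of_nonneg hc _).symm

end sup

section nonarch

variable {K : Type} [Field K] {v : AbsoluteValue K ℝ} {q : ℝ}

theorem bad_norm (h : IsNonarchimedean v) (a : Fin 5 → K) (ha : ∀ i, v (a i) ≤ 1)
    (k : Fin 4 → K) (hk : kum a k = 0) (hmax : ∀ i, v (k i) ≤ 1) (hex : ∃ i, v (k i) = 1) :
    v (2 * dis a) ^ NN ≤ ⨆ i, v (dup a k i) := by
  let a' : Fin 5 → OO v h := fun i => ⟨a i, ha i⟩
  let k' : Fin 4 → OO v h := fun i => ⟨k i, hmax i⟩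
  have hkum : kum a' k' = 0 := sub_hom_kum a' k' hk
  have hdup : ∀ i, ww (dup a' k' i) = v (dup a k i) := fun i => sub_hom_dup a' k' i
  have hdis : ww (dis a') = v (dis a) := sub_hom_dis a'
  have h2' : ww (2 : OO v h) = v 2 := rfl
  obtain ⟨j, hj⟩ := hex
  have hr : 0 ≤ ⨆ i, v (dup a k i) := (v.nonneg _).trans (le_sup4 (fun i => v (dup a k i)) 0)
  have h1 : (2 * dis a' * k' j) ^ NN ∈ JJ v h (⨆ i, v (dup a k i)) hr := by
    rw [cc_spec a' k' hkum j]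
    refine Ideal.sum_mem _ fun i _ => Ideal.mul_mem_left _ _ ?_
    rw [mem_JJ, hdup]
    exact le_sup4 (fun i => v (dup a k i)) i
  rw [mem_JJ, ww_pow, ww_mul, ww_mul, hdis, h2'] at h1
  have h3 : ww (k' j) = 1 := hj
  rw [h3, mul_one, ← map_mul] at h1
  exact h1

/-- the normalization of a vector -/
theorem normalize (v : AbsoluteValue K ℝ) (k : Fin 4 → K) (hk : k ≠ 0) :
    ∃ (t : K) (l : Fin 4 → K), t ≠ 0 ∧ k = (fun i => t * l i) ∧ (∀ i, v (l i) ≤ 1) ∧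
      (∃ i, v (l i) = 1) ∧ (⨆ i, v (k i)) = v t ∧ l = fun i => t⁻¹ * k i := by
  obtain ⟨j, hj⟩ := sup4_eq (fun i => v (k i))
  have hj0 : k j ≠ 0 := by
    intro h0
    apply hk
    funext i
    have h1 := le_sup4 (fun i => v (k i)) i
    rw [← hj] at h1
    simp only [h0, map_zero] at h1
    exact (map_eq_zero v).1 (le_antisymm h1 (v.nonneg _))
  refine ⟨k j, fun i => (k j)⁻¹ * k i, hj0, ?_, ?_, ⟨j, ?_⟩, hj.symm, rfl⟩
  · funext i
    field_simp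
  · intro i
    have h1 := le_sup4 (fun i => v (k i)) i
    rw [← hj] at h1
    simp only at h1 ⊢
    rw [map_mul, map_inv₀]
    have h2 : 0 < v (k j) := v.pos hj0
    rw [inv_mul_le_iff₀ h2, mul_one]
    exact h1
  · simp only
    rw [inv_mul_cancel₀ hj0, map_one]

theorem fin_bad (h : IsNonarchimedean v) (a : Fin 5 → K) (ha : ∀ i, v (a i) ≤ 1)
    (k : Fin 4 → K) (hk : kum a k = 0) (hk0 : k ≠ 0) :
    v (2 * dis a) ^ NN * (⨆ i, v (k i)) ^ 4 ≤ ⨆ i, v (dup a k i) := by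
  obtain ⟨t, l, ht, hkl, hl1, hl2, hsup, hl⟩ := normalize v k hk0
  have hkum : kum a l = 0 := by
    rw [hl, kum_smul, hk, mul_zero]
  have h1 := bad_norm h a ha l hkum hl1 hl2
  have h2 : (⨆ i, v (dup a k i)) = v t ^ 4 * ⨆ i, v (dup a l i) := by
    rw [hkl, dup_smul, ← sup4_mul _ _ (pow_nonneg (v.nonneg _) _)]
    simp only [map_mul, map_pow]
  rw [hsup, h2, mul_comm]
  exact mul_le_mul_of_nonneg_left h1 (pow_nonneg (v.nonneg _) _)

theorem fin_upper (h : IsNonarchimedean v) (a : Fin 5 → K) (ha : ∀ i, v (a i) ≤ 1)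
    (k : Fin 4 → K) (hk0 : k ≠ 0) :
    ⨆ i, v (dup a k i) ≤ (⨆ i, v (k i)) ^ 4 := by
  obtain ⟨t, l, ht, hkl, hl1, hl2, hsup, hl⟩ := normalize v k hk0
  have h2 : (⨆ i, v (dup a k i)) = v t ^ 4 * ⨆ i, v (dup a l i) := by
    rw [hkl, dup_smul, ← sup4_mul _ _ (pow_nonneg (v.nonneg _) _)]
    simp only [map_mul, map_pow]
  let a' : Fin 5 → OO v h := fun i => ⟨a i, ha i⟩
  let l' : Fin 4 → OO v h := fun i => ⟨l i, hl1 i⟩
  have hdup : ∀ i, ww (dup a' l' i) = v (dup a l i) := fun i => sub_hom_dup a' l' i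
  have h3 : ⨆ i, v (dup a l i) ≤ 1 := sup4_le _ _ fun i => by
    rw [← hdup]
    exact ww_le _
  rw [hsup, h2]
  exact mul_le_of_le_one_right (pow_nonneg (v.nonneg _) _) h3

theorem fin_good (h : IsNonarchimedean v) (hq : Discrete v q) (h2 : v 2 = 1) (a : Fin 5 → K)
    (ha : ∀ i, v (a i) ≤ 1)
    (hD : q⁻¹ ≤ v (dis a)) (d : K) (hd0 : d ≠ 0) (k : Fin 4 → K) (hk : Rep a d k)
    (hd : (∃ z, v d = v z ^ 2) ∨ v (dis a) = 1) :
    (⨆ i, v (k i)) ^ 4 ≤ ⨆ i, v (dup a k i) := by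
  obtain ⟨t, l, ht, hkl, hl1, hl2, hsup, hl⟩ := normalize v k hk.ne_zero
  have hR : Rep a d l := by
    rw [hl]
    exact hk.smul (inv_ne_zero ht)
  obtain ⟨⟨j, hj⟩, -⟩ := local_main h hq h2 a ha hD d hd0 l hR hl1 hl2 hd
  have h3 : (⨆ i, v (dup a k i)) = v t ^ 4 * ⨆ i, v (dup a l i) := by
    rw [hkl, dup_smul, ← sup4_mul _ _ (pow_nonneg (v.nonneg _) _)]
    simp only [map_mul, map_pow]
  rw [hsup, h3]
  have h4 : 1 ≤ ⨆ i, v (dup a l i) := by
    rw [← hj]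
    exact le_sup4 (fun i => v (dup a l i)) j
  exact le_mul_of_one_le_right (pow_nonneg (v.nonneg _) _) h4

theorem fin_odd (h : IsNonarchimedean v) (hq : Discrete v q) (h2 : v 2 = 1) (a : Fin 5 → K)
    (ha : ∀ i, v (a i) ≤ 1)
    (hD : v (dis a) = 1) (d : K) (hd0 : d ≠ 0) (k : Fin 4 → K) (hk : Rep a d k)
    (hd : ∀ z, v d ≠ v z ^ 2) (i : Fin 3) :
    q * v (dup a k i.castSucc) ≤ ⨆ i, v (dup a k i) := by
  have hq0 : 0 < q := by linarith [hq.one_lt]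
  obtain ⟨t, l, ht, hkl, hl1, hl2, hsup, hl⟩ := normalize v k hk.ne_zero
  have hR : Rep a d l := by
    rw [hl]
    exact hk.smul (inv_ne_zero ht)
  obtain ⟨⟨j, hj⟩, h5⟩ := local_main h hq h2 a ha (by
    rw [hD]; exact (inv_lt_one_of_one_lt₀ hq.one_lt).le) d hd0 l hR hl1 hl2 (Or.inr hD)
  have h3 : (⨆ i, v (dup a k i)) = v t ^ 4 * ⨆ i, v (dup a l i) := by
    rw [hkl, dup_smul, ← sup4_mul _ _ (pow_nonneg (v.nonneg _) _)]
    simp only [map_mul, map_pow]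
  have h4 : 1 ≤ ⨆ i, v (dup a l i) := by
    rw [← hj]
    exact le_sup4 (fun i => v (dup a l i)) j
  have h6 : q * v (dup a l i.castSucc) ≤ 1 := by
    have h7 := hq.lt_one (h5 hd i)
    calc q * v (dup a l i.castSucc) ≤ q * q⁻¹ := mul_le_mul_of_nonneg_left h7 hq0.le
      _ = 1 := mul_inv_cancel₀ hq0.ne'
  rw [h3]
  have h8 : dup a k i.castSucc = t ^ 4 * dup a l i.castSucc := by
    rw [hkl, dup_smul]
  rw [h8, map_mul, map_pow]
  calc q * (v t ^ 4 * v (dup a l i.castSucc)) = v t ^ 4 * (q * v (dup a l i.castSucc)) := by ring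
    _ ≤ v t ^ 4 * ⨆ i, v (dup a l i) :=
      mul_le_mul_of_nonneg_left (h6.trans h4) (pow_nonneg (v.nonneg _) _)

end nonarch

section arch

open MvPolynomial

theorem bound_aeval {σ : Type} (p : MvPolynomial σ ℤ) : ∃ C : ℝ, 1 ≤ C ∧ ∀ x : σ → ℂ,
    (∀ i, ‖x i‖ ≤ 1) → ‖aeval x p‖ ≤ C := by
  induction p using MvPolynomial.induction_on with
  | C n =>
    refine ⟨max 1 ‖(n : ℂ)‖, le_max_left _ _, fun x _ => ?_⟩
    simp
  | add p q hp hq =>
    obtain ⟨C, hC, h1⟩ := hp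
    obtain ⟨D, hD, h2⟩ := hq
    refine ⟨C + D, by linarith, fun x hx => ?_⟩
    rw [map_add]
    exact (norm_add_le _ _).trans (add_le_add (h1 x hx) (h2 x hx))
  | mul_X p i hp =>
    obtain ⟨C, hC, h1⟩ := hp
    refine ⟨C, hC, fun x hx => ?_⟩
    rw [map_mul, aeval_X, norm_mul]
    calc ‖aeval x p‖ * ‖x i‖ ≤ C * 1 :=
          mul_le_mul (h1 x hx) (hx i) (norm_nonneg _) (by linarith)
      _ = C := mul_one _

theorem D0_wt {R : Type*} [CommRing R] (a : Fin 5 → R) (k : Fin 4 → R) (t : R) :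
    D0 (fun i => t ^ (5 - (i : ℕ)) * a i) (fun i => t ^ (i : ℕ) * k i) = t ^ 9 * D0 a k := by
  simp [D0]
  ring

theorem D1_wt {R : Type*} [CommRing R] (a : Fin 5 → R) (k : Fin 4 → R) (t : R) :
    D1 (fun i => t ^ (5 - (i : ℕ)) * a i) (fun i => t ^ (i : ℕ) * k i) = t ^ 10 * D1 a k := by
  simp [D1]
  ring

theorem D2_wt {R : Type*} [CommRing R] (a : Fin 5 → R) (k : Fin 4 → R) (t : R) :
    D2 (fun i => t ^ (5 - (i : ℕ)) * a i) (fun i => t ^ (i : ℕ) * k i) = t ^ 11 * D2 a k := by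
  simp [D2]
  ring

theorem D3_wt {R : Type*} [CommRing R] (a : Fin 5 → R) (k : Fin 4 → R) (t : R) :
    D3 (fun i => t ^ (5 - (i : ℕ)) * a i) (fun i => t ^ (i : ℕ) * k i) = t ^ 12 * D3 a k := by
  simp [D3]
  ring

theorem kum_wt {R : Type*} [CommRing R] (a : Fin 5 → R) (k : Fin 4 → R) (t : R) :
    kum (fun i => t ^ (5 - (i : ℕ)) * a i) (fun i => t ^ (i : ℕ) * k i) = t ^ 8 * kum a k := by
  simp [kum]
  ring

theorem dup_wt {R : Type*} [CommRing R] (a : Fin 5 → R) (k : Fin 4 → R) (t : R) (i : Fin 4) :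
    dup (fun i => t ^ (5 - (i : ℕ)) * a i) (fun i => t ^ (i : ℕ) * k i) i =
      t ^ (9 + (i : ℕ)) * dup a k i := by
  fin_cases i
  · exact D0_wt a k t
  · exact D1_wt a k t
  · exact D2_wt a k t
  · exact D3_wt a k t

/-- the weighted norm of a vector -/
noncomputable def wn (h : ℝ) (k : Fin 4 → ℂ) : ℝ := ⨆ i : Fin 4, ‖k i‖ * h ^ (3 - (i : ℕ))

theorem wn_nonneg {h : ℝ} (hh : 0 < h) (k : Fin 4 → ℂ) : 0 ≤ wn h k :=
  (mul_nonneg (norm_nonneg (k 0)) (pow_nonneg hh.le _)).trans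
    (le_sup4 (fun i => ‖k i‖ * h ^ (3 - (i : ℕ))) 0)

theorem wn_pos {h : ℝ} (hh : 0 < h) (k : Fin 4 → ℂ) (hk : k ≠ 0) : 0 < wn h k := by
  obtain ⟨i, hi⟩ := Function.ne_iff.1 hk
  exact (mul_pos (norm_pos_iff.2 hi) (pow_pos hh _)).trans_le
    (le_sup4 (fun i => ‖k i‖ * h ^ (3 - (i : ℕ))) i)

theorem arch_one : ∃ C : ℝ, 1 ≤ C ∧ ∀ (a : Fin 5 → ℂ) (k : Fin 4 → ℂ), (∀ i, ‖a i‖ ≤ 1) →
    (∀ i, ‖k i‖ ≤ 1) → (∃ i, ‖k i‖ = 1) → kum a k = 0 →
    (⨆ i, ‖dup a k i‖) ≤ C ∧ ‖dis a‖ ^ NN ≤ C ∧ ‖dis a‖ ^ NN ≤ C * ⨆ i, ‖dup a k i‖ := by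
  choose C hC hC' using fun j i => bound_aeval (cc j i)
  choose F hF hF' using fun i => bound_aeval (dup gA gK i)
  obtain ⟨D, hD, hD'⟩ := bound_aeval (dis gA : U)
  let E : ℝ := ∑ j, ∑ i, C j i
  have hE : ∀ j i, C j i ≤ E := by
    intro j i
    have h1 : C j i ≤ ∑ i, C j i := Finset.single_le_sum
      (f := fun i => C j i) (fun i _ => by linarith [hC j i]) (Finset.mem_univ i)
    have h2 : ∑ i, C j i ≤ E := Finset.single_le_sum
      (f := fun j => ∑ i, C j i) (fun j _ => Finset.sum_nonneg fun i _ => by linarith [hC j i])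
      (Finset.mem_univ j)
    exact h1.trans h2
  have hE0 : 1 ≤ E := (hC 0 0).trans (hE 0 0)
  refine ⟨max (∑ i, F i) (max (D ^ NN) (4 * E)),
    le_max_of_le_right (le_max_of_le_right (by linarith)), fun a k ha hk hex hkum => ?_⟩
  have hx : ∀ i, ‖(Sum.elim a k) i‖ ≤ 1 := by
    rintro (i | i)
    · exact ha i
    · exact hk i
  refine ⟨le_max_of_le_left ?_, le_max_of_le_right (le_max_of_le_left ?_), ?_⟩
  · refine sup4_le _ _ fun i => ?_
    have h1 := hF' i (Sum.elim a k) hx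
    have h2 : aeval (Sum.elim a k) (dup gA gK i) = dup a k i := by
      have := map_dup (aeval (Sum.elim a k) : U →ₐ[ℤ] ℂ).toRingHom gA gK i
      change aeval (Sum.elim a k) (dup gA gK i) = dup (fun i => aeval (Sum.elim a k) (gA i))
        (fun i => aeval (Sum.elim a k) (gK i)) i at this
      rw [this]
      congr 1
      · funext i
        simp [gA]
      · funext i
        simp [gK]
    rw [h2] at h1
    exact h1.trans (Finset.single_le_sum (f := fun i => F i) (fun i _ => by linarith [hF i])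
      (Finset.mem_univ i))
  · apply pow_le_pow_left₀ (norm_nonneg _)
    have h1 := hD' (Sum.elim a k) hx
    have h2 : aeval (Sum.elim a k) (dis gA : U) = dis a := by
      have := map_dis (aeval (Sum.elim a k) : U →ₐ[ℤ] ℂ).toRingHom gA
      change aeval (Sum.elim a k) (dis gA : U) = dis (fun i => aeval (Sum.elim a k) (gA i)) at this
      rw [this]
      congr 1
      funext i
      simp [gA]
    rwa [h2] at h1
  · obtain ⟨j, hj⟩ := hex
    have hs : 0 ≤ ⨆ i, ‖dup a k i‖ := (norm_nonneg _).trans (le_sup4 (fun i => ‖dup a k i‖) 0)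
    have h1 := congrArg norm (cc_spec a k hkum j)
    rw [norm_pow, norm_mul, norm_mul, hj, mul_one] at h1
    have h2 : ‖dis a‖ ^ NN ≤ (‖(2 : ℂ)‖ * ‖dis a‖) ^ NN := by
      apply pow_le_pow_left₀ (norm_nonneg _)
      have : ‖(2 : ℂ)‖ = 2 := by simp
      rw [this]
      linarith [norm_nonneg (dis a)]
    rw [h1] at h2
    refine h2.trans ((norm_sum_le _ _).trans ?_)
    have h3 : ∀ i ∈ (Finset.univ : Finset (Fin 4)),
        ‖aeval (Sum.elim a k) (cc j i) * dup a k i‖ ≤ E * ⨆ i, ‖dup a k i‖ := by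
      intro i _
      rw [norm_mul]
      exact mul_le_mul ((hC' j i _ hx).trans (hE j i)) (le_sup4 (fun i => ‖dup a k i‖) i)
        (norm_nonneg _) (by linarith)
    refine (Finset.sum_le_card_nsmul _ _ _ h3).trans ?_
    rw [Finset.card_univ, Fintype.card_fin, nsmul_eq_mul]
    push_cast
    rw [← mul_assoc]
    exact mul_le_mul_of_nonneg_right ((le_max_right _ _).trans (le_max_right _ _)) hs

/-- the duplication map at an infinite place -/
theorem arch_bound : ∃ C : ℝ, 1 ≤ C ∧ ∀ (a : Fin 5 → ℂ) (k : Fin 4 → ℂ) (h : ℝ), 0 < h →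
    (∀ i : Fin 5, ‖a i‖ ≤ h ^ (5 - (i : ℕ))) → k ≠ 0 → kum a k = 0 →
    wn h (dup a k) ≤ C * wn h k ^ 4 ∧ (‖dis a‖ / h ^ 20) ^ NN ≤ C ∧
      (‖dis a‖ / h ^ 20) ^ NN * wn h k ^ 4 ≤ C * wn h (dup a k) := by
  obtain ⟨C, hC, hC'⟩ := arch_one
  refine ⟨C, hC, fun a k h hh ha hk hkum => ?_⟩
  have hM := wn_pos hh k hk
  set M := wn h k with hMdef
  have hhc : (h : ℂ) ≠ 0 := by exact_mod_cast hh.ne'
  have hMc : (M : ℂ) ≠ 0 := by exact_mod_cast hM.ne'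
  have hnh : ∀ n : ℕ, ‖(h : ℂ) ^ n‖ = h ^ n := fun n => by
    rw [norm_pow, Complex.norm_real, Real.norm_of_nonneg hh.le]
  let b : Fin 5 → ℂ := fun i => a i / (h : ℂ) ^ (5 - (i : ℕ))
  let l : Fin 4 → ℂ := fun i => k i * (h : ℂ) ^ (3 - (i : ℕ)) / M
  have hab : a = fun i : Fin 5 => (h : ℂ) ^ (5 - (i : ℕ)) * b i := by
    funext i
    simp only [b]
    field_simp
  have hkl : k = fun i : Fin 4 => (M / (h : ℂ) ^ 3) * ((h : ℂ) ^ (i : ℕ) * l i) := by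
    funext i
    simp only [l]
    have h3 : (h : ℂ) ^ 3 = (h : ℂ) ^ (i : ℕ) * (h : ℂ) ^ (3 - (i : ℕ)) := by
      rw [← pow_add]
      congr 1
      omega
    rw [h3]
    field_simp
  have hb : ∀ i, ‖b i‖ ≤ 1 := by
    intro i
    simp only [b]
    rw [norm_div, hnh, div_le_one (pow_pos hh _)]
    exact ha i
  have hln : ∀ i, ‖l i‖ = ‖k i‖ * h ^ (3 - (i : ℕ)) / M := by
    intro i
    simp only [l]
    rw [norm_div, norm_mul, hnh, Complex.norm_real, Real.norm_of_nonneg hM.le]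
  have hl : ∀ i, ‖l i‖ ≤ 1 := by
    intro i
    rw [hln, div_le_one hM]
    exact le_sup4 (fun i => ‖k i‖ * h ^ (3 - (i : ℕ))) i
  have hl2 : ∃ i, ‖l i‖ = 1 := by
    obtain ⟨j, hj⟩ := sup4_eq (fun i => ‖k i‖ * h ^ (3 - (i : ℕ)))
    refine ⟨j, ?_⟩
    rw [hln]
    rw [hj]
    exact div_self hM.ne'
  have hkum' : kum b l = 0 := by
    have h1 : kum a k = (M / (h : ℂ) ^ 3) ^ 4 * ((h : ℂ) ^ 8 * kum b l) := by
      rw [hkl, kum_smul, hab, kum_wt]
    rw [hkum] at h1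
    have h2 : (M / (h : ℂ) ^ 3) ^ 4 ≠ 0 := pow_ne_zero _ (div_ne_zero hMc (pow_ne_zero _ hhc))
    have h3 : (h : ℂ) ^ 8 ≠ 0 := pow_ne_zero _ hhc
    exact ((mul_eq_zero.1 ((mul_eq_zero.1 h1.symm).resolve_left h2)).resolve_left h3)
  have hdis : ‖dis b‖ = ‖dis a‖ / h ^ 20 := by
    have h1 : dis a = (h : ℂ) ^ 20 * dis b := by
      rw [hab, dis_scale]
    rw [h1, norm_mul, hnh]
    field_simp
  have hdup : ∀ i, ‖dup a k i‖ * h ^ (3 - (i : ℕ)) = M ^ 4 * ‖dup b l i‖ := by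
    intro i
    have h1 : dup a k i = (M / (h : ℂ) ^ 3) ^ 4 * ((h : ℂ) ^ (9 + (i : ℕ)) * dup b l i) := by
      rw [hkl, dup_smul, hab]
      beta_reduce
      rw [dup_wt]
    rw [h1, norm_mul, norm_mul, norm_pow, norm_div, hnh, hnh, Complex.norm_real,
      Real.norm_of_nonneg hM.le, div_pow]
    have h3 : (h ^ 3) ^ 4 = h ^ (9 + (i : ℕ)) * h ^ (3 - (i : ℕ)) := by
      rw [← pow_add, ← pow_mul]
      congr 1
      omega
    rw [h3]
    have h4 : h ^ (9 + (i : ℕ)) ≠ 0 := (pow_pos hh _).ne'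
    have h5 : h ^ (3 - (i : ℕ)) ≠ 0 := (pow_pos hh _).ne'
    field_simp
  obtain ⟨h0, h1, h2⟩ := hC' b l hb hl hl2 hkum'
  rw [hdis] at h1 h2
  have h3 : wn h (dup a k) = M ^ 4 * ⨆ i, ‖dup b l i‖ := by
    rw [wn, ← sup4_mul _ _ (pow_nonneg hM.le _)]
    congr 1
    funext i
    exact hdup i
  rw [h3]
  refine ⟨?_, h1, ?_⟩
  · rw [mul_comm]
    exact mul_le_mul_of_nonneg_right h0 (pow_nonneg hM.le _)
  calc (‖dis a‖ / h ^ 20) ^ NN * M ^ 4 ≤ (C * ⨆ i, ‖dup b l i‖) * M ^ 4 :=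
        mul_le_mul_of_nonneg_right h2 (pow_nonneg hM.le _)
    _ = C * (M ^ 4 * ⨆ i, ‖dup b l i‖) := by ring

end arch

end Run7.h929.G2
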