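import Pool.Agent.Run7.h929.G2.Cls
import Pool.Agent.Run7.h929.G2.DblId
import Pool.Agent.Run7.h929.G2.Place

/-!
# The doubling of a pair of Mumford
-/

set_option autoImplicit false

namespace Run7.h929.G2

open Polynomial

variable {K : Type} [Field K]

/-- a linear polynomial -/
noncomputable def lin (v1 v0 : K) : K[X] := C v1 * X + C v0

/-- the right hand side of the equation `Y² = d f(x)` -/
noncomputable def rhs (a : Fin 5 → K) (d : K) : K[X] := C d * quin a

/-- the coordinates on the Kummer surface of the point with the pair `(u, V)` -/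
noncomputable def kc (a : Fin 5 → K) (d : K) (u V : K[X]) : Fin 4 → K :=
  if u.natDegree = 2 then
    ![1, -u.coeff 1, u.coeff 0, V.coeff 1 ^ 2 / d - gg a (-u.coeff 1) (u.coeff 0)]
  else if u.natDegree = 1 then ![0, 1, -u.coeff 0, u.coeff 0 ^ 2]
  else ![0, 0, 0, 1]

theorem rhs_co (d s q v1 v0 w2 w1 w0 : K) : rhs (co d s q v1 v0 w2 w1 w0) d =
    (C d * lin v1 v0) ^ 2 + qu s q * (C d * qw w2 w1 w0) := by
  have h2 : (C 2 : K[X]) = 2 := map_ofNat C 2
  simp [rhs, quin, co, lin, qu, qw, h2]
  ring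

theorem qu_monic (s q : K) : (qu s q).Monic := by
  rw [qu]
  monicity!

theorem coeff_qu (s q : K) : (qu s q).coeff 1 = -s ∧ (qu s q).coeff 0 = q := by
  constructor <;> simp [qu, coeff_X, coeff_C]

theorem lin_degree_le (v1 v0 : K) : (lin v1 v0).natDegree ≤ 1 := by
  rw [lin]
  compute_degree

theorem coeff_lin (v1 v0 : K) : (lin v1 v0).coeff 1 = v1 ∧ (lin v1 v0).coeff 0 = v0 := by
  constructor <;> simp [lin, coeff_X, coeff_C]

theorem lin_lt_qu (s q v1 v0 : K) : (lin v1 v0).degree < (qu s q).degree := by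
  rw [degree_eq_natDegree (qu_monic s q).ne_zero, natDegree_qu]
  exact (degree_le_of_natDegree_le (lin_degree_le v1 v0)).trans_lt (by norm_num)

theorem kc_two (a : Fin 5 → K) (d s q y1 y0 : K) : kc a d (qu s q) (lin y1 y0) =
    ![1, s, q, y1 ^ 2 / d - gg a s q] := by
  rw [kc, if_pos (natDegree_qu s q), (coeff_qu s q).1, (coeff_qu s q).2, (coeff_lin y1 y0).1,
    neg_neg]

theorem kc_one (a : Fin 5 → K) (d x : K) (V : K[X]) : kc a d (X - C x) V = ![0, 1, x, x ^ 2] := by
  have h1 : (X - C x : K[X]).natDegree = 1 := natDegree_X_sub_C x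
  rw [kc, if_neg (by rw [h1]; norm_num), if_pos h1]
  simp

theorem kc_zero (a : Fin 5 → K) (d : K) (V : K[X]) : kc a d 1 V = ![0, 0, 0, 1] := by
  rw [kc, if_neg (by simp), if_neg (by simp)]

/-- the normal form of a pair -/
theorem normal_form {a : Fin 5 → K} {d : K} (hd : d ≠ 0) {u V : K[X]} (h : Mum (rhs a d) u V) :
    (u = 1 ∧ V = 0) ∨
    (∃ x y : K, u = X - C x ∧ V = C y ∧ y ^ 2 = d * fv a x) ∨
    (∃ s q v1 v0 w2 w1 w0 : K, u = qu s q ∧ V = C d * lin v1 v0 ∧
      a = co d s q v1 v0 w2 w1 w0) := by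
  have hdeg := h.deg
  have h3 : u.natDegree = 0 ∨ u.natDegree = 1 ∨ u.natDegree = 2 := by omega
  have hlt := h.lt
  rw [degree_eq_natDegree h.monic.ne_zero] at hlt
  rcases h3 with h0 | h1 | h2
  · left
    have hu : u = 1 := h.monic.natDegree_eq_zero.1 h0
    rw [h0] at hlt
    refine ⟨hu, ?_⟩
    rw [← degree_eq_bot]
    by_contra hne
    have h5 : V ≠ 0 := fun h => hne (by rw [h, degree_zero])
    rw [degree_eq_natDegree h5] at hlt
    have : V.natDegree < 0 := by exact_mod_cast hlt
    omega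
  · right; left
    rw [h1] at hlt
    have hu : u = X - C (-u.coeff 0) := by
      rw [map_neg, sub_neg_eq_add]
      have := h.monic.as_sum
      rw [h1] at this
      conv_lhs => rw [this]
      simp
    have hV : V = C (V.coeff 0) := by
      apply eq_C_of_natDegree_eq_zero
      by_cases h5 : V = 0
      · rw [h5]
        simp
      · rw [degree_eq_natDegree h5] at hlt
        have : V.natDegree < 1 := by exact_mod_cast hlt
        omega
    refine ⟨-u.coeff 0, V.coeff 0, hu, hV, ?_⟩
    obtain ⟨W, hW⟩ := h.exW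
    have := congrArg (eval (-u.coeff 0)) hW
    rw [eval_add, eval_mul] at this
    have h5 : eval (-u.coeff 0) u = 0 := by
      conv_lhs => rw [hu]
      simp
    rw [h5, zero_mul, add_zero, rhs, eval_mul, eval_C, eval_quin, eval_pow] at this
    rw [this]
    congr 1
    conv_rhs => rw [hV]
    simp
  · right; right
    rw [h2] at hlt
    set s := -u.coeff 1 with hs
    set q := u.coeff 0 with hq
    have hu : u = qu s q := by
      have := h.monic.as_sum
      rw [h2] at this
      conv_lhs => rw [this]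
      simp only [Finset.sum_range_succ, Finset.sum_range_zero, qu, s, q, map_neg]
      ring
    have hVd : V.natDegree ≤ 1 := by
      by_cases h5 : V = 0
      · rw [h5]
        simp
      · rw [degree_eq_natDegree h5] at hlt
        have : V.natDegree < 2 := by exact_mod_cast hlt
        omega
    have hV : V = lin (V.coeff 1) (V.coeff 0) := by
      rw [lin]
      exact eq_X_add_C_of_natDegree_le_one hVd
    set v1 := V.coeff 1 / d with hv1
    set v0 := V.coeff 0 / d with hv0
    have hV' : V = C d * lin v1 v0 := by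
      rw [hV, lin, lin, mul_add, ← mul_assoc, ← C_mul, ← C_mul, mul_div_cancel₀ _ hd,
        mul_div_cancel₀ _ hd]
    set w2 := a 4 + s with hw2
    set w1 := a 3 + s * w2 - q with hw1
    set w0 := a 2 - d * v1 ^ 2 + s * w1 - q * w2 with hw0
    set b := co d s q v1 v0 w2 w1 w0 with hb
    have e2 : b 2 = a 2 := by
      simp only [hb, co, Matrix.cons_val, hw0]
      ring
    have e3 : b 3 = a 3 := by
      simp only [hb, co, Matrix.cons_val, hw1]
      ring
    have e4 : b 4 = a 4 := by
      simp only [hb, co, Matrix.cons_val, hw2]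
      ring
    have hdiff : u ∣ C d * lin (a 1 - b 1) (a 0 - b 0) := by
      have e5 : C d * lin (a 1 - b 1) (a 0 - b 0) =
          (rhs a d - V ^ 2) - u * (C d * qw w2 w1 w0) := by
        have h6 := rhs_co d s q v1 v0 w2 w1 w0
        rw [← hb] at h6
        rw [hu, hV']
        have h7 : rhs a d - rhs b d = C d * lin (a 1 - b 1) (a 0 - b 0) := by
          simp only [rhs, quin, lin, e2, e3, e4, C_sub]
          ring
        rw [← h7, h6]
        ring
      rw [e5]
      exact dvd_sub h.dvd (dvd_mul_right _ _)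
    have hz : C d * lin (a 1 - b 1) (a 0 - b 0) = 0 := by
      apply eq_zero_of_dvd_of_degree_lt hdiff
      rw [degree_C_mul hd, hu]
      exact lin_lt_qu _ _ _ _
    have hz2 : lin (a 1 - b 1) (a 0 - b 0) = 0 :=
      (mul_eq_zero.1 hz).resolve_left (C_ne_zero.2 hd)
    have e1 : a 1 - b 1 = 0 := by rw [← (coeff_lin (a 1 - b 1) (a 0 - b 0)).1, hz2, coeff_zero]
    have e0 : a 0 - b 0 = 0 := by rw [← (coeff_lin (a 1 - b 1) (a 0 - b 0)).2, hz2, coeff_zero]
    refine ⟨s, q, v1, v0, w2, w1, w0, hu, hV', ?_⟩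
    funext i
    fin_cases i
    · exact sub_eq_zero.1 e0
    · exact sub_eq_zero.1 e1
    · exact e2.symm
    · exact e3.symm
    · exact e4.symm

theorem kc_co {d : K} (hd : d ≠ 0) (s q v1 v0 w2 w1 w0 : K) :
    kc (co d s q v1 v0 w2 w1 w0) d (qu s q) (C d * lin v1 v0) = kv s q w2 w0 := by
  have e : C d * lin v1 v0 = lin (d * v1) (d * v0) := by
    rw [lin, lin, C_mul, C_mul]
    ring
  have h1 := lead_co d s q v1 v0 w2 w1 w0
  have h2 : (d * v1) ^ 2 / d = d * v1 ^ 2 := by field_simp
  have h3 : (d * v1) ^ 2 / d - gg (co d s q v1 v0 w2 w1 w0) s q = -(w0 + q * w2) := by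
    rw [h2, ← h1]
    ring
  rw [e, kc_two, kv, h3]

theorem kc_rep {a : Fin 5 → K} {d : K} (hd : d ≠ 0) {u V : K[X]} (h : Mum (rhs a d) u V) :
    Rep a d (kc a d u V) := by
  rcases normal_form hd h with ⟨hu, hV⟩ | ⟨x, y, hu, hV, hy⟩ |
    ⟨s, q, v1, v0, w2, w1, w0, hu, hV, ha⟩
  · right; right
    refine ⟨1, one_ne_zero, ?_⟩
    rw [hu, kc_zero]
    simp
  · right; left
    refine ⟨1, x, y / d, one_ne_zero, ?_, ?_⟩
    · rw [div_pow, hy]
      field_simp
    · rw [hu, kc_one]
      simp
  · left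
    refine ⟨1, s, q, v1, v0, w2, w1, w0, one_ne_zero, ha, ?_⟩
    rw [hu, hV]
    conv_lhs => rw [ha]
    rw [kc_co hd]
    simp

end Run7.h929.G2
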