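import Pool.Agent.Run7.h929.G2.Dbl

/-!
# The doubling of a pair of Mumford: the class and the coordinates
-/

set_option autoImplicit false

namespace Run7.h929.G2

open Polynomial

variable {K : Type} [Field K]

/-- the double of a point -/
def Dou (a : Fin 5 → K) (d : K) (u V u' V' : K[X]) : Prop :=
  Mum (rhs a d) u' V' ∧ Same (MI (rhs a d) u' V') (MI (rhs a d) u V ^ 2) ∧
    ∃ c : K, c ≠ 0 ∧ kc a d u' V' = fun i => c * dup a (kc a d u V) i

variable {a : Fin 5 → K} {d : K}

theorem quin_separable (h2 : (5 : K) ≠ 0) (hdis : dis a ≠ 0) : (quin a).Separable := by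
  have h1 : IsUnit (resultant (quin a) (derivative (quin a))) := by
    have e : resultant (quin a) (derivative (quin a)) = dis a := by
      rw [dis]
      congr 1
      · exact natDegree_quin a
      · apply le_antisymm (natDegree_deriv_le a)
        apply le_natDegree_of_ne_zero
        rw [coeff_derivative]
        have : (quin a).coeff (4 + 1) = 1 := coeff_quin_five a
        rw [this]
        norm_num
        exact h2
    rw [e]
    exact hdis.isUnit
  exact (isUnit_resultant_iff_isCoprime (monic_quin a)).1 h1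

theorem rhs_squarefree (h5 : (5 : K) ≠ 0) (hd : d ≠ 0) (hdis : dis a ≠ 0) :
    Squarefree (rhs a d) := by
  have h1 := (quin_separable h5 hdis).squarefree
  intro x hx
  exact h1 x ((isUnit_C.2 hd.isUnit).dvd_mul_left.1 hx)

theorem natDegree_rhs (hd : d ≠ 0) : (rhs a d).natDegree = 5 := by
  rw [rhs, natDegree_C_mul hd, natDegree_quin]

theorem dup_ne' {k : Fin 4 → K} (h2 : (2 : K) ≠ 0) (hdis : dis a ≠ 0) (hkum : kum a k = 0)
    (hk : k ≠ 0) : dup a k ≠ 0 := by
  intro h
  obtain ⟨j, hj⟩ := Function.ne_iff.1 hk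
  have h1 := cc_spec a k hkum j
  rw [h] at h1
  simp only [Pi.zero_apply, mul_zero, Finset.sum_const_zero] at h1
  exact pow_ne_zero _ (mul_ne_zero (mul_ne_zero h2 hdis) hj) h1

theorem MI_one (g V : K[X]) : MI g 1 V = ⊤ := by
  rw [Ideal.eq_top_iff_one]
  have := pl (io g 1) (yy g - io g V)
  rwa [map_one] at this

theorem mum_one (g : K[X]) : Mum g 1 0 where
  monic := monic_one
  deg := by simp
  lt := by
    rw [degree_zero, degree_one]
    exact WithBot.bot_lt_coe 0
  dvd := one_dvd _

/-- the last coordinate alone is not zero -/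
theorem dup_last {k : Fin 4 → K} (h2 : (2 : K) ≠ 0) (hdis : dis a ≠ 0) (hkum : kum a k = 0)
    (hk : k ≠ 0) (h : ∀ i : Fin 3, dup a k i.castSucc = 0) :
    ∃ c : K, c ≠ 0 ∧ (![0, 0, 0, 1] : Fin 4 → K) = fun i => c * dup a k i := by
  have h0 : dup a k 0 = 0 := h 0
  have h1 : dup a k 1 = 0 := h 1
  have h2' : dup a k 2 = 0 := h 2
  have h3 : dup a k 3 ≠ 0 := by
    intro h3
    apply dup_ne' h2 hdis hkum hk
    funext i
    fin_cases i
    · exact h0
    · exact h1
    · exact h2'
    · exact h3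
  refine ⟨(dup a k 3)⁻¹, inv_ne_zero h3, ?_⟩
  funext i
  fin_cases i
  · simp [h0]
  · simp [h1]
  · simp [h2']
  · simp [h3]

/-- a point of order two -/
theorem dou_zero (h2 : (2 : K) ≠ 0) (h5 : (5 : K) ≠ 0) (hd : d ≠ 0) (hdis : dis a ≠ 0)
    {u : K[X]} (h : Mum (rhs a d) u 0) : Dou a d u 0 1 0 := by
  refine ⟨mum_one _, ?_, ?_⟩
  · refine ⟨io (rhs a d) u, 1, ?_, ?_, ?_⟩
    · intro h0
      apply h.monic.ne_zero
      apply io_inj (g := rhs a d)
      rw [h0, map_zero]
    · intro h0
      have : (1 : K[X]) = 0 := by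
        apply io_inj (g := rhs a d)
        rw [map_one, h0, map_zero]
      exact one_ne_zero this
    · obtain ⟨W, hW⟩ := h.exW
      have := MI_conj h2 (rhs_squarefree h5 hd hdis) u 0 W hW
      rw [neg_zero] at this
      rw [MI_one, pow_two, this, ← Ideal.one_eq_top, mul_one, Ideal.span_singleton_one,
        ← Ideal.one_eq_top, one_mul]
  · rw [kc_zero]
    have hR := kc_rep hd h
    apply dup_last h2 hdis hR.kum_eq hR.ne_zero
    rcases normal_form hd h with ⟨hu, hV⟩ | ⟨x, y, hu, hV, hy⟩ |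
      ⟨s, q, v1, v0, w2, w1, w0, hu, hV, ha⟩
    · rw [hu, kc_zero]
      intro i
      fin_cases i
      · change D0 a ![0, 0, 0, 1] = 0
        simp [D0]
      · change D1 a ![0, 0, 0, 1] = 0
        simp [D1]
      · change D2 a ![0, 0, 0, 1] = 0
        simp [D2]
    · have hy0 : y = 0 := C_eq_zero.1 hV.symm
      have hf : fv a x = 0 := by
        rw [hy0] at hy
        have : d * fv a x = 0 := by rw [← hy]; ring
        exact (mul_eq_zero.1 this).resolve_left hd
      rw [hu, kc_one]
      have e : (![0, 1, x, x ^ 2] : Fin 4 → K) = ![0, 1, x * 1, x ^ 2] := by rw [mul_one]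
      rw [e]
      have ht : x ^ 2 = x ^ 2 * 1 := by ring
      intro i
      fin_cases i
      · change D0 a _ = 0
        rw [D0_inf a x 1 (x ^ 2) ht, hf]
        ring
      · change D1 a _ = 0
        rw [D1_inf a x 1 (x ^ 2) ht, hf]
        ring
      · change D2 a _ = 0
        rw [D2_inf a x 1 (x ^ 2) ht, hf]
        ring
    · have hl : lin v1 v0 = 0 := by
        rcases mul_eq_zero.1 hV.symm with h6 | h6
        · exact absurd (C_eq_zero.1 h6) hd
        · exact h6
      have hv1 : v1 = 0 := by rw [← (coeff_lin v1 v0).1, hl, coeff_zero]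
      have hv0 : v0 = 0 := by rw [← (coeff_lin v1 v0).2, hl, coeff_zero]
      rw [hu, hV]
      conv =>
        intro i
        rw [ha]
      rw [kc_co hd, hv1, hv0]
      intro i
      fin_cases i
      · change D0 _ _ = 0
        rw [D0_co]
        simp only [vw]
        ring
      · change D1 _ _ = 0
        rw [D1_co]
        simp only [vw, rv]
        ring
      · change D2 _ _ = 0
        rw [D2_co]
        simp only [vw, rv, xw]
        ring

/-- the quotient in Taylor's formula -/
noncomputable def tay (a : Fin 5 → K) (x : K) : K[X] :=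
  (X ^ 3 + 2 * C x * X ^ 2 + 3 * C x ^ 2 * X + 4 * C x ^ 3) +
    C (a 4) * (X ^ 2 + 2 * C x * X + 3 * C x ^ 2) + C (a 3) * (X + 2 * C x) + C (a 2)

theorem taylor2 (a : Fin 5 → K) (x : K) : quin a =
    C (fv a x) + C (fd a x) * (X - C x) + (X - C x) * (X - C x) * tay a x := by
  simp only [quin, fv, fd, tay, map_add, map_mul, map_pow, map_ofNat]
  ring

theorem qu_sq (x : K) : qu (2 * x) (x ^ 2) = (X - C x) * (X - C x) := by
  simp only [qu, map_mul, map_pow, map_ofNat]
  ring

theorem lin_eq (t x y : K) : lin t (y - t * x) = C y + C t * (X - C x) := by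
  simp only [lin, map_sub, map_mul]
  ring

/-- the double of a point of the curve -/
theorem dou_one (h2 : (2 : K) ≠ 0) (hd : d ≠ 0) {x y : K} (hy : y ≠ 0)
    (hxy : y ^ 2 = d * fv a x) (t : K) (ht : 2 * y * t = d * fd a x) :
    Mum (rhs a d) (qu (2 * x) (x ^ 2)) (lin t (y - t * x)) ∧
      MI (rhs a d) (qu (2 * x) (x ^ 2)) (lin t (y - t * x)) =
        MI (rhs a d) (X - C x) (C y) ^ 2 ∧
      kc a d (qu (2 * x) (x ^ 2)) (lin t (y - t * x)) =
        fun i => (4 * fv a x)⁻¹ * dup a ![0, 1, x, x ^ 2] i := by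
  have hf : fv a x ≠ 0 := by
    intro h0
    rw [h0, mul_zero] at hxy
    exact hy (pow_eq_zero_iff (two_ne_zero) |>.1 hxy)
  have h4 : (4 : K) ≠ 0 := by
    have : (4 : K) = 2 * 2 := by norm_num
    rw [this]
    exact mul_ne_zero h2 h2
  have hg : rhs a d = (lin t (y - t * x)) ^ 2 +
      (X - C x) * (X - C x) * (C d * tay a x - C t ^ 2) := by
    have e1 : (C y : K[X]) ^ 2 = C d * C (fv a x) := by rw [← C_pow, hxy, C_mul]
    have e2 : 2 * C y * C t = (C d * C (fd a x) : K[X]) := by
      rw [← C_mul, ← ht]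
      simp only [map_mul, map_ofNat]
    rw [rhs, taylor2 a x, lin_eq]
    linear_combination (-1 : K[X]) * e1 - (X - C x) * e2
  refine ⟨⟨qu_monic _ _, (natDegree_qu _ _).le, lin_lt_qu _ _ _ _, ?_⟩, ?_, ?_⟩
  · rw [qu_sq]
    refine ⟨C d * tay a x - C t ^ 2, ?_⟩
    rw [hg]
    ring
  · have e3 : MI (rhs a d) (X - C x) (C y) = MI (rhs a d) (X - C x) (lin t (y - t * x)) := by
      apply pair_congr _ _ _ _ (io _ (-C t))
      rw [← map_sub, ← map_mul, lin_eq]
      congr 1
      ring
    rw [e3, MI, MI, qu_sq, map_mul]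
    refine (pair_sq _ _ (io _ (C d * tay a x - C t ^ 2)) _ (io _ (-C (t / y)))
      (io _ (C (1 / (2 * y)))) ?_ ?_).symm
    · rw [yy_sq, congrArg (io (rhs a d)) hg]
      simp only [map_add, map_mul, map_pow]
      ring
    · rw [← map_ofNat (io (rhs a d)) 2, ← map_mul, ← map_mul, ← map_mul, ← map_add, ← map_one (io _),
        lin_eq]
      congr 1
      have e4 : (C (1 / (2 * y)) : K[X]) * 2 * C y = 1 := by
        have : (2 : K[X]) = C 2 := rfl
        rw [this, ← C_mul, ← C_mul, ← C_1]
        congr 1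
        field_simp
      have e5 : (C (1 / (2 * y)) : K[X]) * 2 * C t = C (t / y) := by
        have : (2 : K[X]) = C 2 := rfl
        rw [this, ← C_mul, ← C_mul]
        congr 1
        field_simp
      linear_combination e4 + (X - C x) * e5
  · have e : (![0, 1, x, x ^ 2] : Fin 4 → K) = ![0, 1, x * 1, x ^ 2] := by rw [mul_one]
    have hx : x ^ 2 = x ^ 2 * 1 := by ring
    rw [kc_two]
    funext i
    fin_cases i
    · change 1 = (4 * fv a x)⁻¹ * D0 a ![0, 1, x, x ^ 2]
      rw [e, D0_inf a x 1 (x ^ 2) hx]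
      field_simp
    · change 2 * x = (4 * fv a x)⁻¹ * D1 a ![0, 1, x, x ^ 2]
      rw [e, D1_inf a x 1 (x ^ 2) hx]
      field_simp
      ring
    · change x ^ 2 = (4 * fv a x)⁻¹ * D2 a ![0, 1, x, x ^ 2]
      rw [e, D2_inf a x 1 (x ^ 2) hx]
      field_simp
    · change t ^ 2 / d - gg a (2 * x) (x ^ 2) = (4 * fv a x)⁻¹ * D3 a ![0, 1, x, x ^ 2]
      rw [e, D3_inf a x 1 (x ^ 2) hx]
      have e6 : 4 * fv a x * (t ^ 2 / d) = fd a x ^ 2 := by
        have e7 : (2 * y * t) ^ 2 = d ^ 2 * fd a x ^ 2 := by rw [ht]; ring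
        have e8 : d * (4 * fv a x * t ^ 2) = d * (d * fd a x ^ 2) := by
          linear_combination e7 - 4 * t ^ 2 * hxy
        have e9 := mul_left_cancel₀ hd e8
        rw [← mul_div_assoc, e9]
        field_simp
      rw [← e6]
      field_simp

end Run7.h929.G2
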