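import Pool.Agent.Run7.h929.G2.Dbl2

/-!
# The doubling of a pair of Mumford of degree two
-/

set_option autoImplicit false

namespace Run7.h929.G2

open Polynomial

variable {K : Type} [Field K]

theorem exists_l (h2 : (2 : K) ≠ 0) (s q v1 v0 w2 w1 w0 : K) (hR : rv s q v1 v0 ≠ 0) :
    ∃ l1 l0 e : K, w2 = e2 s v1 l1 e ∧ w1 = e1 s q v1 v0 l1 l0 e ∧ w0 = e0 q v0 l0 e := by
  refine ⟨vw s q v1 v0 w2 w1 w0 / (2 * rv s q v1 v0), -(xw s q v1 v0 w2 w1 w0) /
    (2 * rv s q v1 v0), w2 + s + 2 * v1 * (vw s q v1 v0 w2 w1 w0 / (2 * rv s q v1 v0)),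
    ?_, ?_, ?_⟩
  · simp only [e2]
    ring
  · have : rv s q v1 v0 * w1 = rv s q v1 v0 * e1 s q v1 v0 (vw s q v1 v0 w2 w1 w0 /
        (2 * rv s q v1 v0)) (-(xw s q v1 v0 w2 w1 w0) / (2 * rv s q v1 v0))
        (w2 + s + 2 * v1 * (vw s q v1 v0 w2 w1 w0 / (2 * rv s q v1 v0))) := by
      simp only [e1]
      field_simp
      simp only [vw, xw, rv, Wa, Wb]
      ring
    exact mul_left_cancel₀ hR this
  · have : rv s q v1 v0 * w0 = rv s q v1 v0 * e0 q v0 (-(xw s q v1 v0 w2 w1 w0) /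
        (2 * rv s q v1 v0))
        (w2 + s + 2 * v1 * (vw s q v1 v0 w2 w1 w0 / (2 * rv s q v1 v0))) := by
      simp only [e0]
      field_simp
      simp only [vw, xw, rv, Wa, Wb]
      ring
    exact mul_left_cancel₀ hR this

theorem MI_unit {g u V : K[X]} {k : K} (hk : k ≠ 0) : MI g (C k * u) V = MI g u V := by
  rw [MI, MI]
  apply le_antisymm
  · apply pair_le _ (pr _ _)
    rw [map_mul]
    exact Ideal.mul_mem_left _ _ (pl _ _)
  · apply pair_le _ (pr _ _)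
    have : io g u = io g (C k⁻¹) * io g (C k * u) := by
      rw [← map_mul, ← mul_assoc, ← C_mul, inv_mul_cancel₀ hk, C_1, one_mul]
    rw [this]
    exact Ideal.mul_mem_left _ _ (pl _ _)

section
variable (d s q v1 v0 l1 l0 e : K)

/-- the coefficients in terms of the solution of the linear congruence -/
def cl : Fin 5 → K :=
  co d s q v1 v0 (e2 s v1 l1 e) (e1 s q v1 v0 l1 l0 e) (e0 q v0 l0 e)

/-- `c² - E` -/
noncomputable def pU : K[X] := lin l1 l0 ^ 2 - C d * (X + C e)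
/-- `u c - V` -/
noncomputable def pA : K[X] := qu s q * lin l1 l0 - C d * lin v1 v0

theorem rhs_cl : rhs (cl d s q v1 v0 l1 l0 e) d = (C d * lin v1 v0) ^ 2 +
    qu s q * (C d * qw (e2 s v1 l1 e) (e1 s q v1 v0 l1 l0 e) (e0 q v0 l0 e)) :=
  rhs_co d s q v1 v0 _ _ _

theorem cong_cl : 2 * (C d * lin v1 v0) * lin l1 l0 +
    (C d * qw (e2 s v1 l1 e) (e1 s q v1 v0 l1 l0 e) (e0 q v0 l0 e)) =
    qu s q * (C d * (X + C e)) := by
  simp only [lin, qw, qu, e2, e1, e0, map_sub, map_mul, map_add, map_ofNat]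
  ring

theorem rhs_sub_sq : rhs (cl d s q v1 v0 l1 l0 e) d - pA d s q v1 v0 l1 l0 ^ 2 =
    -(qu s q ^ 2 * pU d l1 l0 e) := by
  have h1 := rhs_cl d s q v1 v0 l1 l0 e
  have h2 := cong_cl d s q v1 v0 l1 l0 e
  rw [pA, pU]
  linear_combination h1 + qu s q * h2

theorem red_cl (h2 : (2 : K) ≠ 0) (hd : d ≠ 0) (hR : rv s q v1 v0 ≠ 0) :
    Ideal.span {io (rhs (cl d s q v1 v0 l1 l0 e) d) (pU d l1 l0 e)} *
      MI (rhs (cl d s q v1 v0 l1 l0 e) d) (qu s q) (C d * lin v1 v0) ^ 2 =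
    Ideal.span {io (rhs (cl d s q v1 v0 l1 l0 e) d) (pA d s q v1 v0 l1 l0) +
      yy (rhs (cl d s q v1 v0 l1 l0 e) d)} *
      MI (rhs (cl d s q v1 v0 l1 l0 e) d) (pU d l1 l0 e) (pA d s q v1 v0 l1 l0) := by
  set g := rhs (cl d s q v1 v0 l1 l0 e) d with hg
  have h1 := congrArg (io g) (rhs_cl d s q v1 v0 l1 l0 e)
  rw [← hg] at h1
  have h3 := congrArg (io g) (cong_cl d s q v1 v0 l1 l0 e)
  have e3 : C (v1 ^ 2 / rv s q v1 v0) * qu s q +
      C (1 / (2 * d * rv s q v1 v0)) * lin (-v1) (v0 + s * v1) * (2 * (C d * lin v1 v0)) =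
      (1 : K[X]) := by
    have e4 : (C (1 / (2 * d * rv s q v1 v0)) : K[X]) * 2 * C d = C (1 / rv s q v1 v0) := by
      have : (2 : K[X]) = C 2 := rfl
      rw [this, ← C_mul, ← C_mul]
      congr 1
      field_simp
    have e5 : (C (v1 ^ 2 / rv s q v1 v0) : K[X]) = C (1 / rv s q v1 v0) * C v1 ^ 2 := by
      rw [← C_pow, ← C_mul]
      congr 1
      field_simp
    have e6 : (C (1 / rv s q v1 v0) : K[X]) * C (rv s q v1 v0) = 1 := by
      rw [← C_mul, one_div, inv_mul_cancel₀ hR, C_1]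
    have e7 : lin (-v1) (v0 + s * v1) * lin v1 v0 = C (rv s q v1 v0) - C v1 ^ 2 * qu s q := by
      simp only [lin, rv, qu, map_neg, map_add, map_mul, map_pow]
      ring
    rw [e5]
    linear_combination lin (-v1) (v0 + s * v1) * lin v1 v0 * e4 + C (1 / rv s q v1 v0) * e7 + e6
  have h4 := congrArg (io g) e3
  simp only [map_add, map_mul, map_pow, map_one, map_ofNat] at h1 h3 h4
  have key := pair_red (io g (qu s q)) (io g (C d) * io g (lin v1 v0))
    (io g (C d) * io g (qw (e2 s v1 l1 e) (e1 s q v1 v0 l1 l0 e) (e0 q v0 l0 e))) (yy g)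
    (io g (lin l1 l0)) (io g (C d) * (io g X + io g (C e)))
    (io g (C (v1 ^ 2 / rv s q v1 v0)))
    (io g (C (1 / (2 * d * rv s q v1 v0))) * io g (lin (-v1) (v0 + s * v1)))
    (by rw [yy_sq, h1]; ring) h3 h4
  rw [MI, MI, pU, pA]
  simp only [map_add, map_mul, map_pow, map_sub]
  exact key

theorem pA_ne : io (rhs (cl d s q v1 v0 l1 l0 e) d) (pA d s q v1 v0 l1 l0) +
      yy (rhs (cl d s q v1 v0 l1 l0 e) d) ≠ 0 := by
  intro h
  have := congrArg QuadraticAlgebra.im h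
  simp [io, yy] at this

theorem dup_cl : dup (cl d s q v1 v0 l1 l0 e) (kv s q (e2 s v1 l1 e) (e0 q v0 l0 e)) =
    fun i => 16 * rv s q v1 v0 ^ 2 * (![d * l1 ^ 2, d * (d - 2 * l1 * l0), d * (l0 ^ 2 - d * e),
      K4 d s q v1 v0 l1 l0 e] : Fin 4 → K) i := by
  funext i
  fin_cases i
  · exact D0_l d s q v1 v0 l1 l0 e
  · exact D1_l d s q v1 v0 l1 l0 e
  · exact D2_l d s q v1 v0 l1 l0 e
  · exact D3_l d s q v1 v0 l1 l0 e

theorem sixteen (h2 : (2 : K) ≠ 0) : (16 : K) ≠ 0 := by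
  have : (16 : K) = 2 * 2 * 2 * 2 := by norm_num
  rw [this]
  exact mul_ne_zero (mul_ne_zero (mul_ne_zero h2 h2) h2) h2

/-- the generic case -/
theorem dou_gen (h2 : (2 : K) ≠ 0) (hd : d ≠ 0) (hR : rv s q v1 v0 ≠ 0) (h1 : l1 ≠ 0)
    (s' q' m y1 y0 : K)
    (hs : s' * l1 ^ 2 = d - 2 * l1 * l0) (hq : q' * l1 ^ 2 = l0 ^ 2 - d * e)
    (hm : m = l0 - s * l1 + l1 * s')
    (hy1 : y1 = q * l1 - s * l0 - d * v1 - q' * l1 + s' * m)
    (hy0 : y0 = q * l0 - d * v0 - q' * m) :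
    Dou (cl d s q v1 v0 l1 l0 e) d (qu s q) (C d * lin v1 v0) (qu s' q') (lin y1 y0) := by
  have hU : pU d l1 l0 e = C (l1 ^ 2) * qu s' q' := by
    have e1 : C (l1 ^ 2) * qu s' q' = C (l1 ^ 2) * X ^ 2 - C (s' * l1 ^ 2) * X +
        C (q' * l1 ^ 2) := by
      simp only [qu, map_mul, map_pow]
      ring
    rw [e1, hs, hq, pU]
    simp only [lin, map_sub, map_mul, map_pow, map_ofNat]
    ring
  have hA : pA d s q v1 v0 l1 l0 - lin y1 y0 = qu s' q' * lin l1 m := by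
    rw [pA, hy1, hy0, hm]
    simp only [lin, qu, map_add, map_sub, map_mul]
    ring
  have hl2 : l1 ^ 2 ≠ 0 := pow_ne_zero _ h1
  refine ⟨⟨qu_monic _ _, (natDegree_qu _ _).le, lin_lt_qu _ _ _ _, ?_⟩, ?_, ?_⟩
  · have e1 : rhs (cl d s q v1 v0 l1 l0 e) d - lin y1 y0 ^ 2 =
        qu s' q' * (lin l1 m * (pA d s q v1 v0 l1 l0 + lin y1 y0) - qu s q ^ 2 * C (l1 ^ 2)) := by
      have e2 := rhs_sub_sq d s q v1 v0 l1 l0 e
      rw [hU] at e2
      linear_combination e2 + (pA d s q v1 v0 l1 l0 + lin y1 y0) * hA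
    rw [e1]
    exact dvd_mul_right _ _
  · refine ⟨_, io (rhs (cl d s q v1 v0 l1 l0 e) d) (pU d l1 l0 e), pA_ne d s q v1 v0 l1 l0 e,
      ?_, ?_⟩
    · intro h0
      have h3 : pU d l1 l0 e = 0 := by
        apply io_inj (g := rhs (cl d s q v1 v0 l1 l0 e) d)
        rw [h0, map_zero]
      rw [hU] at h3
      rcases mul_eq_zero.1 h3 with h4 | h4
      · exact hl2 (C_eq_zero.1 h4)
      · exact (qu_monic s' q').ne_zero h4
    · rw [red_cl d s q v1 v0 l1 l0 e h2 hd hR]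
      congr 1
      rw [hU, MI_unit hl2, MI, MI]
      refine (pair_congr _ _ _ _ (io _ (lin l1 m)) ?_).symm
      rw [← map_sub, ← map_mul, hA]
  · refine ⟨(16 * rv s q v1 v0 ^ 2 * (d * l1 ^ 2))⁻¹, ?_, ?_⟩
    · exact inv_ne_zero (mul_ne_zero (mul_ne_zero (sixteen h2) (pow_ne_zero _ hR))
        (mul_ne_zero hd hl2))
    · have h16 := sixteen h2
      rw [kc_two, cl, kc_co hd]
      have e3 := dup_cl d s q v1 v0 l1 l0 e
      rw [cl] at e3
      rw [e3]
      have e4 := four_id d s q v1 v0 l1 l0 e s' q' m y1 h1 hs hq hm hy1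
      funext i
      fin_cases i
      · simp
        field_simp
      · simp
        rw [← hs]
        field_simp
      · simp
        rw [← hq]
        field_simp
      · simp
        rw [← e4]
        field_simp

/-- the case of a point of the curve -/
theorem dou_deg (h2 : (2 : K) ≠ 0) (hd : d ≠ 0) (hR : rv s q v1 v0 ≠ 0) (x' : K)
    (hx : d * x' = l0 ^ 2 - d * e) :
    Dou (cl d s q v1 v0 0 l0 e) d (qu s q) (C d * lin v1 v0) (X - C x')
      (C (eval x' (pA d s q v1 v0 0 l0))) := by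
  have hU : pU d 0 l0 e = C (-d) * (X - C x') := by
    have e1 : C (-d) * (X - C x') = -C d * X + C (d * x') := by
      simp only [map_mul, map_neg]
      ring
    rw [e1, hx, pU]
    simp only [lin, map_sub, map_mul, map_pow, map_zero]
    ring
  have hd' : -d ≠ 0 := neg_ne_zero.2 hd
  obtain ⟨Q, hQ⟩ := X_sub_C_dvd_sub_C_eval (a := x') (p := pA d s q v1 v0 0 l0)
  set y := eval x' (pA d s q v1 v0 0 l0) with hy
  refine ⟨⟨monic_X_sub_C _, by rw [natDegree_X_sub_C]; norm_num, ?_, ?_⟩, ?_, ?_⟩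
  · rw [degree_X_sub_C]
    exact degree_C_lt
  · have e1 : rhs (cl d s q v1 v0 0 l0 e) d - C y ^ 2 =
        (X - C x') * (Q * (pA d s q v1 v0 0 l0 + C y) - qu s q ^ 2 * C (-d)) := by
      have e2 := rhs_sub_sq d s q v1 v0 0 l0 e
      rw [hU] at e2
      linear_combination e2 + (pA d s q v1 v0 0 l0 + C y) * hQ
    rw [e1]
    exact dvd_mul_right _ _
  · refine ⟨_, io (rhs (cl d s q v1 v0 0 l0 e) d) (pU d 0 l0 e), pA_ne d s q v1 v0 0 l0 e,
      ?_, ?_⟩
    · intro h0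
      have h3 : pU d 0 l0 e = 0 := by
        apply io_inj (g := rhs (cl d s q v1 v0 0 l0 e) d)
        rw [h0, map_zero]
      rw [hU] at h3
      rcases mul_eq_zero.1 h3 with h4 | h4
      · exact hd' (C_eq_zero.1 h4)
      · exact X_sub_C_ne_zero x' h4
    · rw [red_cl d s q v1 v0 0 l0 e h2 hd hR]
      congr 1
      rw [hU, MI_unit hd', MI, MI]
      refine (pair_congr _ _ _ _ (io _ Q) ?_).symm
      rw [← map_sub, ← map_mul, hQ]
  · refine ⟨(16 * rv s q v1 v0 ^ 2 * d ^ 2)⁻¹, ?_, ?_⟩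
    · exact inv_ne_zero (mul_ne_zero (mul_ne_zero (sixteen h2) (pow_ne_zero _ hR))
        (pow_ne_zero _ hd))
    · have h16 := sixteen h2
      rw [kc_one, cl, kc_co hd]
      have e3 := dup_cl d s q v1 v0 0 l0 e
      rw [cl] at e3
      rw [e3]
      funext i
      fin_cases i
      · simp
      · simp
        field_simp
      · simp
        rw [← hx]
        field_simp
      · have e4 : K4 d s q v1 v0 0 l0 e = d ^ 2 * x' ^ 2 := by
          have : d ^ 2 * x' ^ 2 = (d * x') ^ 2 := by ring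
          rw [this, hx]
          simp only [K4]
          ring
        simp
        rw [e4]
        field_simp

end

/-- the sum of a point of order two and a point of the curve -/
theorem dou_two (h2 : (2 : K) ≠ 0) (h5 : (5 : K) ≠ 0) (d x0 x2 v1 w2 w1 w0 : K) (hd : d ≠ 0)
    (hv : v1 ≠ 0) (hdis : dis (co d (x0 + x2) (x0 * x2) v1 (-(v1 * x0)) w2 w1 w0) ≠ 0) :
    ∃ t y : K, Dou (co d (x0 + x2) (x0 * x2) v1 (-(v1 * x0)) w2 w1 w0) d
      (qu (x0 + x2) (x0 * x2)) (C d * lin v1 (-(v1 * x0))) (qu (2 * x2) (x2 ^ 2)) (lin t y) := by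
  set a := co d (x0 + x2) (x0 * x2) v1 (-(v1 * x0)) w2 w1 w0 with ha
  have hsq := rhs_squarefree h5 hd hdis
  have hg : rhs a d = (C d * lin v1 (-(v1 * x0))) ^ 2 + qu (x0 + x2) (x0 * x2) *
    (C d * qw w2 w1 w0) := rhs_co d _ _ _ _ _ _ _
  have hu : qu (x0 + x2) (x0 * x2) = (X - C x0) * (X - C x2) := by
    simp only [qu, map_add, map_mul]
    ring
  have hl : lin v1 (-(v1 * x0)) = C v1 * (X - C x0) := by
    simp only [lin, map_neg, map_mul]
    ring
  have hne : x2 - x0 ≠ 0 := by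
    intro h0
    have h1 : x2 = x0 := sub_eq_zero.1 h0
    have h3 : (X - C x0) * (X - C x0) ∣ rhs a d := by
      rw [hg, hu, hl, h1]
      exact ⟨C d ^ 2 * C v1 ^ 2 + C d * qw w2 w1 w0, by ring⟩
    exact not_isUnit_X_sub_C x0 (hsq _ h3)
  have hf : fv a x2 = d * v1 ^ 2 * (x2 - x0) ^ 2 := fv_two d x0 x2 v1 w2 w1 w0
  set y := d * v1 * (x2 - x0) with hy
  have hy0 : y ≠ 0 := mul_ne_zero (mul_ne_zero hd hv) hne
  have hxy : y ^ 2 = d * fv a x2 := by
    rw [hf, hy]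
    ring
  obtain ⟨m1, m2, m3⟩ := dou_one h2 hd hy0 hxy (d * fd a x2 / (2 * y)) (by field_simp)
  refine ⟨_, _, m1, ?_, ?_⟩
  · rw [m2]
    have e1 : MI (rhs a d) (qu (x0 + x2) (x0 * x2)) (C d * lin v1 (-(v1 * x0))) =
        MI (rhs a d) (X - C x0) 0 * MI (rhs a d) (X - C x2) (C y) := by
      have e2 : MI (rhs a d) (X - C x0) 0 =
          MI (rhs a d) (X - C x0) (C d * lin v1 (-(v1 * x0))) := by
        apply pair_congr _ _ _ _ (io _ (-(C d * C v1)))
        rw [← map_sub, ← map_mul, hl]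
        congr 1
        ring
      have e3 : MI (rhs a d) (X - C x2) (C y) =
          MI (rhs a d) (X - C x2) (C d * lin v1 (-(v1 * x0))) := by
        apply pair_congr _ _ _ _ (io _ (-(C d * C v1)))
        rw [← map_sub, ← map_mul, hl, hy]
        congr 1
        simp only [map_mul, map_sub]
        ring
      rw [e2, e3, MI, MI, MI, hu, map_mul]
      refine (pair_mul _ _ _ (io _ (C (1 / (x2 - x0)))) (io _ (-C (1 / (x2 - x0)))) ?_).symm
      rw [← map_mul, ← map_mul, ← map_add, ← map_one (io _)]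
      congr 1
      have e4 : (C (1 / (x2 - x0)) : K[X]) * (C x2 - C x0) = 1 := by
        rw [← C_sub, ← C_mul, ← C_1]
        congr 1
        field_simp
      linear_combination e4
    rw [e1, mul_pow]
    have hroot : ∃ W, rhs a d = 0 ^ 2 + (X - C x0) * W := by
      refine ⟨C d ^ 2 * C v1 ^ 2 * (X - C x0) + (X - C x2) * (C d * qw w2 w1 w0), ?_⟩
      rw [hg, hu, hl]
      ring
    obtain ⟨W, hW⟩ := hroot
    have e5 := MI_conj h2 hsq (X - C x0) 0 W hW
    rw [neg_zero, ← pow_two] at e5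
    rw [e5]
    refine ⟨io (rhs a d) (X - C x0), 1, ?_, ?_, ?_⟩
    · intro h0
      apply X_sub_C_ne_zero x0
      apply io_inj (g := rhs a d)
      rw [h0, map_zero]
    · intro h0
      have : (1 : K[X]) = 0 := by
        apply io_inj (g := rhs a d)
        rw [map_one, h0, map_zero]
      exact one_ne_zero this
    · rw [Ideal.span_singleton_one, ← Ideal.one_eq_top, one_mul]
  · rw [m3]
    have k1 : kc a d (qu (x0 + x2) (x0 * x2)) (C d * lin v1 (-(v1 * x0))) =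
        kv (x0 + x2) (x0 * x2) w2 w0 := kc_co hd _ _ _ _ _ _ _
    rw [k1]
    have hkum : kum a (kv (x0 + x2) (x0 * x2) w2 w0) = 0 := kum_co _ _ _ _ _ _ _ _
    have e : (![0, 1, x2, x2 ^ 2] : Fin 4 → K) = ![0, 1, x2 * 1, x2 ^ 2] := by rw [mul_one]
    have hx : x2 ^ 2 = x2 ^ 2 * 1 := by ring
    have key : ∀ i, (x2 - x0) ^ 2 * dup a (kv (x0 + x2) (x0 * x2) w2 w0) i =
        wx w2 w1 w0 x0 ^ 2 * dup a ![0, 1, x2, x2 ^ 2] i := by
      intro i
      fin_cases i
      · change (x2 - x0) ^ 2 * D0 a _ = wx w2 w1 w0 x0 ^ 2 * D0 a _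
        rw [e, D0_inf a x2 1 (x2 ^ 2) hx, hf, ha, D0_two]
        ring
      · change (x2 - x0) ^ 2 * D1 a _ = wx w2 w1 w0 x0 ^ 2 * D1 a _
        rw [e, D1_inf a x2 1 (x2 ^ 2) hx, hf, ha, D1_two]
        ring
      · change (x2 - x0) ^ 2 * D2 a _ = wx w2 w1 w0 x0 ^ 2 * D2 a _
        rw [e, D2_inf a x2 1 (x2 ^ 2) hx, hf, ha, D2_two]
        ring
      · change (x2 - x0) ^ 2 * D3 a _ = wx w2 w1 w0 x0 ^ 2 * D3 a _
        rw [e, D3_inf a x2 1 (x2 ^ 2) hx, ha, D3_two]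
        ring
    have hw : wx w2 w1 w0 x0 ≠ 0 := by
      intro h0
      have hne0 : kv (x0 + x2) (x0 * x2) w2 w0 ≠ 0 := by
        intro h1
        have := congrFun h1 0
        simp [kv] at this
      apply dup_ne' h2 hdis hkum hne0
      funext i
      have := key i
      rw [h0] at this
      have h3 : (x2 - x0) ^ 2 * dup a (kv (x0 + x2) (x0 * x2) w2 w0) i = 0 := by
        rw [this]
        ring
      exact (mul_eq_zero.1 h3).resolve_left (pow_ne_zero _ hne)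
    have h4 : (4 : K) ≠ 0 := by
      have : (4 : K) = 2 * 2 := by norm_num
      rw [this]
      exact mul_ne_zero h2 h2
    have hf0 : fv a x2 ≠ 0 := by
      rw [hf]
      exact mul_ne_zero (mul_ne_zero hd (pow_ne_zero _ hv)) (pow_ne_zero _ hne)
    refine ⟨(4 * fv a x2)⁻¹ * (x2 - x0) ^ 2 * (wx w2 w1 w0 x0 ^ 2)⁻¹, ?_, ?_⟩
    · exact mul_ne_zero (mul_ne_zero (inv_ne_zero (mul_ne_zero h4 hf0)) (pow_ne_zero _ hne))
        (inv_ne_zero (pow_ne_zero _ hw))
    · funext i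
      have := key i
      have e6 : dup a ![0, 1, x2, x2 ^ 2] i = (wx w2 w1 w0 x0 ^ 2)⁻¹ *
          ((x2 - x0) ^ 2 * dup a (kv (x0 + x2) (x0 * x2) w2 w0) i) := by
        rw [this]
        field_simp
      rw [e6]
      ring

/-- every pair has a double -/
theorem exists_dou (h2 : (2 : K) ≠ 0) (h5 : (5 : K) ≠ 0) {a : Fin 5 → K} {d : K} (hd : d ≠ 0)
    (hdis : dis a ≠ 0) {u V : K[X]} (h : Mum (rhs a d) u V) :
    ∃ u' V', Dou a d u V u' V' ∧ (V ≠ 0 → u'.natDegree ≠ 0) := by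
  by_cases hV0 : V = 0
  · subst hV0
    exact ⟨1, 0, dou_zero h2 h5 hd hdis h, fun h => absurd rfl h⟩
  rcases normal_form hd h with ⟨hu, hV⟩ | ⟨x, y, hu, hV, hy⟩ |
    ⟨s, q, v1, v0, w2, w1, w0, hu, hV, ha⟩
  · exact absurd hV hV0
  · have hy0 : y ≠ 0 := by
      rintro rfl
      apply hV0
      rw [hV, C_0]
    obtain ⟨m1, m2, m3⟩ := dou_one h2 hd hy0 hy (d * fd a x / (2 * y)) (by field_simp)
    refine ⟨_, _, ⟨m1, ?_, ?_⟩, fun _ => by rw [natDegree_qu]; norm_num⟩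
    · rw [m2, hu, hV]
      exact Same.refl _
    · rw [m3, hu, hV, kc_one]
      refine ⟨(4 * fv a x)⁻¹, inv_ne_zero (mul_ne_zero ?_ ?_), rfl⟩
      · have : (4 : K) = 2 * 2 := by norm_num
        rw [this]
        exact mul_ne_zero h2 h2
      · intro h0
        rw [h0, mul_zero] at hy
        exact hy0 (pow_eq_zero_iff (two_ne_zero) |>.1 hy)
  · by_cases hR : rv s q v1 v0 = 0
    · have hv1 : v1 ≠ 0 := by
        intro h0
        rw [h0] at hR
        have h1 : v0 ^ 2 = 0 := by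
          rw [← hR]
          simp only [rv]
          ring
        have h3 : v0 = 0 := pow_eq_zero_iff (two_ne_zero) |>.1 h1
        apply hV0
        rw [hV, h0, h3, lin]
        simp
      set x0 := -v0 / v1 with hx0
      have e1 : v0 = -(v1 * x0) := by
        rw [hx0]
        field_simp
      have e2 : q = x0 * (s - x0) := by
        have : v1 ^ 2 * (q - x0 * (s - x0)) = 0 := by
          rw [← hR, e1]
          simp only [rv]
          ring
        exact sub_eq_zero.1 ((mul_eq_zero.1 this).resolve_left (pow_ne_zero _ hv1))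
      have e3 : s = x0 + (s - x0) := by ring
      set x2 := s - x0 with hx2
      rw [e1, e2, e3] at ha
      obtain ⟨t, y, hD⟩ := dou_two h2 h5 d x0 x2 v1 w2 w1 w0 hd hv1 (by rw [← ha]; exact hdis)
      refine ⟨qu (2 * x2) (x2 ^ 2), lin t y, ?_, fun _ => ?_⟩
      · rw [hu, hV, e1, e2, e3, ha]
        exact hD
      · rw [natDegree_qu]
        norm_num
    · obtain ⟨l1, l0, e, g2, g1, g0⟩ := exists_l h2 s q v1 v0 w2 w1 w0 hR
      have ha' : a = cl d s q v1 v0 l1 l0 e := by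
        rw [ha, g2, g1, g0, cl]
      by_cases hl : l1 = 0
      · subst hl
        have := dou_deg d s q v1 v0 l0 e h2 hd hR ((l0 ^ 2 - d * e) / d) (by field_simp)
        rw [ha', hu, hV]
        exact ⟨_, _, this, fun _ => by rw [natDegree_X_sub_C]; norm_num⟩
      · have hl2 : l1 ^ 2 ≠ 0 := pow_ne_zero _ hl
        have := dou_gen d s q v1 v0 l1 l0 e h2 hd hR hl ((d - 2 * l1 * l0) / l1 ^ 2)
          ((l0 ^ 2 - d * e) / l1 ^ 2) _ _ _ (by field_simp) (by field_simp) rfl rfl rfl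
        rw [ha', hu, hV]
        exact ⟨_, _, this, fun _ => by rw [natDegree_qu]; norm_num⟩

end Run7.h929.G2
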