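import Pool.Agent.Run7.h929.G2.Basic

/-!
# The discriminant of a monic quintic
-/

set_option autoImplicit false

namespace Run7.h929.G2

open Polynomial

variable {R : Type*} [CommRing R] {S : Type*} [CommRing S]

/-- the monic quintic with the coefficients `a` -/
noncomputable def quin (a : Fin 5 → R) : R[X] :=
  X ^ 5 + C (a 4) * X ^ 4 + C (a 3) * X ^ 3 + C (a 2) * X ^ 2 + C (a 1) * X + C (a 0)

/-- the resultant of the quintic and its derivative -/
noncomputable def dis (a : Fin 5 → R) : R := resultant (quin a) (derivative (quin a)) 5 4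

theorem eval_quin (a : Fin 5 → R) (x : R) : eval x (quin a) = fv a x := by
  simp [quin, fv]

theorem eval_deriv (a : Fin 5 → R) (x : R) : eval x (derivative (quin a)) = fd a x := by
  simp [quin, fd]
  ring

theorem natDegree_quin [Nontrivial R] (a : Fin 5 → R) : (quin a).natDegree = 5 := by
  unfold quin
  compute_degree!

theorem monic_quin (a : Fin 5 → R) : (quin a).Monic := by
  unfold quin
  monicity!

theorem natDegree_deriv_le (a : Fin 5 → R) : (derivative (quin a)).natDegree ≤ 4 := by
  refine (natDegree_derivative_le _).trans ?_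
  rcases subsingleton_or_nontrivial R with h | h
  · have : quin a = 0 := Subsingleton.elim _ _
    rw [this]
    simp
  · rw [natDegree_quin]

theorem map_quin (φ : R →+* S) (a : Fin 5 → R) : (quin a).map φ = quin (fun i => φ (a i)) := by
  simp [quin]

theorem map_dis (φ : R →+* S) (a : Fin 5 → R) : φ (dis a) = dis (fun i => φ (a i)) := by
  rw [dis, dis, ← map_quin, derivative_map, resultant_map_map]

theorem discr_eq (a : Fin 5 → R) : discr (quin a) = dis a := by
  rcases subsingleton_or_nontrivial R with h | h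
  · exact Subsingleton.elim _ _
  have h1 := resultant_deriv (f := quin a) (by rw [← natDegree_pos_iff_degree_pos, natDegree_quin]; norm_num)
  rw [natDegree_quin, (monic_quin a).leadingCoeff] at h1
  norm_num at h1
  exact h1.symm

/-- a monic quartic -/
noncomputable def quar (b : Fin 4 → R) : R[X] :=
  X ^ 4 + C (b 3) * X ^ 3 + C (b 2) * X ^ 2 + C (b 1) * X + C (b 0)

/-- the coefficients of `(X - x) g` -/
def lq (x : R) (b : Fin 4 → R) : Fin 5 → R :=
  ![- x * b 0, b 0 - x * b 1, b 1 - x * b 2, b 2 - x * b 3, b 3 - x]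

theorem quin_lq (x : R) (b : Fin 4 → R) : quin (lq x b) = (X - C x) * quar b := by
  simp [quin, lq, quar]
  ring

theorem dis_lq_dom [IsDomain R] [CharZero R] (x : R) (b : Fin 4 → R) :
    ∃ t : R, dis (lq x b) = eval x (quar b) ^ 2 * t := by
  have hm : (quar b).Monic := by
    unfold quar
    monicity!
  have hd : (quar b).natDegree = 4 := by
    unfold quar
    compute_degree!
  have hd' : (derivative (quar b)).natDegree = 3 := by
    have : derivative (quar b) = C 4 * X ^ 3 + C (3 * b 3) * X ^ 2 + C (2 * b 2) * X + C (b 1) := by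
      have e4 : (C 4 : R[X]) = 4 := map_ofNat C 4
      have e3 : (C 3 : R[X]) = 3 := map_ofNat C 3
      have e2 : (C 2 : R[X]) = 2 := map_ofNat C 2
      simp only [quar, map_add, derivative_mul, derivative_X_pow, derivative_C, derivative_X,
        map_mul, e2, e3, e4]
      push_cast
      ring_nf
      rw [e2, e3, e4]
      ring
    rw [this]
    compute_degree!
  have hder : derivative ((X - C x) * quar b) = (X - C x) * derivative (quar b) + quar b * 1 := by
    simp
    ring
  refine ⟨resultant (quar b) (derivative (quar b)) 4 3, ?_⟩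
  have h1 := resultant_mul_left (X - C x) (quar b) (derivative ((X - C x) * quar b)) 4 (by
    rw [← quin_lq]; exact natDegree_deriv_le _)
  rw [natDegree_X_sub_C, hd] at h1
  rw [dis, quin_lq, show 5 = 1 + 4 from rfl, h1, resultant_X_sub_C_left _ _ _ (by
    rw [← quin_lq]; exact natDegree_deriv_le _)]
  have h2 : eval x (derivative ((X - C x) * quar b)) = eval x (quar b) := by
    rw [hder]
    simp
  rw [h2, hder, resultant_add_mul_right _ _ _ _ _ (by simp) hd.le]
  have h3 := resultant_mul_right (quar b) (X - C x) (derivative (quar b)) 4 hd.le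
  rw [natDegree_X_sub_C, hd'] at h3
  rw [show (4 : ℕ) = 1 + 3 from rfl] at h3 ⊢
  rw [h3, show (1 : ℕ) + 3 = 4 from rfl, resultant_X_sub_C_right _ _ _ hd.le]
  ring

theorem dis_lq (x : R) (b : Fin 4 → R) : ∃ t : R, dis (lq x b) = eval x (quar b) ^ 2 * t := by
  obtain ⟨t, ht⟩ := dis_lq_dom (R := MvPolynomial (Fin 5) ℤ) (MvPolynomial.X 4)
    (fun i => MvPolynomial.X i.castSucc)
  let φ : MvPolynomial (Fin 5) ℤ →+* R :=
    MvPolynomial.eval₂Hom (Int.castRingHom R) (Fin.snoc b x : Fin 5 → R)
  have hb : ∀ i : Fin 4, φ (MvPolynomial.X i.castSucc) = b i := by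
    intro i
    simp [φ]
  have hx : φ (MvPolynomial.X 4) = x := by
    simp only [φ, MvPolynomial.coe_eval₂Hom, MvPolynomial.eval₂_X]
    exact Fin.snoc_last (α := fun _ => R) x b
  refine ⟨φ t, ?_⟩
  have h := congrArg φ ht
  rw [map_dis, map_mul, map_pow] at h
  have e1 : (fun i => φ (lq (MvPolynomial.X 4) (fun i : Fin 4 => MvPolynomial.X i.castSucc) i)) =
      lq x b := by
    funext i
    fin_cases i <;> simp [lq, ← hb, ← hx]
  have e2 : φ (eval (MvPolynomial.X 4) (quar fun i : Fin 4 => MvPolynomial.X i.castSucc)) =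
      eval x (quar b) := by
    simp [quar, ← hb, ← hx]
  rw [e1, e2] at h
  exact h

/-- the discriminant is divisible by the square of the derivative at a root -/
theorem dis_root (a : Fin 5 → R) (x : R) (h : fv a x = 0) : ∃ t : R, dis a = fd a x ^ 2 * t := by
  let b : Fin 4 → R := ![a 1 + x * (a 2 + x * (a 3 + x * (a 4 + x))),
    a 2 + x * (a 3 + x * (a 4 + x)), a 3 + x * (a 4 + x), a 4 + x]
  have e : lq x b = a := by
    funext i
    fin_cases i
    · simp only [lq, b, Fin.zero_eta, Matrix.cons_val_zero]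
      have : a 0 = - (x ^ 5 + a 4 * x ^ 4 + a 3 * x ^ 3 + a 2 * x ^ 2 + a 1 * x) := by
        unfold fv at h
        linear_combination h
      rw [this]
      ring
    · simp [lq, b]
    · simp [lq, b]
    · simp [lq, b]
    · simp [lq, b]
  obtain ⟨t, ht⟩ := dis_lq x b
  refine ⟨t, ?_⟩
  rw [e] at ht
  rw [ht]
  congr 2
  simp [quar, b, fd]
  ring

theorem dis_congr (I : Ideal R) (a b : Fin 5 → R) (h : ∀ i, a i - b i ∈ I) : dis a - dis b ∈ I := by
  rw [← Ideal.Quotient.eq, map_dis, map_dis]
  congr 1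
  funext i
  exact (Ideal.Quotient.eq).2 (h i)

/-- the discriminant is a combination of `f(x)` and `f'(x)²` -/
theorem dis_comb (a : Fin 5 → R) (x : R) : ∃ A B : R, dis a = A * fv a x + B * fd a x ^ 2 := by
  let a' : Fin 5 → R := ![a 0 - fv a x, a 1, a 2, a 3, a 4]
  have h0 : fv a' x = 0 := by
    simp [fv, a']
  have h1 : fd a' x = fd a x := by
    simp [fd, a']
  obtain ⟨t, ht⟩ := dis_root a' x h0
  have h2 := dis_congr (Ideal.span {fv a x}) a a' (by
    intro i
    fin_cases i
    · simp only [a', Fin.zero_eta, Matrix.cons_val_zero, sub_sub_cancel]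
      exact Ideal.mem_span_singleton_self _
    all_goals simp [a'])
  obtain ⟨A, hA⟩ := Ideal.mem_span_singleton'.1 h2
  refine ⟨A, t, ?_⟩
  rw [h1] at ht
  linear_combination -hA + ht

/-- the monic quadratic polynomial -/
noncomputable def qu (s q : R) : R[X] := X ^ 2 - C s * X + C q
/-- the monic cubic polynomial -/
noncomputable def qw (w2 w1 w0 : R) : R[X] := X ^ 3 + C w2 * X ^ 2 + C w1 * X + C w0

theorem natDegree_qu [Nontrivial R] (s q : R) : (qu s q).natDegree = 2 := by
  unfold qu
  compute_degree!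

theorem natDegree_qu_le (s q : R) : (qu s q).natDegree ≤ 2 := by
  unfold qu
  compute_degree

theorem natDegree_qw [Nontrivial R] (w2 w1 w0 : R) : (qw w2 w1 w0).natDegree = 3 := by
  unfold qw
  compute_degree!

theorem quin_uw (s q w2 w1 w0 : R) : quin (co 0 s q 0 0 w2 w1 w0) = qu s q * qw w2 w1 w0 := by
  simp [quin, co, qu, qw]
  ring

theorem res_lin (s q A B : R) : resultant (qu s q) (C A * X + C B) 2 1 =
    B ^ 2 + s * A * B + q * A ^ 2 := by
  rw [resultant, Matrix.det_fin_three]
  simp [sylvester, qu, Fin.addCases, coeff_X, coeff_C]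
  ring

theorem res_uw (s q w2 w1 w0 : R) : resultant (qu s q) (qw w2 w1 w0) 2 3 =
    rw' s q w2 w1 w0 := by
  rcases subsingleton_or_nontrivial R with h | h
  · exact Subsingleton.elim _ _
  have e : qw w2 w1 w0 = (C (Wa s q w2 w1) * X + C (Wb s q w2 w0)) + qu s q * (X + C (w2 + s)) := by
    simp [qw, qu, Wa, Wb]
    ring
  have hu : (qu s q).natDegree ≤ 2 := (natDegree_qu s q).le
  rw [e, resultant_add_mul_right _ _ _ _ _ (by rw [natDegree_X_add_C]) hu,
    show 3 = 1 + 2 from rfl, resultant_add_right_deg _ _ _ _ _ (by compute_degree), res_lin]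
  have : (qu s q).coeff 2 = 1 := by
    simp [qu]
  rw [this, rw']
  ring

theorem dis_uw_dom [IsDomain R] [CharZero R] (s q w2 w1 w0 : R) :
    ∃ t : R, dis (co 0 s q 0 0 w2 w1 w0) = rw' s q w2 w1 w0 ^ 2 * t := by
  have hu := natDegree_qu s q
  have hw := natDegree_qw w2 w1 w0
  have hu' : (derivative (qu s q)).natDegree = 1 := by
    have : derivative (qu s q) = C 2 * X + C (-s) := by
      have e2 : (C 2 : R[X]) = 2 := map_ofNat C 2
      simp [qu, e2]
      ring
    rw [this]
    compute_degree!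
  have hw' : (derivative (qw w2 w1 w0)).natDegree = 2 := by
    have : derivative (qw w2 w1 w0) = C 3 * X ^ 2 + C (2 * w2) * X + C w1 := by
      have e3 : (C 3 : R[X]) = 3 := map_ofNat C 3
      have e2 : (C 2 : R[X]) = 2 := map_ofNat C 2
      simp only [qw, map_add, derivative_mul, derivative_X_pow, derivative_C, derivative_X,
        map_mul, e2, e3]
      push_cast
      ring_nf
      rw [e2, e3]
      ring
    rw [this]
    compute_degree!
  refine ⟨resultant (qu s q) (derivative (qu s q)) 2 1 *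
    resultant (qw w2 w1 w0) (derivative (qw w2 w1 w0)) 3 2, ?_⟩
  have hd := natDegree_deriv_le (co 0 s q 0 0 w2 w1 w0)
  rw [quin_uw] at hd
  have h1 := resultant_mul_left (qu s q) (qw w2 w1 w0) _ 4 hd
  rw [hu, hw] at h1
  rw [dis, quin_uw, show 5 = 2 + 3 from rfl, h1]
  have e1 : derivative (qu s q * qw w2 w1 w0) =
      derivative (qu s q) * qw w2 w1 w0 + qu s q * derivative (qw w2 w1 w0) := by
    simp
  have e2 : derivative (qu s q * qw w2 w1 w0) =
      qu s q * derivative (qw w2 w1 w0) + qw w2 w1 w0 * derivative (qu s q) := by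
    simp
    ring
  have h2 : resultant (qu s q) (derivative (qu s q * qw w2 w1 w0)) 2 4 =
      resultant (qu s q) (derivative (qu s q)) 2 1 * rw' s q w2 w1 w0 := by
    rw [e1, resultant_add_mul_right _ _ _ _ _ (by rw [hw']) hu.le]
    have h3 := resultant_mul_right (qu s q) (derivative (qu s q)) (qw w2 w1 w0) 2 hu.le
    rw [hu', hw] at h3
    rw [show (4 : ℕ) = 1 + 3 from rfl, h3, res_uw]
  have h4 : resultant (qw w2 w1 w0) (derivative (qu s q * qw w2 w1 w0)) 3 4 =
      rw' s q w2 w1 w0 * resultant (qw w2 w1 w0) (derivative (qw w2 w1 w0)) 3 2 := by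
    rw [e2, resultant_add_mul_right _ _ _ _ _ (by rw [hu']) hw.le]
    have h3 := resultant_mul_right (qw w2 w1 w0) (qu s q) (derivative (qw w2 w1 w0)) 3 hw.le
    rw [hu, hw'] at h3
    rw [show (4 : ℕ) = 2 + 2 from rfl, h3, resultant_comm (qw w2 w1 w0) (qu s q), res_uw]
    ring
  rw [h2, h4]
  ring

theorem co_map (φ : R →+* S) (d s q v1 v0 w2 w1 w0 : R) :
    (fun i => φ (co d s q v1 v0 w2 w1 w0 i)) =
      co (φ d) (φ s) (φ q) (φ v1) (φ v0) (φ w2) (φ w1) (φ w0) := by
  funext i
  fin_cases i <;> simp [co, map_ofNat]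

theorem kv_map (φ : R →+* S) (s q w2 w0 : R) :
    (fun i => φ (kv s q w2 w0 i)) = kv (φ s) (φ q) (φ w2) (φ w0) := by
  funext i
  fin_cases i <;> simp [kv]

theorem rw_map (φ : R →+* S) (s q w2 w1 w0 : R) :
    φ (rw' s q w2 w1 w0) = rw' (φ s) (φ q) (φ w2) (φ w1) (φ w0) := by
  simp [rw', Wa, Wb]

/-- the discriminant of `u w` is divisible by the square of the resultant -/
theorem dis_uw (s q w2 w1 w0 : R) :
    ∃ t : R, dis (co 0 s q 0 0 w2 w1 w0) = rw' s q w2 w1 w0 ^ 2 * t := by
  obtain ⟨t, ht⟩ := dis_uw_dom (R := MvPolynomial (Fin 5) ℤ) (MvPolynomial.X 0) (MvPolynomial.X 1)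
    (MvPolynomial.X 2) (MvPolynomial.X 3) (MvPolynomial.X 4)
  let φ : MvPolynomial (Fin 5) ℤ →+* R :=
    MvPolynomial.eval₂Hom (Int.castRingHom R) ![s, q, w2, w1, w0]
  refine ⟨φ t, ?_⟩
  have h := congrArg φ ht
  rw [map_dis, map_mul, map_pow, co_map, rw_map] at h
  simpa [φ] using h

theorem dis_uw' (s q v1 v0 w2 w1 w0 : R) :
    ∃ t : R, dis (co 0 s q v1 v0 w2 w1 w0) = rw' s q w2 w1 w0 ^ 2 * t := by
  have : co 0 s q v1 v0 w2 w1 w0 = co 0 s q 0 0 w2 w1 w0 := by
    funext i
    fin_cases i <;> simp [co]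
  rw [this]
  exact dis_uw s q w2 w1 w0

theorem coeff_quin (a : Fin 5 → R) (i : Fin 5) : (quin a).coeff i = a i := by
  fin_cases i <;> simp [quin, coeff_X, coeff_C]

theorem coeff_quin_five (a : Fin 5 → R) : (quin a).coeff 5 = 1 := by
  simp [quin]

/-- homogeneity of the discriminant -/
theorem dis_scale [IsDomain R] [CharZero R] (a : Fin 5 → R) (t : R) :
    dis (fun i => t ^ (5 - (i : ℕ)) * a i) = t ^ 20 * dis a := by
  have e1 : quin (fun i => t ^ (5 - (i : ℕ)) * a i) = (quin a).scaleRoots t := by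
    ext n
    rw [coeff_scaleRoots, natDegree_quin]
    by_cases hn : n ≤ 5
    · rcases Nat.lt_or_ge n 5 with h5 | h5
      · have h1 := coeff_quin (fun i : Fin 5 => t ^ (5 - (i : ℕ)) * a i) ⟨n, h5⟩
        have h2 := coeff_quin a ⟨n, h5⟩
        simp only at h1 h2
        rw [h1, h2]
        ring
      · obtain rfl : n = 5 := by omega
        rw [coeff_quin_five, coeff_quin_five]
        simp
    · have h1 : (quin a).coeff n = 0 := coeff_eq_zero_of_natDegree_lt (by rw [natDegree_quin]; omega)
      have h2 : (quin (fun i : Fin 5 => t ^ (5 - (i : ℕ)) * a i)).coeff n = 0 :=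
        coeff_eq_zero_of_natDegree_lt (by rw [natDegree_quin]; omega)
      rw [h1, h2, zero_mul]
  have hd : (derivative (quin a)).natDegree = 4 := by
    apply le_antisymm (natDegree_deriv_le a)
    apply le_natDegree_of_ne_zero
    rw [coeff_derivative]
    have : (quin a).coeff (4 + 1) = 1 := coeff_quin_five a
    rw [this]
    norm_num
  have e2 : derivative ((quin a).scaleRoots t) = (derivative (quin a)).scaleRoots t := by
    ext n
    rw [coeff_scaleRoots, hd, coeff_derivative, coeff_scaleRoots, natDegree_quin, coeff_derivative,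
      show 5 - (n + 1) = 4 - n by omega]
    ring
  have h := resultant_scaleRoots (quin a) (derivative (quin a)) t
  rw [natDegree_scaleRoots, natDegree_scaleRoots, natDegree_quin, hd] at h
  rw [dis, e1, e2, h, dis]

end Run7.h929.G2
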