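import Pool.Agent.Run7.h929.G2.Place

/-!
# Facts on the finite places of a number field
-/

set_option autoImplicit false

namespace Run7.h929.G2

open NumberField IsDedekindDomain

variable {K : Type} [Field K] [NumberField K]

/-- the number of elements of the residue field -/
noncomputable def qq (v : FinitePlace K) : ℝ := (Ideal.absNorm v.maximalIdeal.asIdeal : ℝ)

theorem one_lt_qq (v : FinitePlace K) : 1 < qq v := by
  have := HeightOneSpectrum.one_lt_absNorm v.maximalIdeal
  change (1 : ℝ) < ((Ideal.absNorm v.maximalIdeal.asIdeal : ℕ) : ℝ)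
  exact_mod_cast this

theorem fin_nonarch (v : FinitePlace K) : IsNonarchimedean v.val := fun x y => v.add_le x y

theorem fin_int (v : FinitePlace K) (x : 𝓞 K) : v (x : K) ≤ 1 := by
  rw [← v.norm_embedding_eq]
  exact FinitePlace.norm_le_one K _ x

theorem fin_pow (v : FinitePlace K) (x : 𝓞 K) (hx : x ≠ 0) : ∃ n : ℕ, v (x : K) = (qq v ^ n)⁻¹ ∧
    v.maximalIdeal.asIdeal ^ n ∣ Ideal.span {x} := by
  have h := v.apply_mul_absNorm_pow_eq_one hx
  refine ⟨multiplicity v.maximalIdeal.asIdeal (Ideal.span {x}), ?_, pow_multiplicity_dvd _ _⟩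
  have h0 : (0 : ℝ) < qq v := by linarith [one_lt_qq v]
  exact eq_inv_of_mul_eq_one_left h

theorem fin_sq (v : FinitePlace K) (x : 𝓞 K) (hx : x ≠ 0) (h : x ∉ v.maximalIdeal.asIdeal ^ 2) :
    (qq v)⁻¹ ≤ v (x : K) := by
  obtain ⟨n, hn, hd⟩ := fin_pow v x hx
  have h1 : n ≤ 1 := by
    by_contra h2
    push Not at h2
    apply h
    rw [← Ideal.dvd_span_singleton]
    exact (pow_dvd_pow _ h2).trans hd
  have h0 : (0 : ℝ) < qq v := by linarith [one_lt_qq v]
  rw [hn]
  apply inv_anti₀ (pow_pos h0 _)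
  calc qq v ^ n ≤ qq v ^ 1 := pow_le_pow_right₀ (one_lt_qq v).le h1
    _ = qq v := pow_one _

theorem fin_discrete (v : FinitePlace K) : Discrete v.val (qq v) where
  one_lt := one_lt_qq v
  val := by
    intro x hx
    obtain ⟨a, b, hb, rfl⟩ := IsFractionRing.div_surjective (A := 𝓞 K) x
    have hb0 : b ≠ 0 := nonZeroDivisors.ne_zero hb
    have ha0 : a ≠ 0 := by
      rintro rfl
      simp at hx
    obtain ⟨n, hn, -⟩ := fin_pow v a ha0
    obtain ⟨m, hm, -⟩ := fin_pow v b hb0
    have h0 : qq v ≠ 0 := by linarith [one_lt_qq v]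
    refine ⟨(m : ℤ) - n, ?_⟩
    change v (algebraMap (𝓞 K) K a / algebraMap (𝓞 K) K b) = _
    rw [map_div₀]
    change v (a : K) / v (b : K) = _
    rw [hn, hm, zpow_sub₀ h0, zpow_natCast, zpow_natCast, inv_div_inv]
  uni := by
    obtain ⟨p, hp⟩ := v.maximalIdeal.valuation_exists_uniformizer K
    refine ⟨p, ?_⟩
    change v p = _
    rw [← v.norm_embedding_eq, FinitePlace.norm_embedding', hp,
      WithZeroMulInt.toNNReal_neg_apply _ (by simp)]
    change ((Ideal.absNorm v.maximalIdeal.asIdeal : NNReal) ^ (-1 : ℤ) : NNReal) = (qq v)⁻¹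
    rw [zpow_neg_one]
    simp [qq]

theorem fin_iSup (v : FinitePlace K) (k : Fin 4 → K) : (⨆ i, v (k i)) = ⨆ i, v.val (k i) := rfl

theorem fin_supp (k : Fin 4 → K) (hk : k ≠ 0) :
    (fun v : FinitePlace K => ⨆ i, v (k i)).HasFiniteMulSupport := by
  have : Nonempty {j // k j ≠ 0} := nonempty_subtype.mpr (Function.ne_iff.mp hk)
  have h1 : (fun v : FinitePlace K => ⨆ i, v (k i)) =
      fun v : FinitePlace K => ⨆ i : {j // k j ≠ 0}, v (k i) := by
    funext v
    exact Finite.iSup_eq_iSup_subtype hk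
  rw [h1]
  exact Function.HasFiniteMulSupport.iSup fun i => FinitePlace.hasFiniteMulSupport i.2

theorem fin_ite [DecidableEq (FinitePlace K)] (S : Finset (FinitePlace K)) (f : FinitePlace K → ℝ) :
    (fun v => if v ∈ S then f v else 1).HasFiniteMulSupport ∧
    ∏ᶠ v, (if v ∈ S then f v else 1) = ∏ v ∈ S, f v := by
  have h1 : Function.mulSupport (fun v => if v ∈ S then f v else 1) ⊆ S := by
    intro v hv
    by_contra h2
    apply hv
    exact if_neg h2
  refine ⟨S.finite_toSet.subset h1, ?_⟩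
  rw [finprod_eq_finsetProd_of_mulSupport_subset _ h1]
  exact Finset.prod_congr rfl fun v hv => if_pos hv

end Run7.h929.G2
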