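import Pool.Agent.Run7.h929.G2.Fin

/-!
# The duplication map and the heights
-/

set_option autoImplicit false

namespace Run7.h929.G2

open NumberField IsDedekindDomain

variable {K : Type} [Field K] [NumberField K]

/-- the weighted height -/
noncomputable def Hw (H : InfinitePlace K → ℝ) (k : Fin 4 → K) : ℝ :=
  (∏ v : InfinitePlace K, (wn (H v) fun i => v.embedding (k i)) ^ v.mult) *
    ∏ᶠ v : FinitePlace K, ⨆ i, v (k i)

/-- the places at which nothing is lost -/
def Good (a : Fin 5 → K) (d : K) (v : FinitePlace K) : Prop :=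
  v 2 = 1 ∧ (qq v)⁻¹ ≤ v (dis a) ∧ ((∃ z, v d = v z ^ 2) ∨ v (dis a) = 1)

section
variable {H : InfinitePlace K → ℝ}

omit [NumberField K] in
theorem emb_ne {k : Fin 4 → K} (hk : k ≠ 0) (v : InfinitePlace K) :
    (fun i => v.embedding (k i)) ≠ 0 := by
  obtain ⟨i, hi⟩ := Function.ne_iff.1 hk
  intro h
  have := congrFun h i
  exact hi ((map_eq_zero v.embedding).1 this)

theorem fin_iSup_pos {k : Fin 4 → K} (hk : k ≠ 0) (v : FinitePlace K) : 0 < ⨆ i, v (k i) := by
  obtain ⟨i, hi⟩ := Function.ne_iff.1 hk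
  exact (FinitePlace.pos_iff.2 hi).trans_le (le_sup4 (fun i => v (k i)) i)

theorem fin_prod_pos {k : Fin 4 → K} (hk : k ≠ 0) : 0 < ∏ᶠ v : FinitePlace K, ⨆ i, v (k i) :=
  finprod_induction (fun x => 0 < x) zero_lt_one (fun _ _ => mul_pos) fun v => fin_iSup_pos hk v

theorem Hw_pos (hH : ∀ v, 0 < H v) {k : Fin 4 → K} (hk : k ≠ 0) : 0 < Hw H k :=
  mul_pos (Finset.prod_pos fun v _ => pow_pos (wn_pos (hH v) _ (emb_ne hk v)) _)
    (fin_prod_pos hk)

theorem wn_smul (h : ℝ) (c : ℂ) (k : Fin 4 → ℂ) : wn h (fun i => c * k i) = ‖c‖ * wn h k := by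
  rw [wn, wn, ← sup4_mul _ _ (norm_nonneg _)]
  congr 1
  funext i
  rw [norm_mul]
  ring

theorem Hw_smul {c : K} (hc : c ≠ 0) {k : Fin 4 → K} (hk : k ≠ 0) :
    Hw H (fun i => c * k i) = Hw H k := by
  have h1 : ∀ v : InfinitePlace K, wn (H v) (fun i => v.embedding (c * k i)) =
      v c * wn (H v) (fun i => v.embedding (k i)) := by
    intro v
    rw [← InfinitePlace.norm_embedding_eq, ← wn_smul]
    simp only [map_mul]
  have h2 : ∀ v : FinitePlace K, (⨆ i, v (c * k i)) = v c * ⨆ i, v (k i) := by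
    intro v
    rw [← sup4_mul _ _ (apply_nonneg v c)]
    simp only [map_mul]
  rw [Hw, Hw]
  simp only [h1, h2, mul_pow, Finset.prod_mul_distrib]
  rw [finprod_mul_distrib (FinitePlace.hasFiniteMulSupport hc) (fin_supp k hk)]
  have h3 := prod_abs_eq_one hc
  calc _ = ((∏ w : InfinitePlace K, w c ^ w.mult) * ∏ᶠ w : FinitePlace K, w c) *
      ((∏ v : InfinitePlace K, (wn (H v) fun i => v.embedding (k i)) ^ v.mult) *
        ∏ᶠ v : FinitePlace K, ⨆ i, v (k i)) := by ring
    _ = _ := by rw [h3, one_mul]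

theorem Hw_le (hH : ∀ v, 1 ≤ H v) {k : Fin 4 → K} (hk : k ≠ 0) :
    Hw H k ≤ Height.mulHeight k * ∏ v : InfinitePlace K, (H v ^ 3) ^ v.mult := by
  rw [mulHeight_eq hk, Hw, mul_right_comm, ← Finset.prod_mul_distrib]
  apply mul_le_mul_of_nonneg_right _ (fin_prod_pos hk).le
  apply Finset.prod_le_prod
  · intro v _
    exact pow_nonneg (wn_nonneg (by linarith [hH v]) _) _
  · intro v _
    rw [← mul_pow]
    apply pow_le_pow_left₀ (wn_nonneg (by linarith [hH v]) _)
    refine sup4_le _ _ fun i => ?_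
    rw [InfinitePlace.norm_embedding_eq]
    apply mul_le_mul (le_sup4 (fun i => v (k i)) i) (pow_le_pow_right₀ (hH v) (by omega))
      (by have := hH v; positivity) ((apply_nonneg v (k 0)).trans (le_sup4 (fun i => v (k i)) 0))

theorem le_Hw (hH : ∀ v, 1 ≤ H v) {k : Fin 4 → K} (hk : k ≠ 0) :
    Height.mulHeight k ≤ Hw H k := by
  rw [mulHeight_eq hk, Hw]
  apply mul_le_mul_of_nonneg_right _ (fin_prod_pos hk).le
  apply Finset.prod_le_prod
  · intro v _
    exact pow_nonneg ((apply_nonneg v (k 0)).trans (le_sup4 (fun i => v (k i)) 0)) _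
  · intro v _
    apply pow_le_pow_left₀ ((apply_nonneg v (k 0)).trans (le_sup4 (fun i => v (k i)) 0))
    refine sup4_le _ _ fun i => ?_
    refine le_trans ?_ (le_sup4 (fun i : Fin 4 => ‖v.embedding (k i)‖ * H v ^ (3 - (i : ℕ))) i)
    rw [InfinitePlace.norm_embedding_eq]
    exact le_mul_of_one_le_right (apply_nonneg v _) (one_le_pow₀ (hH v))

end

/-- the constant at the infinite places -/
noncomputable def CC : ℝ := arch_bound.choose

theorem one_le_CC : 1 ≤ CC := arch_bound.choose_spec.1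

theorem CC_spec (a : Fin 5 → ℂ) (k : Fin 4 → ℂ) (h : ℝ) (hh : 0 < h)
    (ha : ∀ i : Fin 5, ‖a i‖ ≤ h ^ (5 - (i : ℕ))) (hk : k ≠ 0) (hkum : kum a k = 0) :
    wn h (dup a k) ≤ CC * wn h k ^ 4 ∧ (‖dis a‖ / h ^ 20) ^ NN ≤ CC ∧
      (‖dis a‖ / h ^ 20) ^ NN * wn h k ^ 4 ≤ CC * wn h (dup a k) :=
  arch_bound.choose_spec.2 a k h hh ha hk hkum

/-- the loss in one duplication -/
noncomputable def loss (a : Fin 5 → K) (H : InfinitePlace K → ℝ) (S : Finset (FinitePlace K)) : ℝ :=
  (∏ v : InfinitePlace K, (CC⁻¹ * (v (dis a) / H v ^ 20) ^ NN) ^ v.mult) *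
    ∏ v ∈ S, v (2 * dis a) ^ NN

section
variable {H : InfinitePlace K → ℝ}

theorem dup_ne {a : Fin 5 → K} {k : Fin 4 → K} (hdis : dis a ≠ 0) (hkum : kum a k = 0)
    (hk : k ≠ 0) : dup a k ≠ 0 := by
  intro h
  obtain ⟨j, hj⟩ := Function.ne_iff.1 hk
  have h1 := cc_spec a k hkum j
  rw [h] at h1
  simp only [Pi.zero_apply, mul_zero, Finset.sum_const_zero] at h1
  exact pow_ne_zero _ (mul_ne_zero (mul_ne_zero two_ne_zero hdis) hj) h1

omit [NumberField K] in
theorem emb_dup (a : Fin 5 → K) (k : Fin 4 → K) (v : InfinitePlace K) :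
    (fun i => v.embedding (dup a k i)) =
      dup (fun i => v.embedding (a i)) (fun i => v.embedding (k i)) := by
  funext i
  exact map_dup v.embedding a k i

omit [NumberField K] in
theorem emb_kum {a : Fin 5 → K} {k : Fin 4 → K} (hk : kum a k = 0) (v : InfinitePlace K) :
    kum (fun i => v.embedding (a i)) (fun i => v.embedding (k i)) = 0 := by
  rw [← map_kum, hk, map_zero]

theorem step_low (hH : ∀ v, 1 ≤ H v) (a : Fin 5 → K) (ha : ∀ (v : FinitePlace K) i, v (a i) ≤ 1)
    (haH : ∀ (v : InfinitePlace K) (i : Fin 5), v (a i) ≤ H v ^ (5 - (i : ℕ)))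
    (hdis : dis a ≠ 0) {d : K} (hd : d ≠ 0) (S : Finset (FinitePlace K))
    (hS : ∀ v ∉ S, Good a d v) {k : Fin 4 → K} (hk : Rep a d k) :
    loss a H S * Hw H k ^ 4 ≤ Hw H (dup a k) := by
  classical
  have hk0 := hk.ne_zero
  have hkum := hk.kum_eq
  have hdup := dup_ne hdis hkum hk0
  obtain ⟨s1, s2⟩ := fin_ite S fun v => v (2 * dis a) ^ NN
  have s3 : (fun v : FinitePlace K => (⨆ i, v (k i)) ^ 4).HasFiniteMulSupport :=
    (fin_supp k hk0).pow 4
  have e : loss a H S * Hw H k ^ 4 =
      (∏ v : InfinitePlace K, ((CC⁻¹ * (v (dis a) / H v ^ 20) ^ NN) *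
        (wn (H v) fun i => v.embedding (k i)) ^ 4) ^ v.mult) *
      ∏ᶠ v : FinitePlace K, (if v ∈ S then v (2 * dis a) ^ NN else 1) * (⨆ i, v (k i)) ^ 4 := by
    rw [finprod_mul_distrib s1 s3, s2, ← finprod_pow (fin_supp k hk0)]
    simp only [mul_pow, Finset.prod_mul_distrib]
    rw [loss, Hw]
    simp only [mul_pow, Finset.prod_mul_distrib]
    have : ∀ v : InfinitePlace K, ((wn (H v) fun i => v.embedding (k i)) ^ 4) ^ v.mult =
      ((wn (H v) fun i => v.embedding (k i)) ^ v.mult) ^ 4 := fun v => by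
        rw [← pow_mul, ← pow_mul, mul_comm]
    simp only [this, Finset.prod_pow]
    ring
  rw [e]
  apply mul_le_mul
  · apply Finset.prod_le_prod
    · intro v _
      have := wn_nonneg (h := H v) (by linarith [hH v]) fun i => v.embedding (k i)
      have := one_le_CC
      have := hH v
      positivity
    · intro v _
      apply pow_le_pow_left₀
      · have := wn_nonneg (h := H v) (by linarith [hH v]) fun i => v.embedding (k i)
        have := one_le_CC
        have := hH v
        positivity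
      · obtain ⟨-, -, h3⟩ := CC_spec (fun i => v.embedding (a i)) (fun i => v.embedding (k i)) (H v)
          (by linarith [hH v]) (fun i => by
            rw [InfinitePlace.norm_embedding_eq]
            exact haH v i) (emb_ne hk0 v) (emb_kum hkum v)
        rw [emb_dup, mul_assoc, inv_mul_le_iff₀ (by linarith [one_le_CC])]
        rw [← map_dis, InfinitePlace.norm_embedding_eq] at h3
        exact h3
  · apply finprod_le_finprod
    · exact s1.mul s3
    · intro v
      have : 0 ≤ ⨆ i, v (k i) := (fin_iSup_pos hk0 v).le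
      split_ifs
      · positivity
      · positivity
    · exact fin_supp _ hdup
    · intro v
      simp only
      split_ifs with hv
      · exact fin_bad (v := v.val) (fin_nonarch v) a (ha v) k hkum hk0
      · rw [one_mul]
        obtain ⟨g1, g2, g3⟩ := hS v hv
        exact fin_good (v := v.val) (fin_nonarch v) (fin_discrete v) g1 a (ha v) g2 d hd k hk g3
  · apply finprod_nonneg
    intro v
    have : 0 ≤ ⨆ i, v (k i) := (fin_iSup_pos hk0 v).le
    split_ifs
    · positivity
    · positivity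
  · apply Finset.prod_nonneg
    intro v _
    exact pow_nonneg (wn_nonneg (by linarith [hH v]) _) _

theorem step_up (hH : ∀ v, 1 ≤ H v) (a : Fin 5 → K) (ha : ∀ (v : FinitePlace K) i, v (a i) ≤ 1)
    (haH : ∀ (v : InfinitePlace K) (i : Fin 5), v (a i) ≤ H v ^ (5 - (i : ℕ)))
    (hdis : dis a ≠ 0) {k : Fin 4 → K} (hk0 : k ≠ 0) (hkum : kum a k = 0) :
    Hw H (dup a k) ≤ (∏ v : InfinitePlace K, CC ^ v.mult) * Hw H k ^ 4 := by
  have hdup := dup_ne hdis hkum hk0
  have s3 : (fun v : FinitePlace K => (⨆ i, v (k i)) ^ 4).HasFiniteMulSupport :=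
    (fin_supp k hk0).pow 4
  have e : (∏ v : InfinitePlace K, CC ^ v.mult) * Hw H k ^ 4 =
      (∏ v : InfinitePlace K, (CC * (wn (H v) fun i => v.embedding (k i)) ^ 4) ^ v.mult) *
      ∏ᶠ v : FinitePlace K, (⨆ i, v (k i)) ^ 4 := by
    rw [← finprod_pow (fin_supp k hk0), Hw]
    simp only [mul_pow, Finset.prod_mul_distrib]
    have : ∀ v : InfinitePlace K, ((wn (H v) fun i => v.embedding (k i)) ^ 4) ^ v.mult =
      ((wn (H v) fun i => v.embedding (k i)) ^ v.mult) ^ 4 := fun v => by
        rw [← pow_mul, ← pow_mul, mul_comm]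
    simp only [this, Finset.prod_pow]
    ring
  rw [e, Hw]
  apply mul_le_mul
  · apply Finset.prod_le_prod
    · intro v _
      exact pow_nonneg (wn_nonneg (by linarith [hH v]) _) _
    · intro v _
      apply pow_le_pow_left₀ (wn_nonneg (by linarith [hH v]) _)
      obtain ⟨h3, -, -⟩ := CC_spec (fun i => v.embedding (a i)) (fun i => v.embedding (k i)) (H v)
        (by linarith [hH v]) (fun i => by
          rw [InfinitePlace.norm_embedding_eq]
          exact haH v i) (emb_ne hk0 v) (emb_kum hkum v)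
      rw [emb_dup]
      exact h3
  · apply finprod_le_finprod (fin_supp _ hdup) _ s3
    · intro v
      exact fin_upper (v := v.val) (fin_nonarch v) a (ha v) k hk0
    · intro v
      exact (fin_iSup_pos hdup v).le
  · exact (fin_prod_pos hdup).le
  · apply Finset.prod_nonneg
    intro v _
    have := wn_nonneg (h := H v) (by linarith [hH v]) fun i => v.embedding (k i)
    have := one_le_CC
    positivity

theorem start_low (hH : ∀ v, 1 ≤ H v) (a : Fin 5 → K)
    (ha : ∀ (v : FinitePlace K) i, v (a i) ≤ 1)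
    (hdis : dis a ≠ 0) {d : K} (hd : d ≠ 0) (T : Finset (FinitePlace K))
    (hT : ∀ v ∈ T, v 2 = 1 ∧ v (dis a) = 1 ∧ ∀ z, v d ≠ v z ^ 2)
    {k : Fin 4 → K} (hk : Rep a d k) (i : Fin 3) (hi : (i : ℕ) ≤ 1)
    (hne : dup a k i.castSucc ≠ 0) :
    (∏ v : InfinitePlace K, (H v ^ 2) ^ v.mult) * ∏ v ∈ T, qq v ≤ Hw H (dup a k) := by
  classical
  have hk0 := hk.ne_zero
  have hkum := hk.kum_eq
  have hdup := dup_ne hdis hkum hk0
  obtain ⟨s1, s2⟩ := fin_ite T fun v => qq v
  set x := dup a k i.castSucc with hx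
  have e : (∏ v : InfinitePlace K, (H v ^ 2) ^ v.mult) * ∏ v ∈ T, qq v =
      (∏ v : InfinitePlace K, (v x * H v ^ 2) ^ v.mult) *
      ∏ᶠ v : FinitePlace K, (if v ∈ T then qq v else 1) * v x := by
    rw [finprod_mul_distrib s1 (FinitePlace.hasFiniteMulSupport hne), s2]
    have h3 := prod_abs_eq_one hne
    simp only [mul_pow, Finset.prod_mul_distrib]
    calc _ = (∏ v : InfinitePlace K, (H v ^ 2) ^ v.mult) * (∏ v ∈ T, qq v) *
          ((∏ w : InfinitePlace K, w x ^ w.mult) * ∏ᶠ w : FinitePlace K, w x) := by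
            rw [h3, mul_one]
      _ = _ := by ring
  rw [e, Hw]
  have hq : ∀ v : FinitePlace K, 0 < qq v := fun v => by linarith [one_lt_qq v]
  apply mul_le_mul
  · apply Finset.prod_le_prod
    · intro v _
      have := hH v
      positivity
    · intro v _
      apply pow_le_pow_left₀
      · have := hH v
        positivity
      · refine le_trans ?_ (le_sup4 (fun j : Fin 4 => ‖v.embedding (dup a k j)‖ *
          H v ^ (3 - (j : ℕ))) i.castSucc)
        rw [InfinitePlace.norm_embedding_eq]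
        exact mul_le_mul_of_nonneg_left (pow_le_pow_right₀ (hH v) (by simp; omega))
          (apply_nonneg v _)
  · have s4 : (fun v : FinitePlace K => (if v ∈ T then qq v else 1) * v x).HasFiniteMulSupport :=
      s1.mul (FinitePlace.hasFiniteMulSupport hne)
    apply finprod_le_finprod s4 _ (fin_supp _ hdup)
    · intro v
      simp only
      split_ifs with hv
      · obtain ⟨g1, g2, g3⟩ := hT v hv
        exact fin_odd (v := v.val) (fin_nonarch v) (fin_discrete v) g1 a (ha v) g2 d hd k hk g3 i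
      · rw [one_mul]
        exact le_sup4 (fun j : Fin 4 => v (dup a k j)) i.castSucc
    · intro v
      have := hq v
      have := apply_nonneg v x
      split_ifs
      · positivity
      · positivity
  · apply finprod_nonneg
    intro v
    have := hq v
    have := apply_nonneg v x
    split_ifs
    · positivity
    · positivity
  · apply Finset.prod_nonneg
    intro v _
    exact pow_nonneg (wn_nonneg (by linarith [hH v]) _) _

end

end Run7.h929.G2
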