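import Pool.Agent.Run7.h929.G2.Glob

/-!
# Iteration of the duplication map
-/

set_option autoImplicit false

namespace Run7.h929.G2

open NumberField IsDedekindDomain Filter Topology

variable {K : Type} [Field K] [NumberField K]

/-- the hypotheses on the curve and on the two sets of places -/
structure Hyp (a : Fin 5 → K) (d : K) (H : InfinitePlace K → ℝ) (S T : Finset (FinitePlace K)) :
    Prop where
  one_le : ∀ v, 1 ≤ H v
  int : ∀ (v : FinitePlace K) i, v (a i) ≤ 1
  size : ∀ (v : InfinitePlace K) (i : Fin 5), v (a i) ≤ H v ^ (5 - (i : ℕ))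
  dis_ne : dis a ≠ 0
  d_ne : d ≠ 0
  good : ∀ v ∉ S, Good a d v
  odd : ∀ v ∈ T, v 2 = 1 ∧ v (dis a) = 1 ∧ ∀ z, v d ≠ v z ^ 2

/-- a sequence of vectors, each a multiple of the double of the one before -/
structure Seq (a : Fin 5 → K) (d : K) (k : ℕ → Fin 4 → K) : Prop where
  rep : ∀ n, Rep a d (k n)
  dbl : ∀ n, ∃ c : K, c ≠ 0 ∧ k (n + 1) = fun i => c * dup a (k n) i

/-- the logarithm of the archimedean size of the coefficients -/
noncomputable def logH (H : InfinitePlace K → ℝ) : ℝ :=
  ∑ v : InfinitePlace K, v.mult * Real.log (H v)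

/-- the size of the discriminant at the bad places -/
noncomputable def defect (a : Fin 5 → K) (H : InfinitePlace K → ℝ) (S : Finset (FinitePlace K)) :
    ℝ :=
  (∑ v ∈ S, -Real.log (v (2 * dis a))) +
    ∑ v : InfinitePlace K, v.mult * (20 * Real.log (H v) - Real.log (v (dis a)))

variable {a : Fin 5 → K} {d : K} {H : InfinitePlace K → ℝ} {S T : Finset (FinitePlace K)}

theorem logHw_eq {f : InfinitePlace K → ℝ} (hf : ∀ v, 0 < f v) :
    Real.log (∏ v : InfinitePlace K, f v ^ v.mult) = ∑ v : InfinitePlace K, v.mult * Real.log (f v) := by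
  rw [Real.log_prod fun v _ => (pow_pos (hf v) _).ne']
  exact Finset.sum_congr rfl fun v _ => Real.log_pow _ _

theorem Hyp.pos (h : Hyp a d H S T) (v : InfinitePlace K) : 0 < H v := by linarith [h.one_le v]

theorem Hyp.loss_pos (h : Hyp a d H S T) : 0 < loss a H S := by
  have hC := one_le_CC
  apply mul_pos
  · apply Finset.prod_pos
    intro v _
    have h1 := h.pos v
    have h2 : 0 < v (dis a) := InfinitePlace.pos_iff.2 h.dis_ne
    positivity
  · apply Finset.prod_pos
    intro v _
    exact pow_pos (FinitePlace.pos_iff.2 (mul_ne_zero two_ne_zero h.dis_ne)) _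

theorem Hyp.log_loss (h : Hyp a d H S T) : -Real.log (loss a H S) =
    NN * defect a H S + Real.log CC * Module.finrank ℚ K := by
  have hC := one_le_CC
  have hv : ∀ v : InfinitePlace K, 0 < v (dis a) := fun v => InfinitePlace.pos_iff.2 h.dis_ne
  have hf : ∀ v : InfinitePlace K, 0 < CC⁻¹ * (v (dis a) / H v ^ 20) ^ NN := by
    intro v
    have h1 := h.pos v
    have h2 := hv v
    positivity
  have h2 : ∀ v : FinitePlace K, 0 < v (2 * dis a) := fun v =>
    FinitePlace.pos_iff.2 (mul_ne_zero two_ne_zero h.dis_ne)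
  rw [loss, Real.log_mul (Finset.prod_pos fun v _ => pow_pos (hf v) _).ne'
    (Finset.prod_pos fun v _ => pow_pos (h2 v) _).ne', logHw_eq hf,
    Real.log_prod fun v _ => (pow_pos (h2 v) _).ne']
  have e1 : ∀ v : InfinitePlace K, Real.log (CC⁻¹ * (v (dis a) / H v ^ 20) ^ NN) =
      -(Real.log CC + NN * (20 * Real.log (H v) - Real.log (v (dis a)))) := by
    intro v
    have h1 := h.pos v
    have h3 := hv v
    rw [Real.log_mul (by positivity) (by positivity), Real.log_inv, Real.log_pow,
      Real.log_div h3.ne' (by positivity), Real.log_pow]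
    push_cast
    ring
  simp only [e1, Real.log_pow]
  rw [← InfinitePlace.sum_mult_eq, defect]
  push_cast
  rw [mul_add, Finset.mul_sum, Finset.mul_sum, Finset.mul_sum]
  simp only [mul_neg, mul_add, Finset.sum_neg_distrib, Finset.sum_add_distrib]
  have e2 : ∑ v : InfinitePlace K, (v.mult : ℝ) * Real.log CC =
      ∑ v : InfinitePlace K, Real.log CC * (v.mult : ℝ) :=
    Finset.sum_congr rfl fun v _ => mul_comm _ _
  have e3 : ∑ v : InfinitePlace K, (v.mult : ℝ) * (NN * (20 * Real.log (H v) - Real.log (v (dis a))))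
      = ∑ v : InfinitePlace K, (NN : ℝ) * (v.mult * (20 * Real.log (H v) - Real.log (v (dis a)))) :=
    Finset.sum_congr rfl fun v _ => by ring
  rw [e2, e3]
  ring

theorem CC_prod : Real.log (∏ v : InfinitePlace K, CC ^ v.mult) =
    Real.log CC * Module.finrank ℚ K := by
  rw [logHw_eq (f := fun _ => CC) fun _ => by linarith [one_le_CC], ← InfinitePlace.sum_mult_eq]
  push_cast
  rw [Finset.mul_sum]
  exact Finset.sum_congr rfl fun v _ => mul_comm _ _

theorem Hyp.loss_le (h : Hyp a d H S T) {k : Fin 4 → K} (hk : Rep a d k) : loss a H S ≤ 1 := by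
  have hC := one_le_CC
  have hv : ∀ v : InfinitePlace K, 0 < v (dis a) := fun v => InfinitePlace.pos_iff.2 h.dis_ne
  apply mul_le_one₀
  · apply Finset.prod_le_one
    · intro v _
      have h1 := h.pos v
      have h2 := hv v
      positivity
    · intro v _
      have h1 := h.pos v
      have h2 := hv v
      apply pow_le_one₀ (by positivity)
      obtain ⟨-, h3, -⟩ := CC_spec (fun i => v.embedding (a i)) (fun i => v.embedding (k i)) (H v)
        (h.pos v) (fun i => by
          rw [InfinitePlace.norm_embedding_eq]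
          exact h.size v i) (emb_ne hk.ne_zero v) (emb_kum hk.kum_eq v)
      rw [← map_dis, InfinitePlace.norm_embedding_eq] at h3
      rw [inv_mul_le_iff₀ (by linarith), mul_one]
      exact h3
  · apply Finset.prod_nonneg
    intro v _
    exact pow_nonneg (apply_nonneg v _) _
  · apply Finset.prod_le_one
    · intro v _
      exact pow_nonneg (apply_nonneg v _) _
    · intro v _
      apply pow_le_one₀ (apply_nonneg v _)
      have h1 : v (dis a) ≤ 1 := by
        let a' : Fin 5 → OO v.val (fin_nonarch v) := fun i => ⟨a i, h.int v i⟩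
        have := ww_le (dis a')
        rw [sub_hom_dis] at this
        exact this
      have h2 : v (2 : K) ≤ 1 := by
        have := fin_int v (2 : 𝓞 K)
        have e : ((2 : 𝓞 K) : K) = 2 := map_ofNat (algebraMap (𝓞 K) K) 2
        rwa [e] at this
      rw [map_mul]
      exact mul_le_one₀ h2 (apply_nonneg v _) h1

theorem logHw_dup {k : ℕ → Fin 4 → K} (h : Hyp a d H S T) (hk : Seq a d k) (n : ℕ) :
    Hw H (k (n + 1)) = Hw H (dup a (k n)) := by
  obtain ⟨c, hc, he⟩ := hk.dbl n
  rw [he, Hw_smul hc (dup_ne h.dis_ne (hk.rep n).kum_eq (hk.rep n).ne_zero)]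

theorem seq_low {k : ℕ → Fin 4 → K} (h : Hyp a d H S T) (hk : Seq a d k) (n : ℕ) :
    4 * Real.log (Hw H (k n)) + Real.log (loss a H S) ≤ Real.log (Hw H (k (n + 1))) := by
  have h1 := step_low h.one_le a h.int h.size h.dis_ne h.d_ne S h.good (hk.rep n)
  have h2 := h.loss_pos
  have h3 := Hw_pos (H := H) h.pos (hk.rep n).ne_zero
  rw [logHw_dup h hk]
  have h4 := Real.log_le_log (by positivity) h1
  rw [Real.log_mul h2.ne' (by positivity), Real.log_pow] at h4
  push_cast at h4
  linarith

theorem seq_up {k : ℕ → Fin 4 → K} (h : Hyp a d H S T) (hk : Seq a d k) (n : ℕ) :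
    Real.log (Hw H (k (n + 1))) ≤
      4 * Real.log (Hw H (k n)) + Real.log CC * Module.finrank ℚ K := by
  have h1 := step_up h.one_le a h.int h.size h.dis_ne (hk.rep n).ne_zero (hk.rep n).kum_eq
  have h2 : 0 < ∏ v : InfinitePlace K, CC ^ v.mult :=
    Finset.prod_pos fun v _ => pow_pos (by linarith [one_le_CC]) _
  have h3 := Hw_pos (H := H) h.pos (hk.rep n).ne_zero
  have h5 := Hw_pos (H := H) h.pos (hk.rep (n + 1)).ne_zero
  rw [logHw_dup h hk] at h5 ⊢
  have h4 := Real.log_le_log h5 h1
  rw [Real.log_mul h2.ne' (by positivity), Real.log_pow, CC_prod] at h4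
  push_cast at h4
  linarith

theorem seq_start {k : ℕ → Fin 4 → K} (h : Hyp a d H S T) (hk : Seq a d k)
    (h01 : k 1 0 ≠ 0 ∨ k 1 1 ≠ 0) :
    2 * logH H + ∑ v ∈ T, Real.log (qq v) ≤ Real.log (Hw H (k 1)) := by
  have hq : ∀ v : FinitePlace K, 0 < qq v := fun v => by linarith [one_lt_qq v]
  have key : (∏ v : InfinitePlace K, (H v ^ 2) ^ v.mult) * ∏ v ∈ T, qq v ≤ Hw H (k 1) := by
    obtain ⟨c, hc, he⟩ := hk.dbl 0
    rw [zero_add] at he
    rw [logHw_dup h hk 0]
    rcases h01 with h0 | h0
    · refine start_low h.one_le a h.int h.dis_ne h.d_ne T h.odd (hk.rep 0) 0 (by simp) ?_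
      intro h1
      apply h0
      rw [he]
      beta_reduce
      have : dup a (k 0) 0 = 0 := h1
      rw [this, mul_zero]
    · refine start_low h.one_le a h.int h.dis_ne h.d_ne T h.odd (hk.rep 0) 1 (by simp) ?_
      intro h1
      apply h0
      rw [he]
      beta_reduce
      have : dup a (k 0) 1 = 0 := h1
      rw [this, mul_zero]
  have h2 : 0 < ∏ v : InfinitePlace K, (H v ^ 2) ^ v.mult :=
    Finset.prod_pos fun v _ => by
      have := h.pos v
      positivity
  have h3 : 0 < ∏ v ∈ T, qq v := Finset.prod_pos fun v _ => hq v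
  have h4 := Real.log_le_log (mul_pos h2 h3) key
  rw [Real.log_mul h2.ne' h3.ne', Real.log_prod fun v _ => (hq v).ne',
    logHw_eq fun v => pow_pos (h.pos v) _] at h4
  have e : ∑ v : InfinitePlace K, v.mult * Real.log (H v ^ 2) = 2 * logH H := by
    rw [logH, Finset.mul_sum]
    refine Finset.sum_congr rfl fun v _ => ?_
    rw [Real.log_pow]
    push_cast
    ring
  rw [e] at h4
  exact h4

theorem seq_iter {k : ℕ → Fin 4 → K} (h : Hyp a d H S T) (hk : Seq a d k)
    (h01 : k 1 0 ≠ 0 ∨ k 1 1 ≠ 0) (n : ℕ) :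
    4 ^ n * (2 * logH H + ∑ v ∈ T, Real.log (qq v) - (NN / 3) * defect a H S -
      (Real.log CC / 3) * Module.finrank ℚ K) ≤ Real.log (Hw H (k (n + 1))) := by
  have hB : 0 ≤ -Real.log (loss a H S) := by
    have := Real.log_nonpos h.loss_pos.le (h.loss_le (hk.rep 0))
    linarith
  have key : ∀ n : ℕ, 4 ^ n * (2 * logH H + ∑ v ∈ T, Real.log (qq v) +
      Real.log (loss a H S) / 3) - Real.log (loss a H S) / 3 ≤ Real.log (Hw H (k (n + 1))) := by
    intro n
    induction n with
    | zero =>
      have := seq_start h hk h01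
      simp only [pow_zero, one_mul, zero_add]
      linarith
    | succ n ih =>
      have := seq_low h hk (n + 1)
      rw [pow_succ]
      linarith
  have h1 := key n
  have h2 := h.log_loss
  have e : 2 * logH H + ∑ v ∈ T, Real.log (qq v) - (NN / 3) * defect a H S -
      (Real.log CC / 3) * Module.finrank ℚ K = 2 * logH H + ∑ v ∈ T, Real.log (qq v) +
      Real.log (loss a H S) / 3 := by linarith
  rw [e]
  linarith

theorem seq_height_low {k : ℕ → Fin 4 → K} (h : Hyp a d H S T) (hk : Seq a d k) (n : ℕ) :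
    Real.log (Hw H (k n)) ≤ Height.logHeight (k n) + 3 * logH H := by
  have h1 := Hw_le (H := H) h.one_le (hk.rep n).ne_zero
  have h2 := Real.log_le_log (Hw_pos h.pos (hk.rep n).ne_zero) h1
  have h3 : 0 < ∏ v : InfinitePlace K, (H v ^ 3) ^ v.mult :=
    Finset.prod_pos fun v _ => by
      have := h.pos v
      positivity
  rw [Real.log_mul (Height.mulHeight_pos _).ne' h3.ne', logHw_eq fun v => pow_pos (h.pos v) _] at h2
  have e : ∑ v : InfinitePlace K, v.mult * Real.log (H v ^ 3) = 3 * logH H := by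
    rw [logH, Finset.mul_sum]
    refine Finset.sum_congr rfl fun v _ => ?_
    rw [Real.log_pow]
    push_cast
    ring
  rw [e] at h2
  exact h2

theorem seq_height_up {k : ℕ → Fin 4 → K} (h : Hyp a d H S T) (hk : Seq a d k) (n : ℕ) :
    Height.logHeight (k n) ≤ Real.log (Hw H (k n)) :=
  Real.log_le_log (Height.mulHeight_pos _) (le_Hw h.one_le (hk.rep n).ne_zero)

/-- the limit -/
theorem seq_limit {k : ℕ → Fin 4 → K} (h : Hyp a d H S T) (hk : Seq a d k) :
    ∃ c : ℝ, Tendsto (fun n => Height.logHeight (k n) / 4 ^ n) atTop (𝓝 c) := by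
  let x : ℕ → ℝ := fun n => Real.log (Hw H (k n)) / 4 ^ n
  set M := max (-Real.log (loss a H S)) (Real.log CC * Module.finrank ℚ K) with hM
  have hx : ∀ n, dist (x n) (x (n + 1)) ≤ (M / 4) * (1 / 4) ^ n := by
    intro n
    have h1 := seq_low h hk n
    have h2 := seq_up h hk n
    have h3 : -Real.log (loss a H S) ≤ M := le_max_left _ _
    have h4 : Real.log CC * Module.finrank ℚ K ≤ M := le_max_right _ _
    have e : x n - x (n + 1) =
        (4 * Real.log (Hw H (k n)) - Real.log (Hw H (k (n + 1)))) / 4 ^ (n + 1) := by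
      simp only [x]
      rw [pow_succ]
      field_simp
    rw [Real.dist_eq, e, abs_div, abs_of_pos (by positivity : (0 : ℝ) < 4 ^ (n + 1)),
      div_le_iff₀ (by positivity)]
    have e2 : M / 4 * (1 / 4) ^ n * 4 ^ (n + 1) = M := by
      rw [pow_succ, one_div, inv_pow]
      field_simp
    rw [e2, abs_le]
    constructor <;> linarith
  have hc := cauchySeq_of_le_geometric (1 / 4) (M / 4) (by norm_num) hx
  obtain ⟨c, hc⟩ := cauchySeq_tendsto_of_complete hc
  refine ⟨c, ?_⟩
  have h0 : Tendsto (fun n : ℕ => 3 * logH H * (1 / 4 : ℝ) ^ n) atTop (𝓝 0) := by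
    have := (tendsto_pow_atTop_nhds_zero_of_lt_one (r := (1 / 4 : ℝ)) (by norm_num)
      (by norm_num)).const_mul (3 * logH H)
    rwa [mul_zero] at this
  have h1 : Tendsto (fun n => x n - 3 * logH H * (1 / 4 : ℝ) ^ n) atTop (𝓝 c) := by
    have := hc.sub h0
    rwa [sub_zero] at this
  refine tendsto_of_tendsto_of_tendsto_of_le_of_le h1 hc ?_ ?_
  · intro n
    have h2 := seq_height_low h hk n
    simp only [x]
    rw [one_div, inv_pow, ← div_eq_mul_inv, ← sub_div]
    apply div_le_div_of_nonneg_right _ (by positivity)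
    linarith
  · intro n
    exact div_le_div_of_nonneg_right (seq_height_up h hk n) (by positivity)

theorem seq_main {k : ℕ → Fin 4 → K} (h : Hyp a d H S T) (hk : Seq a d k)
    (h01 : k 1 0 ≠ 0 ∨ k 1 1 ≠ 0) :
    ∃ c : ℝ, Tendsto (fun n => Height.logHeight (k n) / 4 ^ n) atTop (𝓝 c) ∧
      (2 * logH H + ∑ v ∈ T, Real.log (qq v) - (NN / 3) * defect a H S -
        (Real.log CC / 3) * Module.finrank ℚ K) / 4 ≤ c := by
  obtain ⟨c, hc⟩ := seq_limit h hk
  refine ⟨c, hc, ?_⟩
  set L := 2 * logH H + ∑ v ∈ T, Real.log (qq v) - (NN / 3) * defect a H S -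
        (Real.log CC / 3) * Module.finrank ℚ K with hL
  have h0 : Tendsto (fun n : ℕ => L / 4 - 3 * logH H * (1 / 4 : ℝ) ^ n) atTop (𝓝 (L / 4)) := by
    have := (tendsto_pow_atTop_nhds_zero_of_lt_one (r := (1 / 4 : ℝ)) (by norm_num)
      (by norm_num)).const_mul (3 * logH H)
    rw [mul_zero] at this
    have := (tendsto_const_nhds (x := L / 4)).sub this
    rwa [sub_zero] at this
  refine le_of_tendsto_of_tendsto h0 hc ?_
  filter_upwards [eventually_ge_atTop 1] with n hn
  obtain ⟨m, rfl⟩ := Nat.exists_eq_add_of_le' hn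
  have h1 := seq_iter h hk h01 m
  have h2 := seq_height_low h hk (m + 1)
  rw [one_div, inv_pow, ← div_eq_mul_inv, le_div_iff₀ (by positivity), sub_mul,
    div_mul_cancel₀ _ (by positivity)]
  rw [← hL] at h1
  have e : L / 4 * 4 ^ (m + 1) = 4 ^ m * L := by
    rw [pow_succ]
    ring
  rw [e]
  linarith

end Run7.h929.G2
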