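import Pool.Agent.Run7.h929.G2.Null

/-!
# The duplication map at the places where the discriminant is not divisible by a square
-/

set_option autoImplicit false

namespace Run7.h929.G2

section rho
variable {R : Type*} [CommRing R]

/-- the resultant of `k₀ x² - k₁ x + k₂` and the quintic -/
def rho (a : Fin 5 → R) (k0 k1 k2 : R) : R :=
  k0 ^ 5 * a 0 ^ 2 + k0 ^ 4 * k1 * a 0 * a 1 - 2 * k0 ^ 4 * k2 * a 0 * a 2 + k0 ^ 4 * k2 * a 1 ^ 2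
    + k0 ^ 3 * k1 ^ 2 * a 0 * a 2 - 3 * k0 ^ 3 * k1 * k2 * a 0 * a 3 + k0 ^ 3 * k1 * k2 * a 1 * a 2
    + 2 * k0 ^ 3 * k2 ^ 2 * a 0 * a 4 - 2 * k0 ^ 3 * k2 ^ 2 * a 1 * a 3 + k0 ^ 3 * k2 ^ 2 * a 2 ^ 2
    + k0 ^ 2 * k1 ^ 3 * a 0 * a 3 - 4 * k0 ^ 2 * k1 ^ 2 * k2 * a 0 * a 4
    + k0 ^ 2 * k1 ^ 2 * k2 * a 1 * a 3 + 5 * k0 ^ 2 * k1 * k2 ^ 2 * a 0
    - 3 * k0 ^ 2 * k1 * k2 ^ 2 * a 1 * a 4 + k0 ^ 2 * k1 * k2 ^ 2 * a 2 * a 3
    + 2 * k0 ^ 2 * k2 ^ 3 * a 1 - 2 * k0 ^ 2 * k2 ^ 3 * a 2 * a 4 + k0 ^ 2 * k2 ^ 3 * a 3 ^ 2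
    + k0 * k1 ^ 4 * a 0 * a 4 - 5 * k0 * k1 ^ 3 * k2 * a 0 + k0 * k1 ^ 3 * k2 * a 1 * a 4
    - 4 * k0 * k1 ^ 2 * k2 ^ 2 * a 1 + k0 * k1 ^ 2 * k2 ^ 2 * a 2 * a 4
    - 3 * k0 * k1 * k2 ^ 3 * a 2 + k0 * k1 * k2 ^ 3 * a 3 * a 4 - 2 * k0 * k2 ^ 4 * a 3
    + k0 * k2 ^ 4 * a 4 ^ 2 + k1 ^ 5 * a 0 + k1 ^ 4 * k2 * a 1 + k1 ^ 3 * k2 ^ 2 * a 2
    + k1 ^ 2 * k2 ^ 3 * a 3 + k1 * k2 ^ 4 * a 4 + k2 ^ 5

theorem rho_smul (a : Fin 5 → R) (c k0 k1 k2 : R) :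
    rho a (c * k0) (c * k1) (c * k2) = c ^ 5 * rho a k0 k1 k2 := by
  simp only [rho]
  ring

theorem rho_co (d s q v1 v0 w2 w1 w0 : R) :
    rho (co d s q v1 v0 w2 w1 w0) 1 s q = d ^ 2 * rv s q v1 v0 ^ 2 := by
  simp [rho, co, rv]
  ring

theorem rho_exp (a : Fin 5 → R) (k0 k1 x : R) : ∃ B : R, rho a k0 k1 (x * k1) =
    k1 ^ 5 * fv a x + k0 * (k1 ^ 4 * (a 4 - 5 * x) * fv a x + k1 ^ 4 * x ^ 2 * fd a x) +
      k0 ^ 2 * B := by
  refine ⟨2 * k1 ^ 3 * x ^ 3 * a 1 - 2 * k1 ^ 3 * x ^ 3 * a 2 * a 4 + k1 ^ 3 * x ^ 3 * a 3 ^ 2 +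
    5 * k1 ^ 3 * x ^ 2 * a 0 - 3 * k1 ^ 3 * x ^ 2 * a 1 * a 4 + k1 ^ 3 * x ^ 2 * a 2 * a 3 -
    4 * k1 ^ 3 * x * a 0 * a 4 + k1 ^ 3 * x * a 1 * a 3 + k1 ^ 3 * a 0 * a 3 +
    k0 * (2 * k1 ^ 2 * x ^ 2 * a 0 * a 4 - 2 * k1 ^ 2 * x ^ 2 * a 1 * a 3 +
      k1 ^ 2 * x ^ 2 * a 2 ^ 2 - 3 * k1 ^ 2 * x * a 0 * a 3 + k1 ^ 2 * x * a 1 * a 2 +
      k1 ^ 2 * a 0 * a 2) +
    k0 ^ 2 * (- 2 * k1 * x * a 0 * a 2 + k1 * x * a 1 ^ 2 + k1 * a 0 * a 1) +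
    k0 ^ 3 * a 0 ^ 2, ?_⟩
  simp only [rho, fv, fd]
  ring

theorem lead_co (d s q v1 v0 w2 w1 w0 : R) :
    -(w0 + q * w2) + gg (co d s q v1 v0 w2 w1 w0) s q = d * v1 ^ 2 := by
  simp [gg, co]
  ring

theorem rv_co (d s q v1 v0 w2 w1 w0 : R) :
    d * v0 ^ 2 = co d s q v1 v0 w2 w1 w0 0 - q * w0 := by
  simp [co]

end rho

variable {K : Type*} [Field K]

/-- `k` are Kummer coordinates of a rational point of the Jacobian of `d y² = f(x)` -/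
def Rep (a : Fin 5 → K) (d : K) (k : Fin 4 → K) : Prop :=
  (∃ c s q v1 v0 w2 w1 w0 : K, c ≠ 0 ∧ a = co d s q v1 v0 w2 w1 w0 ∧
    k = fun i => c * kv s q w2 w0 i) ∨
  (∃ c x y : K, c ≠ 0 ∧ d * y ^ 2 = fv a x ∧ k = fun i => c * (![0, 1, x, x ^ 2] : Fin 4 → K) i) ∨
  (∃ c : K, c ≠ 0 ∧ k = fun i => c * (![0, 0, 0, 1] : Fin 4 → K) i)

theorem Rep.smul {a : Fin 5 → K} {d : K} {k : Fin 4 → K} (h : Rep a d k) {t : K} (ht : t ≠ 0) :
    Rep a d (fun i => t * k i) := by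
  rcases h with ⟨c, s, q, v1, v0, w2, w1, w0, hc, ha, hk⟩ | ⟨c, x, y, hc, ha, hk⟩ | ⟨c, hc, hk⟩
  · exact Or.inl ⟨t * c, s, q, v1, v0, w2, w1, w0, mul_ne_zero ht hc, ha, by
      rw [hk]; funext i; ring⟩
  · exact Or.inr (Or.inl ⟨t * c, x, y, mul_ne_zero ht hc, ha, by rw [hk]; funext i; ring⟩)
  · exact Or.inr (Or.inr ⟨t * c, mul_ne_zero ht hc, by rw [hk]; funext i; ring⟩)

theorem Rep.kum_eq {a : Fin 5 → K} {d : K} {k : Fin 4 → K} (h : Rep a d k) : kum a k = 0 := by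
  rcases h with ⟨c, s, q, v1, v0, w2, w1, w0, hc, ha, hk⟩ | ⟨c, x, y, hc, ha, hk⟩ | ⟨c, hc, hk⟩
  · rw [hk, kum_smul, ha, kum_co, mul_zero]
  · rw [hk, kum_smul, kum_inf _ _ rfl]
    simp
  · rw [hk, kum_smul, kum_inf _ _ rfl]
    simp

theorem Rep.ne_zero {a : Fin 5 → K} {d : K} {k : Fin 4 → K} (h : Rep a d k) : k ≠ 0 := by
  rcases h with ⟨c, s, q, v1, v0, w2, w1, w0, hc, ha, hk⟩ | ⟨c, x, y, hc, ha, hk⟩ | ⟨c, hc, hk⟩
  · intro h0
    have := congrFun h0 0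
    rw [hk] at this
    simp [kv] at this
    exact hc this
  · intro h0
    have := congrFun h0 1
    rw [hk] at this
    simp at this
    exact hc this
  · intro h0
    have := congrFun h0 3
    rw [hk] at this
    simp at this
    exact hc this

/-- the ring of integers of an absolute value -/
def OO (v : AbsoluteValue K ℝ) (h : IsNonarchimedean v) : Subring K where
  carrier := {x | v x ≤ 1}
  mul_mem' := fun {x y} hx hy => by
    change v x ≤ 1 at hx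
    change v y ≤ 1 at hy
    change v (x * y) ≤ 1
    rw [map_mul]
    exact mul_le_one₀ hx (v.nonneg _) hy
  one_mem' := by
    change v 1 ≤ 1
    simp
  add_mem' := fun {x y} hx hy => by
    change v x ≤ 1 at hx
    change v y ≤ 1 at hy
    exact (h x y).trans (max_le hx hy)
  zero_mem' := by
    change v 0 ≤ 1
    simp
  neg_mem' := fun {x} hx => by
    change v x ≤ 1 at hx
    change v (-x) ≤ 1
    rwa [v.map_neg]

variable {v : AbsoluteValue K ℝ} {h : IsNonarchimedean v}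

/-- the absolute value on the ring of integers -/
def ww (x : OO v h) : ℝ := v (x : K)

theorem ww_le (x : OO v h) : ww x ≤ 1 := x.2
theorem ww_nonneg (x : OO v h) : 0 ≤ ww x := v.nonneg _
theorem ww_mul (x y : OO v h) : ww (x * y) = ww x * ww y := v.map_mul _ _
theorem ww_pow (x : OO v h) (n : ℕ) : ww (x ^ n) = ww x ^ n := by
  simp [ww]
theorem ww_neg (x : OO v h) : ww (-x) = ww x := v.map_neg _
theorem ww_add (x y : OO v h) : ww (x + y) ≤ max (ww x) (ww y) := h _ _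
theorem ww_sub (x y : OO v h) : ww (x - y) ≤ max (ww x) (ww y) := by
  rw [sub_eq_add_neg, ← ww_neg y]
  exact ww_add _ _
theorem ww_one : ww (1 : OO v h) = 1 := v.map_one
theorem ww_zero : ww (0 : OO v h) = 0 := v.map_zero
theorem ww_mul_le (x y : OO v h) : ww (x * y) ≤ ww x := by
  rw [ww_mul]
  exact mul_le_of_le_one_right (ww_nonneg _) (ww_le _)
theorem ww_mul_le' (x y : OO v h) : ww (x * y) ≤ ww y := by
  rw [mul_comm]
  exact ww_mul_le _ _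

/-- the ideals of the ring of integers -/
def JJ (v : AbsoluteValue K ℝ) (h : IsNonarchimedean v) (r : ℝ) (hr : 0 ≤ r) : Ideal (OO v h) where
  carrier := {x | ww x ≤ r}
  add_mem' := fun {x y} hx hy => (ww_add _ _).trans (max_le hx hy)
  zero_mem' := by
    change ww (0 : OO v h) ≤ r
    rw [ww_zero]
    exact hr
  smul_mem' := fun c x hx => (ww_mul_le' c x).trans hx

theorem mem_JJ {r : ℝ} (hr : 0 ≤ r) (x : OO v h) : x ∈ JJ v h r hr ↔ ww x ≤ r := Iff.rfl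

theorem dis_near {r : ℝ} (hr : 0 ≤ r) (a b : Fin 5 → OO v h)
    (hab : ∀ i, ww (a i - b i) ≤ r) : ww (dis a - dis b) ≤ r :=
  dis_congr (JJ v h r hr) a b hab

theorem dup_near {r : ℝ} (hr : 0 ≤ r) (a b : Fin 5 → OO v h) (k l : Fin 4 → OO v h)
    (hab : ∀ i, ww (a i - b i) ≤ r) (hkl : ∀ i, ww (k i - l i) ≤ r) (j : Fin 4) :
    ww (dup a k j - dup b l j) ≤ r := by
  have : dup a k j - dup b l j ∈ JJ v h r hr := by
    rw [← Ideal.Quotient.eq, map_dup, map_dup]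
    congr 1
    · funext i
      exact (Ideal.Quotient.eq).2 (hab i)
    · funext i
      exact (Ideal.Quotient.eq).2 (hkl i)
  exact this

theorem ww_eq_of_sub {x y : OO v h} (hxy : ww (x - y) < ww y) : ww x = ww y := by
  apply le_antisymm
  · have := ww_add (x - y) y
    rw [sub_add_cancel] at this
    exact this.trans (max_le hxy.le le_rfl)
  · by_contra hlt
    push Not at hlt
    have := ww_sub x (x - y)
    rw [sub_sub_cancel] at this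
    exact absurd this (not_le.2 (max_lt hlt hxy))

/-- the values of the absolute value are the powers of `q` -/
structure Discrete (v : AbsoluteValue K ℝ) (q : ℝ) : Prop where
  one_lt : 1 < q
  val : ∀ x : K, x ≠ 0 → ∃ n : ℤ, v x = q ^ n
  uni : ∃ p : K, v p = q⁻¹

theorem Discrete.lt_one {q : ℝ} (hq : Discrete v q) {x : K} (hx : v x < 1) : v x ≤ q⁻¹ := by
  by_cases h0 : x = 0
  · rw [h0, map_zero]
    exact inv_nonneg.2 (by linarith [hq.one_lt])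
  · obtain ⟨n, hn⟩ := hq.val x h0
    rw [hn] at hx ⊢
    have h1 : n < 0 := by
      by_contra h2
      push Not at h2
      exact absurd hx (not_lt.2 (one_le_zpow₀ hq.one_lt.le h2))
    rw [← zpow_neg_one]
    exact zpow_le_zpow_right₀ hq.one_lt.le (by omega)

theorem Discrete.ww_lt {q : ℝ} (hq : Discrete v q) {x : OO v h} (hx : ww x < 1) : ww x ≤ q⁻¹ :=
  hq.lt_one hx

theorem Discrete.no_half {q : ℝ} (hq : Discrete v q) (x : K) : v x ^ 2 ≠ q⁻¹ := by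
  intro h1
  have hq0 : 0 < q := by linarith [hq.one_lt]
  by_cases h0 : x = 0
  · rw [h0, map_zero] at h1
    have := inv_pos.2 hq0
    rw [← h1] at this
    norm_num at this
  · obtain ⟨n, hn⟩ := hq.val x h0
    rw [hn, ← zpow_natCast, ← zpow_mul, ← zpow_neg_one] at h1
    have := zpow_right_injective₀ hq0 hq.one_lt.ne' h1
    push_cast at this
    omega

end Run7.h929.G2
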