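import Pool.Agent.Run7.h929.G2.Local

/-!
# The duplication map at the good places: pairs of points with integral coordinates
-/

set_option autoImplicit false

namespace Run7.h929.G2

variable {K : Type*} [Field K] {v : AbsoluteValue K ℝ} {h : IsNonarchimedean v}

theorem ww_unit_mul {x y : OO v h} (hx : ww x = 1) : ww (x * y) = ww y := by
  rw [ww_mul, hx, one_mul]

theorem ww_sq_lt {x : OO v h} (hx : ww (x ^ 2) < 1) : ww x < 1 := by
  rw [ww_pow] at hx
  by_contra h1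
  push Not at h1
  exact absurd hx (not_lt.2 (one_le_pow₀ h1))

theorem ww_sq_unit {x : OO v h} (hx : ww x = 1) : ww (x ^ 2) = 1 := by
  rw [ww_pow, hx, one_pow]

theorem ww_add_lt {x y : OO v h} {r : ℝ} (hx : ww x < r) (hy : ww y < r) : ww (x + y) < r :=
  (ww_add _ _).trans_lt (max_lt hx hy)
theorem ww_add_le {x y : OO v h} {r : ℝ} (hx : ww x ≤ r) (hy : ww y ≤ r) : ww (x + y) ≤ r :=
  (ww_add _ _).trans (max_le hx hy)
theorem ww_sub_lt {x y : OO v h} {r : ℝ} (hx : ww x < r) (hy : ww y < r) : ww (x - y) < r :=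
  (ww_sub _ _).trans_lt (max_lt hx hy)
theorem ww_sub_le {x y : OO v h} {r : ℝ} (hx : ww x ≤ r) (hy : ww y ≤ r) : ww (x - y) ≤ r :=
  (ww_sub _ _).trans (max_le hx hy)

theorem ww_mul_lt {x y : OO v h} (hx : ww x < 1) : ww (x * y) < 1 := (ww_mul_le x y).trans_lt hx
theorem ww_mul_lt' {x y : OO v h} (hy : ww y < 1) : ww (x * y) < 1 := (ww_mul_le' x y).trans_lt hy

theorem ww_four (h2 : ww (2 : OO v h) = 1) : ww (4 : OO v h) = 1 := by
  have : (4 : OO v h) = 2 * 2 := by norm_num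
  rw [this, ww_mul, h2, one_mul]

variable {q : ℝ}

theorem dis_small (hq : Discrete v q) (a : Fin 5 → OO v h) (x : OO v h)
    (h1 : ww (fv a x) ≤ q⁻¹ * q⁻¹) (h2 : ww (fd a x) < 1) : ww (dis a) ≤ q⁻¹ * q⁻¹ := by
  obtain ⟨A, B, hAB⟩ := dis_comb a x
  rw [hAB]
  refine ww_add_le ((ww_mul_le' _ _).trans h1) ((ww_mul_le' _ _).trans ?_)
  have h3 := hq.ww_lt h2
  rw [pow_two, ww_mul]
  exact mul_le_mul h3 h3 (ww_nonneg _) ((ww_nonneg _).trans h3)

theorem inv_sq_lt (hq : Discrete v q) : q⁻¹ * q⁻¹ < q⁻¹ := by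
  have h0 : 0 < q⁻¹ := inv_pos.2 (by linarith [hq.one_lt])
  have h1 : q⁻¹ < 1 := inv_lt_one_of_one_lt₀ hq.one_lt
  nlinarith

theorem sq_le {x : OO v h} (hq : Discrete v q) (hx : ww x < 1) : ww (x ^ 2) ≤ q⁻¹ * q⁻¹ := by
  have h3 := hq.ww_lt hx
  rw [pow_two, ww_mul]
  exact mul_le_mul h3 h3 (ww_nonneg _) ((ww_nonneg _).trans h3)

theorem case1 (hq : Discrete v q) (h2 : ww (2 : OO v h) = 1) (d s t v1 v0 w2 w1 w0 : OO v h)
    (hd : ww d = 1) (hD : q⁻¹ ≤ ww (dis (co d s t v1 v0 w2 w1 w0))) :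
    ∃ i, ww (dup (co d s t v1 v0 w2 w1 w0) (kv s t w2 w0) i) = 1 := by
  by_contra hcon
  push Not at hcon
  have hlt : ∀ i, ww (dup (co d s t v1 v0 w2 w1 w0) (kv s t w2 w0) i) < 1 := fun i =>
    lt_of_le_of_ne (ww_le _) (hcon i)
  have w4 := ww_four h2
  have w16 : ww (16 : OO v h) = 1 := by
    have : (16 : OO v h) = 4 * 4 := by norm_num
    rw [this, ww_mul, w4, one_mul]
  have e0 : dup (co d s t v1 v0 w2 w1 w0) (kv s t w2 w0) 0 = 4 * d * vw s t v1 v0 w2 w1 w0 ^ 2 :=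
    D0_co d s t v1 v0 w2 w1 w0
  have hvw : ww (vw s t v1 v0 w2 w1 w0) < 1 := by
    have h0 := hlt 0
    rw [e0, ww_unit_mul (by rw [ww_unit_mul w4, hd])] at h0
    exact ww_sq_lt h0
  have hrv : ww (rv s t v1 v0) < 1 := by
    have e1 : dup (co d s t v1 v0 w2 w1 w0) (kv s t w2 w0) 1 =
      8 * d * vw s t v1 v0 w2 w1 w0 * xw s t v1 v0 w2 w1 w0 + 16 * d ^ 2 * rv s t v1 v0 ^ 2 :=
      D1_co d s t v1 v0 w2 w1 w0
    have h3 : ww (16 * d ^ 2 * rv s t v1 v0 ^ 2) < 1 := by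
      have : 16 * d ^ 2 * rv s t v1 v0 ^ 2 =
          dup (co d s t v1 v0 w2 w1 w0) (kv s t w2 w0) 1 -
            (8 * d * xw s t v1 v0 w2 w1 w0) * vw s t v1 v0 w2 w1 w0 := by
        rw [e1]
        ring
      rw [this]
      exact ww_sub_lt (hlt 1) (ww_mul_lt' hvw)
    rw [ww_unit_mul (by rw [ww_unit_mul w16, ww_sq_unit hd])] at h3
    exact ww_sq_lt h3
  by_cases hv1 : ww v1 = 1
  · -- a common zero
    have hv1' : (v1 : K) ≠ 0 := by
      intro h0
      have : ww v1 = 0 := by rw [ww, h0, map_zero]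
      rw [this] at hv1
      norm_num at hv1
    let x : OO v h := ⟨-(v0 : K) / v1, by
      change v _ ≤ 1
      rw [map_div₀, v.map_neg]
      change ww v0 / ww v1 ≤ 1
      rw [hv1, div_one]
      exact ww_le _⟩
    have hx : v1 * x = - v0 := by
      apply Subtype.ext
      change (v1 : K) * (-(v0 : K) / v1) = - (v0 : K)
      field_simp
    have hu : ww (x ^ 2 - s * x + t) < 1 := by
      have : v1 ^ 2 * (x ^ 2 - s * x + t) = rv s t v1 v0 := by
        simp only [rv]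
        linear_combination (v1 * x - v0 - s * v1) * hx
      rw [← this, ww_unit_mul (ww_sq_unit hv1)] at hrv
      exact hrv
    have hW : ww (Wa s t w2 w1 * x + Wb s t w2 w0) < 1 := by
      have : v1 * (Wa s t w2 w1 * x + Wb s t w2 w0) = vw s t v1 v0 w2 w1 w0 := by
        simp only [vw]
        linear_combination (Wa s t w2 w1) * hx
      rw [← this, ww_unit_mul hv1] at hvw
      exact hvw
    have hw : ww (x ^ 3 + w2 * x ^ 2 + w1 * x + w0) < 1 := by
      rw [w_div s t]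
      exact ww_add_lt (ww_mul_lt hu) hW
    have hfv : ww (fv (co d s t v1 v0 w2 w1 w0) x) ≤ q⁻¹ * q⁻¹ := by
      have : fv (co d s t v1 v0 w2 w1 w0) x =
          (x ^ 2 - s * x + t) * (x ^ 3 + w2 * x ^ 2 + w1 * x + w0) := by
        rw [fv_co, hx]
        ring
      rw [this, ww_mul]
      exact mul_le_mul (hq.ww_lt hu) (hq.ww_lt hw) (ww_nonneg _)
        ((ww_nonneg _).trans (hq.ww_lt hu))
    have hfd : ww (fd (co d s t v1 v0 w2 w1 w0) x) < 1 := by
      rw [fd_co, hx]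
      refine ww_add_lt (ww_add_lt ?_ (ww_mul_lt' hw)) (ww_mul_lt hu)
      have : 2 * d * (-v0 + v0) * v1 = 0 := by ring
      rw [this, ww_zero]
      norm_num
    exact absurd hD (not_le.2 ((dis_small hq _ x hfv hfd).trans_lt (inv_sq_lt hq)))
  · have hv1' : ww v1 < 1 := lt_of_le_of_ne (ww_le _) hv1
    have hv0 : ww v0 < 1 := by
      apply ww_sq_lt
      have : v0 ^ 2 = rv s t v1 v0 - (s * v0 + t * v1) * v1 := by
        simp only [rv]
        ring
      rw [this]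
      exact ww_sub_lt hrv (ww_mul_lt' hv1')
    have hnear : ∀ i, ww (co d s t v1 v0 w2 w1 w0 i - co 0 s t 0 0 w2 w1 w0 i) ≤ q⁻¹ * q⁻¹ := by
      have hq0 : 0 ≤ q⁻¹ * q⁻¹ := mul_self_nonneg _
      intro i
      fin_cases i
      · have : co d s t v1 v0 w2 w1 w0 0 - co 0 s t 0 0 w2 w1 w0 0 = d * v0 ^ 2 := by
          simp [co]
        rw [Fin.zero_eta, this]
        exact (ww_mul_le' _ _).trans (sq_le hq hv0)
      · have : co d s t v1 v0 w2 w1 w0 1 - co 0 s t 0 0 w2 w1 w0 1 = 2 * d * (v1 * v0) := by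
          simp [co]
          ring
        rw [Fin.mk_one, this]
        refine (ww_mul_le' _ _).trans ?_
        rw [ww_mul]
        exact mul_le_mul (hq.ww_lt hv1') (hq.ww_lt hv0) (ww_nonneg _)
          ((ww_nonneg _).trans (hq.ww_lt hv1'))
      · have : co d s t v1 v0 w2 w1 w0 2 - co 0 s t 0 0 w2 w1 w0 2 = d * v1 ^ 2 := by
          simp [co]
        change ww (co d s t v1 v0 w2 w1 w0 2 - co 0 s t 0 0 w2 w1 w0 2) ≤ _
        rw [this]
        exact (ww_mul_le' _ _).trans (sq_le hq hv1')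
      · have : co d s t v1 v0 w2 w1 w0 3 - co 0 s t 0 0 w2 w1 w0 3 = 0 := by
          simp [co]
        change ww (co d s t v1 v0 w2 w1 w0 3 - co 0 s t 0 0 w2 w1 w0 3) ≤ _
        rw [this, ww_zero]
        exact hq0
      · have : co d s t v1 v0 w2 w1 w0 4 - co 0 s t 0 0 w2 w1 w0 4 = 0 := by
          simp [co]
        change ww (co d s t v1 v0 w2 w1 w0 4 - co 0 s t 0 0 w2 w1 w0 4) ≤ _
        rw [this, ww_zero]
        exact hq0
    have hq0 : 0 ≤ q⁻¹ * q⁻¹ := mul_self_nonneg _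
    have h3 := dup_near hq0 _ _ (kv s t w2 w0) (kv s t w2 w0) hnear (fun i => by
      rw [sub_self, ww_zero]; exact hq0) 3
    have e3 : dup (co 0 s t 0 0 w2 w1 w0) (kv s t w2 w0) 3 = rw' s t w2 w1 w0 ^ 2 :=
      D3_co_zero 0 s t w2 w1 w0
    rw [e3] at h3
    have hr : ww (rw' s t w2 w1 w0) < 1 := by
      apply ww_sq_lt
      have := ww_sub_lt (hlt 3) (h3.trans_lt ((inv_sq_lt hq).trans
        (inv_lt_one_of_one_lt₀ hq.one_lt)))
      rwa [sub_sub_cancel] at this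
    have h4 := dis_near hq0 _ _ hnear
    obtain ⟨T, hT⟩ := dis_uw s t w2 w1 w0
    have h5 : ww (dis (co 0 s t 0 0 w2 w1 w0)) ≤ q⁻¹ * q⁻¹ := by
      rw [hT]
      exact (ww_mul_le _ _).trans (sq_le hq hr)
    have h6 := ww_add_le h4 h5
    rw [sub_add_cancel] at h6
    exact absurd hD (not_le.2 (h6.trans_lt (inv_sq_lt hq)))

theorem case1' (hq : Discrete v q) (d s t v1 v0 w2 w1 w0 : OO v h)
    (hd : ww d < 1) (hD : ww (dis (co d s t v1 v0 w2 w1 w0)) = 1) :
    ww (dup (co d s t v1 v0 w2 w1 w0) (kv s t w2 w0) 3) = 1 ∧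
    ∀ i : Fin 3, ww (dup (co d s t v1 v0 w2 w1 w0) (kv s t w2 w0) i.castSucc) < 1 := by
  constructor
  · have hq0 : 0 ≤ q⁻¹ := inv_nonneg.2 (by linarith [hq.one_lt])
    have hq1 : q⁻¹ < 1 := inv_lt_one_of_one_lt₀ hq.one_lt
    have hnear : ∀ i, ww (co d s t v1 v0 w2 w1 w0 i - co 0 s t 0 0 w2 w1 w0 i) ≤ q⁻¹ := by
      intro i
      fin_cases i
      · have : co d s t v1 v0 w2 w1 w0 0 - co 0 s t 0 0 w2 w1 w0 0 = d * v0 ^ 2 := by
          simp [co]
        rw [Fin.zero_eta, this]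
        exact (ww_mul_le _ _).trans (hq.ww_lt hd)
      · have : co d s t v1 v0 w2 w1 w0 1 - co 0 s t 0 0 w2 w1 w0 1 = d * (2 * v1 * v0) := by
          simp [co]
          ring
        rw [Fin.mk_one, this]
        exact (ww_mul_le _ _).trans (hq.ww_lt hd)
      · have : co d s t v1 v0 w2 w1 w0 2 - co 0 s t 0 0 w2 w1 w0 2 = d * v1 ^ 2 := by
          simp [co]
        change ww (co d s t v1 v0 w2 w1 w0 2 - co 0 s t 0 0 w2 w1 w0 2) ≤ _
        rw [this]
        exact (ww_mul_le _ _).trans (hq.ww_lt hd)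
      · have : co d s t v1 v0 w2 w1 w0 3 - co 0 s t 0 0 w2 w1 w0 3 = 0 := by
          simp [co]
        change ww (co d s t v1 v0 w2 w1 w0 3 - co 0 s t 0 0 w2 w1 w0 3) ≤ _
        rw [this, ww_zero]
        exact hq0
      · have : co d s t v1 v0 w2 w1 w0 4 - co 0 s t 0 0 w2 w1 w0 4 = 0 := by
          simp [co]
        change ww (co d s t v1 v0 w2 w1 w0 4 - co 0 s t 0 0 w2 w1 w0 4) ≤ _
        rw [this, ww_zero]
        exact hq0
    have h3 := dup_near hq0 _ _ (kv s t w2 w0) (kv s t w2 w0) hnear (fun i => by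
      rw [sub_self, ww_zero]; exact hq0) 3
    have e3 : dup (co 0 s t 0 0 w2 w1 w0) (kv s t w2 w0) 3 = rw' s t w2 w1 w0 ^ 2 :=
      D3_co_zero 0 s t w2 w1 w0
    rw [e3] at h3
    have h4 := dis_near hq0 _ _ hnear
    obtain ⟨T, hT⟩ := dis_uw s t w2 w1 w0
    have h5 : ww (dis (co 0 s t 0 0 w2 w1 w0)) = 1 := by
      by_contra hne
      have hlt := lt_of_le_of_ne (ww_le _) hne
      have := ww_add_lt (h4.trans_lt hq1) hlt
      rw [sub_add_cancel, hD] at this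
      exact lt_irrefl _ this
    have h6 : ww (rw' s t w2 w1 w0 ^ 2) = 1 := by
      apply le_antisymm (ww_le _)
      rw [hT] at h5
      rw [← h5]
      exact ww_mul_le _ _
    rw [← h6]
    apply ww_eq_of_sub
    rw [h6]
    exact h3.trans_lt hq1
  · intro i
    fin_cases i
    · change ww (D0 (co d s t v1 v0 w2 w1 w0) (kv s t w2 w0)) < 1
      rw [D0_co]
      have : 4 * d * vw s t v1 v0 w2 w1 w0 ^ 2 = d * (4 * vw s t v1 v0 w2 w1 w0 ^ 2) := by ring
      rw [this]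
      exact ww_mul_lt hd
    · change ww (D1 (co d s t v1 v0 w2 w1 w0) (kv s t w2 w0)) < 1
      rw [D1_co]
      have : 8 * d * vw s t v1 v0 w2 w1 w0 * xw s t v1 v0 w2 w1 w0 +
          16 * d ^ 2 * rv s t v1 v0 ^ 2 = d * (8 * vw s t v1 v0 w2 w1 w0 *
            xw s t v1 v0 w2 w1 w0 + 16 * d * rv s t v1 v0 ^ 2) := by ring
      rw [this]
      exact ww_mul_lt hd
    · change ww (D2 (co d s t v1 v0 w2 w1 w0) (kv s t w2 w0)) < 1
      rw [D2_co]
      have : ∀ z : OO v h, 4 * d * z = d * (4 * z) := fun z => by ring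
      rw [this]
      exact ww_mul_lt hd

end Run7.h929.G2
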