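import Pool.Agent.Run7.h929.G2.Local2

/-!
# The duplication map at the good places: the other points
-/

set_option autoImplicit false

namespace Run7.h929.G2

variable {K : Type*} [Field K] {v : AbsoluteValue K ℝ} {h : IsNonarchimedean v}

theorem kum_near {r : ℝ} (hr : 0 ≤ r) (a : Fin 5 → OO v h) (k l : Fin 4 → OO v h)
    (hkl : ∀ i, ww (k i - l i) ≤ r) : ww (kum a k - kum a l) ≤ r := by
  have : kum a k - kum a l ∈ JJ v h r hr := by
    rw [← Ideal.Quotient.eq, map_kum, map_kum]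
    congr 1
    funext i
    exact (Ideal.Quotient.eq).2 (hkl i)
  exact this

theorem ww_lt_of_near {x y : OO v h} (hxy : ww (x - y) < 1) (hy : ww y < 1) : ww x < 1 := by
  have := ww_add_lt hxy hy
  rwa [sub_add_cancel] at this

theorem ww_lt_of_near' {x y : OO v h} (hxy : ww (x - y) < 1) (hx : ww x < 1) : ww y < 1 := by
  have := ww_sub_lt hx hxy
  rwa [sub_sub_cancel] at this

variable {q : ℝ}

/-- the approximation of the duplication at a point with `k₀ ≡ 0`, `k₁` a unit -/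
theorem inf_near (hq : Discrete v q) (a : Fin 5 → OO v h) (k : Fin 4 → OO v h)
    (hk : kum a k = 0) (h0 : ww (k 0) < 1) (h1 : ww (k 1) = 1) :
    ∃ x : OO v h, x * k 1 = k 2 ∧
      ww (dup a k 0 - 4 * k 1 ^ 4 * fv a x) < 1 ∧
      ww (dup a k 1 - 8 * x * k 1 ^ 4 * fv a x) < 1 ∧
      ww (dup a k 2 - 4 * x ^ 2 * k 1 ^ 4 * fv a x) < 1 ∧
      ww (dup a k 3 - k 1 ^ 4 * (fd a x ^ 2 - 4 * fv a x * gg a (2 * x) (x ^ 2))) < 1 := by
  have hq0 : 0 ≤ q⁻¹ := inv_nonneg.2 (by linarith [hq.one_lt])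
  have hq1 : q⁻¹ < 1 := inv_lt_one_of_one_lt₀ hq.one_lt
  have hk1 : (k 1 : K) ≠ 0 := by
    intro h3
    have : ww (k 1) = 0 := by rw [ww, h3, map_zero]
    rw [this] at h1
    norm_num at h1
  let x : OO v h := ⟨(k 2 : K) / k 1, by
    change v _ ≤ 1
    rw [map_div₀]
    change ww (k 2) / ww (k 1) ≤ 1
    rw [h1, div_one]
    exact ww_le _⟩
  have hx : x * k 1 = k 2 := by
    apply Subtype.ext
    change ((k 2 : K) / k 1) * (k 1 : K) = (k 2 : K)
    field_simp
  have hA : ww (k 1 * k 3 - k 2 ^ 2) < 1 := by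
    apply ww_sq_lt
    have h3 := kum_near hq0 a k ![0, k 1, k 2, k 3] (fun i => by
      fin_cases i
      · change ww (k 0 - 0) ≤ _
        rw [sub_zero]
        exact hq.ww_lt h0
      all_goals
        simp only [Fin.mk_one, Fin.reduceFinMk, Matrix.cons_val_one, Matrix.cons_val, sub_self,
          ww_zero]
        exact hq0)
    rw [hk, kum_inf _ _ rfl] at h3
    have h4 := ww_lt_of_near' (h3.trans_lt hq1) (by rw [ww_zero]; norm_num)
    exact h4
  have hB : ww (k 3 - x ^ 2 * k 1) < 1 := by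
    have : k 1 * (k 3 - x ^ 2 * k 1) = k 1 * k 3 - k 2 ^ 2 := by
      rw [← hx]
      ring
    rw [← this, ww_unit_mul h1] at hA
    exact hA
  have hn : ∀ i, ww (k i - (![0, k 1, x * k 1, x ^ 2 * k 1] : Fin 4 → OO v h) i) ≤ q⁻¹ := by
    intro i
    fin_cases i
    · change ww (k 0 - 0) ≤ _
      rw [sub_zero]
      exact hq.ww_lt h0
    · change ww (k 1 - k 1) ≤ _
      rw [sub_self, ww_zero]
      exact hq0
    · change ww (k 2 - x * k 1) ≤ _
      rw [hx, sub_self, ww_zero]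
      exact hq0
    · exact hq.ww_lt hB
  have hd := fun j => (dup_near hq0 a a k _ (fun i => by rw [sub_self, ww_zero]; exact hq0) hn
    j).trans_lt hq1
  refine ⟨x, hx, ?_, ?_, ?_, ?_⟩
  · have := hd 0
    change ww (_ - D0 _ _) < 1 at this
    rwa [D0_inf a x (k 1) _ rfl] at this
  · have := hd 1
    change ww (_ - D1 _ _) < 1 at this
    rwa [D1_inf a x (k 1) _ rfl] at this
  · have := hd 2
    change ww (_ - D2 _ _) < 1 at this
    rwa [D2_inf a x (k 1) _ rfl] at this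
  · have := hd 3
    change ww (_ - D3 _ _) < 1 at this
    rwa [D3_inf a x (k 1) _ rfl] at this

theorem case2 (hq : Discrete v q) (h2 : ww (2 : OO v h) = 1) (a : Fin 5 → OO v h)
    (k : Fin 4 → OO v h) (hk : kum a k = 0) (h0 : ww (k 0) < 1) (h1 : ww (k 1) = 1)
    (hpar : ∃ y : K, ww (rho a (k 0) (k 1) (k 2)) = v y ^ 2) (hD : q⁻¹ ≤ ww (dis a)) :
    ∃ i, ww (dup a k i) = 1 := by
  by_contra hcon
  push Not at hcon
  have hlt : ∀ i, ww (dup a k i) < 1 := fun i => lt_of_le_of_ne (ww_le _) (hcon i)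
  have w4 := ww_four h2
  obtain ⟨x, hx, e0, -, -, e3⟩ := inf_near hq a k hk h0 h1
  have h14 : ww (k 1 ^ 4) = 1 := by rw [ww_pow, h1, one_pow]
  have hf : ww (fv a x) < 1 := by
    have h3 := ww_lt_of_near' e0 (hlt 0)
    rwa [ww_unit_mul (by rw [ww_unit_mul w4, h14])] at h3
  have hd : ww (fd a x) < 1 := by
    have h3 := ww_lt_of_near' e3 (hlt 3)
    rw [ww_unit_mul h14] at h3
    apply ww_sq_lt
    have : fd a x ^ 2 = (fd a x ^ 2 - 4 * fv a x * gg a (2 * x) (x ^ 2)) +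
        (4 * gg a (2 * x) (x ^ 2)) * fv a x := by ring
    rw [this]
    exact ww_add_lt h3 (ww_mul_lt' hf)
  have hf' : ww (fv a x) = q⁻¹ := by
    apply le_antisymm (hq.ww_lt hf)
    by_contra hcc
    push Not at hcc
    obtain ⟨A, B, hAB⟩ := dis_comb a x
    have : ww (dis a) < q⁻¹ := by
      rw [hAB]
      exact ww_add_lt ((ww_mul_le' _ _).trans_lt hcc)
        ((ww_mul_le' _ _).trans_lt ((sq_le hq hd).trans_lt (inv_sq_lt hq)))
    exact absurd hD (not_le.2 this)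
  obtain ⟨B, hB⟩ := rho_exp a (k 0) (k 1) x
  rw [hx] at hB
  have hr : ww (rho a (k 0) (k 1) (k 2)) = q⁻¹ := by
    have h15 : ww (k 1 ^ 5 * fv a x) = q⁻¹ := by
      rw [ww_unit_mul (by rw [ww_pow, h1, one_pow]), hf']
    rw [← h15]
    apply ww_eq_of_sub
    rw [h15, hB]
    have : k 1 ^ 5 * fv a x + k 0 * (k 1 ^ 4 * (a 4 - 5 * x) * fv a x + k 1 ^ 4 * x ^ 2 * fd a x) +
        k 0 ^ 2 * B - k 1 ^ 5 * fv a x =
        k 0 * (k 1 ^ 4 * (a 4 - 5 * x) * fv a x + k 1 ^ 4 * x ^ 2 * fd a x) + k 0 ^ 2 * B := by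
      ring
    rw [this]
    refine (ww_add_le ?_ ((ww_mul_le _ _).trans (sq_le hq h0))).trans_lt (inv_sq_lt hq)
    rw [ww_mul]
    have h5 : ww (k 1 ^ 4 * (a 4 - 5 * x) * fv a x + k 1 ^ 4 * x ^ 2 * fd a x) < 1 :=
      ww_add_lt (ww_mul_lt' hf) (ww_mul_lt' hd)
    exact mul_le_mul (hq.ww_lt h0) (hq.ww_lt h5) (ww_nonneg _) ((ww_nonneg _).trans (hq.ww_lt h0))
  obtain ⟨y, hy⟩ := hpar
  exact hq.no_half y (by rw [← hy, hr])

theorem case2' (hq : Discrete v q) (a : Fin 5 → OO v h)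
    (k : Fin 4 → OO v h) (hk : kum a k = 0) (h0 : ww (k 0) < 1) (h1 : ww (k 1) = 1)
    (hpar : ww (rho a (k 0) (k 1) (k 2)) ≠ 1) (hD : ww (dis a) = 1) :
    ww (dup a k 3) = 1 ∧ ∀ i : Fin 3, ww (dup a k i.castSucc) < 1 := by
  obtain ⟨x, hx, e0, e1, e2, e3⟩ := inf_near hq a k hk h0 h1
  have hr : ww (rho a (k 0) (k 1) (k 2)) < 1 := lt_of_le_of_ne (ww_le _) hpar
  obtain ⟨B, hB⟩ := rho_exp a (k 0) (k 1) x
  rw [hx] at hB
  have hf : ww (fv a x) < 1 := by
    have h5 : ww (k 1 ^ 5 * fv a x) < 1 := by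
      have : k 1 ^ 5 * fv a x = rho a (k 0) (k 1) (k 2) -
        k 0 * (k 1 ^ 4 * (a 4 - 5 * x) * fv a x + k 1 ^ 4 * x ^ 2 * fd a x + k 0 * B) := by
        rw [hB]
        ring
      rw [this]
      exact ww_sub_lt hr (ww_mul_lt h0)
    rwa [ww_unit_mul (by rw [ww_pow, h1, one_pow])] at h5
  have hd : ww (fd a x) = 1 := by
    by_contra hne
    have hlt := lt_of_le_of_ne (ww_le _) hne
    obtain ⟨A, B', hAB⟩ := dis_comb a x
    have : ww (dis a) < 1 := by
      rw [hAB, pow_two, ← mul_assoc]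
      exact ww_add_lt (ww_mul_lt' hf) (ww_mul_lt' hlt)
    rw [hD] at this
    exact lt_irrefl _ this
  constructor
  · have h4 : ww (k 1 ^ 4 * (fd a x ^ 2 - 4 * fv a x * gg a (2 * x) (x ^ 2))) = 1 := by
      rw [ww_unit_mul (by rw [ww_pow, h1, one_pow])]
      rw [← ww_sq_unit hd]
      apply ww_eq_of_sub
      rw [ww_sq_unit hd]
      have : fd a x ^ 2 - 4 * fv a x * gg a (2 * x) (x ^ 2) - fd a x ^ 2 =
          - (4 * gg a (2 * x) (x ^ 2)) * fv a x := by ring
      rw [this]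
      exact ww_mul_lt' hf
    rw [← h4]
    apply ww_eq_of_sub
    rw [h4]
    exact e3
  · intro i
    fin_cases i
    · exact ww_lt_of_near e0 (ww_mul_lt' hf)
    · exact ww_lt_of_near e1 (ww_mul_lt' hf)
    · exact ww_lt_of_near e2 (ww_mul_lt' hf)

theorem case3 (hq : Discrete v q) (a : Fin 5 → OO v h)
    (k : Fin 4 → OO v h) (hk : kum a k = 0) (h0 : ww (k 0) < 1) (h1 : ww (k 1) < 1)
    (hex : ∃ i, ww (k i) = 1) :
    ww (dup a k 3) = 1 ∧ ∀ i : Fin 3, ww (dup a k i.castSucc) < 1 := by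
  have hq0 : 0 ≤ q⁻¹ := inv_nonneg.2 (by linarith [hq.one_lt])
  have hq1 : q⁻¹ < 1 := inv_lt_one_of_one_lt₀ hq.one_lt
  have h2 : ww (k 2) < 1 := by
    have h3 := kum_near hq0 a k ![0, 0, k 2, k 3] (fun i => by
      fin_cases i
      · change ww (k 0 - 0) ≤ _
        rw [sub_zero]
        exact hq.ww_lt h0
      · change ww (k 1 - 0) ≤ _
        rw [sub_zero]
        exact hq.ww_lt h1
      · change ww (k 2 - k 2) ≤ _
        rw [sub_self, ww_zero]
        exact hq0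
      · change ww (k 3 - k 3) ≤ _
        rw [sub_self, ww_zero]
        exact hq0)
    rw [hk, kum_inf _ _ rfl] at h3
    have h4 := ww_lt_of_near' (h3.trans_lt hq1) (by rw [ww_zero]; norm_num)
    have h5 := ww_sq_lt h4
    change ww (0 * k 3 - k 2 ^ 2) < 1 at h5
    have h6 : 0 * k 3 - k 2 ^ 2 = -(k 2 ^ 2) := by ring
    rw [h6, ww_neg] at h5
    exact ww_sq_lt h5
  have h3 : ww (k 3) = 1 := by
    obtain ⟨i, hi⟩ := hex
    fin_cases i
    · exact absurd hi h0.ne
    · exact absurd hi h1.ne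
    · exact absurd hi h2.ne
    · exact hi
  have hd := fun j => (dup_near hq0 a a k ![0, 0, 0, k 3]
    (fun i => by rw [sub_self, ww_zero]; exact hq0) (fun i => by
      fin_cases i
      · change ww (k 0 - 0) ≤ _
        rw [sub_zero]
        exact hq.ww_lt h0
      · change ww (k 1 - 0) ≤ _
        rw [sub_zero]
        exact hq.ww_lt h1
      · change ww (k 2 - 0) ≤ _
        rw [sub_zero]
        exact hq.ww_lt h2
      · change ww (k 3 - k 3) ≤ _
        rw [sub_self, ww_zero]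
        exact hq0) j).trans_lt hq1
  have e0 : D0 a ![0, 0, 0, k 3] = 0 := by simp [D0]
  have e1 : D1 a ![0, 0, 0, k 3] = 0 := by simp [D1]
  have e2 : D2 a ![0, 0, 0, k 3] = 0 := by simp [D2]
  have e3 : D3 a ![0, 0, 0, k 3] = k 3 ^ 4 := by simp [D3]
  constructor
  · have := hd 3
    change ww (_ - D3 _ _) < 1 at this
    rw [e3] at this
    have h4 : ww (k 3 ^ 4) = 1 := by rw [ww_pow, h3, one_pow]
    rw [← h4]
    apply ww_eq_of_sub
    rw [h4]
    exact this
  · intro i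
    have h5 : ww (0 : OO v h) < 1 := by rw [ww_zero]; norm_num
    fin_cases i
    · have := hd 0
      change ww (_ - D0 _ _) < 1 at this
      rw [e0] at this
      exact ww_lt_of_near this h5
    · have := hd 1
      change ww (_ - D1 _ _) < 1 at this
      rw [e1] at this
      exact ww_lt_of_near this h5
    · have := hd 2
      change ww (_ - D2 _ _) < 1 at this
      rw [e2] at this
      exact ww_lt_of_near this h5

end Run7.h929.G2
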