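import Pool.Agent.Run7.h929.G2.Local3

/-!
# The local theorem
-/

set_option autoImplicit false

namespace Run7.h929.G2

variable {K : Type*} [Field K] {v : AbsoluteValue K ℝ} {h : IsNonarchimedean v} {q : ℝ}

theorem sub_hom_dup (a : Fin 5 → OO v h) (k : Fin 4 → OO v h) (i : Fin 4) :
    ww (dup a k i) = v (dup (fun i => (a i : K)) (fun i => (k i : K)) i) := by
  rw [ww]
  have := map_dup (OO v h).subtype a k i
  change ((dup a k i : OO v h) : K) = dup (fun i => (a i : K)) (fun i => (k i : K)) i at this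
  rw [this]

theorem sub_hom_dis (a : Fin 5 → OO v h) : ww (dis a) = v (dis (fun i => (a i : K))) := by
  rw [ww]
  have := map_dis (OO v h).subtype a
  change ((dis a : OO v h) : K) = dis (fun i => (a i : K)) at this
  rw [this]

theorem sub_hom_kum (a : Fin 5 → OO v h) (k : Fin 4 → OO v h)
    (hk : kum (fun i => (a i : K)) (fun i => (k i : K)) = 0) : kum a k = 0 := by
  apply Subtype.ext
  have := map_kum (OO v h).subtype a k
  change ((kum a k : OO v h) : K) = kum (fun i => (a i : K)) (fun i => (k i : K)) at this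
  rw [this, hk]
  rfl

theorem sub_hom_rho (a : Fin 5 → OO v h) (x y z : OO v h) :
    ww (rho a x y z) = v (rho (fun i => (a i : K)) x y z) := by
  rfl

theorem co_scale (d s t v1 v0 w2 w1 w0 z : K) (hz : z ≠ 0) :
    co d s t v1 v0 w2 w1 w0 = co (d / z ^ 2) s t (v1 * z) (v0 * z) w2 w1 w0 := by
  funext i
  fin_cases i
  · simp only [co, Fin.zero_eta, Matrix.cons_val_zero]
    field_simp
  · simp only [co, Fin.mk_one, Matrix.cons_val_one, Matrix.cons_val_zero]
    field_simp
  · change d * v1 ^ 2 + w0 - s * w1 + t * w2 = d / z ^ 2 * (v1 * z) ^ 2 + w0 - s * w1 + t * w2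
    field_simp
  · rfl
  · rfl

theorem Discrete.odd (hq : Discrete v q) {d : K} (hd0 : d ≠ 0) (hd : ∀ z, v d ≠ v z ^ 2) :
    ∃ z : K, z ≠ 0 ∧ v (d / z ^ 2) = q⁻¹ := by
  have hq0 : 0 < q := by linarith [hq.one_lt]
  obtain ⟨p, hp⟩ := hq.uni
  have hp0 : p ≠ 0 := by
    rintro rfl
    rw [map_zero] at hp
    exact (inv_pos.2 hq0).ne hp
  obtain ⟨n, hn⟩ := hq.val d hd0
  rcases Int.even_or_odd' n with ⟨m, hm | hm⟩
  · exfalso
    apply hd (p ^ (-m))
    rw [map_zpow₀, hp, hn, hm, inv_zpow, zpow_neg, inv_inv, ← zpow_natCast, ← zpow_mul]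
    congr 1
    push_cast
    ring
  · refine ⟨p ^ (-(m + 1)), zpow_ne_zero _ hp0, ?_⟩
    rw [map_div₀, map_pow, map_zpow₀, hp, hn, hm, inv_zpow, zpow_neg, inv_inv, ← zpow_natCast,
      ← zpow_mul, ← zpow_sub₀ hq0.ne', ← zpow_neg_one]
    congr 1
    push_cast
    ring

theorem Discrete.int_of_sq (hq : Discrete v q) {x : K} (hx : v x ^ 2 < q ^ 2) : v x ≤ 1 := by
  have hq0 : 0 < q := by linarith [hq.one_lt]
  by_cases h0 : x = 0
  · rw [h0, map_zero]
    norm_num
  · obtain ⟨n, hn⟩ := hq.val x h0
    have h1 : v x < q := lt_of_pow_lt_pow_left₀ 2 hq0.le hx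
    rw [hn] at h1 ⊢
    have h2 : n < 1 := by
      by_contra h3
      push Not at h3
      have := zpow_le_zpow_right₀ hq.one_lt.le h3
      rw [zpow_one] at this
      exact absurd h1 (not_lt.2 this)
    exact zpow_le_one_of_nonpos₀ hq.one_lt.le (by omega)

theorem na_sub (h : IsNonarchimedean v) (x y : K) : v (x - y) ≤ max (v x) (v y) := by
  rw [sub_eq_add_neg, ← v.map_neg y]
  exact h _ _

theorem local_main (h : IsNonarchimedean v) (hq : Discrete v q) (h2 : v 2 = 1) (a : Fin 5 → K)
    (ha : ∀ i, v (a i) ≤ 1)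
    (hD : q⁻¹ ≤ v (dis a)) (d : K) (hd0 : d ≠ 0) (k : Fin 4 → K) (hk : Rep a d k)
    (hmax : ∀ i, v (k i) ≤ 1) (hex : ∃ i, v (k i) = 1)
    (hd : (∃ z, v d = v z ^ 2) ∨ v (dis a) = 1) :
    (∃ i, v (dup a k i) = 1) ∧
      ((∀ z, v d ≠ v z ^ 2) → ∀ i : Fin 3, v (dup a k i.castSucc) < 1) := by
  have hq0 : 0 < q := by linarith [hq.one_lt]
  let a' : Fin 5 → OO v h := fun i => ⟨a i, ha i⟩
  let k' : Fin 4 → OO v h := fun i => ⟨k i, hmax i⟩
  have hkum : kum a' k' = 0 := sub_hom_kum a' k' hk.kum_eq
  have hdup : ∀ i, ww (dup a' k' i) = v (dup a k i) := fun i => sub_hom_dup a' k' i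
  have hdis : ww (dis a') = v (dis a) := sub_hom_dis a'
  have h2' : ww (2 : OO v h) = 1 := h2
  rcases (hmax 0).lt_or_eq with h0 | h0
  · rcases (hmax 1).lt_or_eq with h1 | h1
    · -- the third case
      obtain ⟨h3, h4⟩ := case3 hq a' k' hkum h0 h1 hex
      exact ⟨⟨3, by rw [← hdup]; exact h3⟩, fun _ i => by rw [← hdup]; exact h4 i⟩
    · -- the second case
      have key : ∃ y : K, y ≠ 0 ∧ ∃ z : K, v (rho a (k 0) (k 1) (k 2)) = v d * v (z / y) ^ 2 := by
        rcases hk with ⟨c, s, t, v1, v0, w2, w1, w0, hc, hac, hkc⟩ | ⟨c, x, y, hc, hac, hkc⟩ |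
          ⟨c, hc, hkc⟩
        · have k0 : k 0 = c := by rw [hkc]; simp [kv]
          have k1 : k 1 = c * s := by rw [hkc]; simp [kv]
          have k2 : k 2 = c * t := by rw [hkc]; simp [kv]
          have k3 : k 3 = c * (-(w0 + t * w2)) := by rw [hkc]; simp [kv]
          have hl : v (c ^ 3 * (d * v1 ^ 2)) = 1 := by
            have e : c ^ 3 * (d * v1 ^ 2) = k 1 ^ 3 + k 0 * (k 0 * k 3 + a 2 * k 0 ^ 2 +
              a 3 * k 0 * k 1 + a 4 * k 1 ^ 2 - k 1 * k 2) := by
              rw [← lead_co d s t v1 v0 w2 w1 w0, ← hac, k0, k1, k2, k3]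
              simp only [gg]
              ring
            rw [e]
            let B : OO v h := k' 0 * k' 3 + a' 2 * k' 0 ^ 2 + a' 3 * k' 0 * k' 1 +
              a' 4 * k' 1 ^ 2 - k' 1 * k' 2
            have h5 : ww (k' 1 ^ 3 + k' 0 * B) = 1 := by
              have h6 : ww (k' 1 ^ 3) = 1 := by
                rw [ww_pow]
                change v (k 1) ^ 3 = 1
                rw [h1, one_pow]
              rw [← h6]
              apply ww_eq_of_sub
              rw [h6, add_sub_cancel_left]
              exact ww_mul_lt h0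
            exact h5
          have hv1 : v1 ≠ 0 := by
            rintro rfl
            norm_num at hl
          refine ⟨v1, hv1, c * rv s t v1 v0, ?_⟩
          have e2 : rho a (k 0) (k 1) (k 2) = c ^ 5 * (d ^ 2 * rv s t v1 v0 ^ 2) := by
            rw [k0, k1, k2, hac, ← rho_co, ← rho_smul, mul_one]
          have e3 : rho a (k 0) (k 1) (k 2) = c ^ 3 * (d * v1 ^ 2) *
              (d * (c * rv s t v1 v0 / v1) ^ 2) := by
            rw [e2]
            field_simp
          rw [e3, map_mul, hl, one_mul, map_mul, map_pow]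
        · refine ⟨1, one_ne_zero, y, ?_⟩
          have k0 : k 0 = 0 := by rw [hkc]; simp
          have k1 : k 1 = c := by rw [hkc]; simp
          have k2 : k 2 = x * c := by rw [hkc]; simp; ring
          obtain ⟨B, hB⟩ := rho_exp a 0 c x
          have e2 : rho a (k 0) (k 1) (k 2) = c ^ 5 * fv a x := by
            rw [k0, k1, k2, hB]
            ring
          have hc1 : v c = 1 := by rw [← k1]; exact h1
          rw [e2, map_mul, map_pow, hc1, one_pow, one_mul, ← hac, map_mul, map_pow, div_one]
        · exfalso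
          have : k 1 = 0 := by rw [hkc]; simp
          rw [this, map_zero] at h1
          norm_num at h1
      obtain ⟨y, hy, z, hz⟩ := key
      have hrho : ww (rho a' (k' 0) (k' 1) (k' 2)) = v (rho a (k 0) (k 1) (k 2)) :=
        sub_hom_rho a' _ _ _
      by_cases hev : ∃ x, v d = v x ^ 2
      · refine ⟨?_, fun h5 => absurd hev (by push Not; exact h5)⟩
        obtain ⟨x, hx⟩ := hev
        obtain ⟨i, hi⟩ := case2 hq h2' a' k' hkum h0 h1 ⟨x * (z / y), by
          rw [hrho, hz, hx, map_mul]; ring⟩ (by rw [hdis]; exact hD)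
        exact ⟨i, by rw [← hdup]; exact hi⟩
      · have hD1 : v (dis a) = 1 := hd.resolve_left hev
        push Not at hev
        obtain ⟨h3, h4⟩ := case2' hq a' k' hkum h0 h1 (by
          rw [hrho, hz]
          intro h5
          have hzy : v (z / y) ≠ 0 := by
            intro h6
            rw [h6] at h5
            norm_num at h5
          apply hev (z / y)⁻¹
          rw [map_inv₀]
          field_simp
          exact h5) (by rw [hdis]; exact hD1)
        exact ⟨⟨3, by rw [← hdup]; exact h3⟩, fun _ i => by rw [← hdup]; exact h4 i⟩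
  · -- the first case
    have hk00 : k 0 ≠ 0 := by
      intro h3
      rw [h3, map_zero] at h0
      norm_num at h0
    rcases hk with ⟨c, s, t, v1, v0, w2, w1, w0, hc, hac, hkc⟩ | ⟨c, x, y, hc, hac, hkc⟩ |
      ⟨c, hc, hkc⟩
    · have k0 : k 0 = c := by rw [hkc]; simp [kv]
      have k1 : k 1 = c * s := by rw [hkc]; simp [kv]
      have k2 : k 2 = c * t := by rw [hkc]; simp [kv]
      have k3 : k 3 = c * (-(w0 + t * w2)) := by rw [hkc]; simp [kv]
      have hc1 : v c = 1 := by rw [← k0]; exact h0
      have hs : v s ≤ 1 := by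
        have := hmax 1
        rwa [k1, map_mul, hc1, one_mul] at this
      have ht : v t ≤ 1 := by
        have := hmax 2
        rwa [k2, map_mul, hc1, one_mul] at this
      have hκ : v (-(w0 + t * w2)) ≤ 1 := by
        have := hmax 3
        rwa [k3, map_mul, hc1, one_mul] at this
      let S : OO v h := ⟨s, hs⟩
      let T : OO v h := ⟨t, ht⟩
      let κ : OO v h := ⟨-(w0 + t * w2), hκ⟩
      have e4 : a 4 = w2 - s := by rw [hac]; rfl
      have e3 : a 3 = w1 - s * w2 + t := by rw [hac]; rfl
      let W2 : OO v h := a' 4 + S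
      have hW2 : (W2 : K) = w2 := by
        change a 4 + s = w2
        rw [e4]
        ring
      let W1 : OO v h := a' 3 + S * W2 - T
      have hW1 : (W1 : K) = w1 := by
        change a 3 + s * (W2 : K) - t = w1
        rw [e3, hW2]
        ring
      let W0 : OO v h := -κ - T * W2
      have hW0 : (W0 : K) = w0 := by
        change -(-(w0 + t * w2)) - t * (W2 : K) = w0
        rw [hW2]
        ring
      -- the polynomial `v`
      have hA : v (d * v1 ^ 2) ≤ 1 := by
        rw [← lead_co d s t v1 v0 w2 w1 w0, ← hac]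
        exact (κ + gg a' S T).2
      have hB : v (d * v0 ^ 2) ≤ 1 := by
        rw [rv_co d s t v1 v0 w2 w1 w0, ← hac, ← hW0]
        exact (a' 0 - T * W0).2
      have key : ∀ z : K, z ≠ 0 → v (d / z ^ 2) ≤ 1 → q⁻¹ ≤ v (d / z ^ 2) →
          ∃ D V1 V0 : OO v h, (D : K) = d / z ^ 2 ∧
            a' = co D S T V1 V0 W2 W1 W0 ∧ (fun i => (dup a k i)) =
              fun i => c ^ 4 * (dup (co D S T V1 V0 W2 W1 W0) (kv S T W2 W0) i : OO v h) := by
        intro z hz h3 h4
        have hint : ∀ x : K, v (d * x ^ 2) ≤ 1 → v (x * z) ≤ 1 := by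
          intro x hx
          apply hq.int_of_sq
          have e : d * x ^ 2 = (d / z ^ 2) * (x * z) ^ 2 := by
            field_simp
          rw [e, map_mul, map_pow] at hx
          have h5 : q⁻¹ * v (x * z) ^ 2 ≤ 1 :=
            (mul_le_mul_of_nonneg_right h4 (sq_nonneg _)).trans hx
          have h6 : v (x * z) ^ 2 ≤ q := by
            rw [inv_mul_le_iff₀ hq0, mul_one] at h5
            exact h5
          nlinarith [hq.one_lt]
        let D : OO v h := ⟨d / z ^ 2, h3⟩
        let V1 : OO v h := ⟨v1 * z, hint v1 hA⟩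
        let V0 : OO v h := ⟨v0 * z, hint v0 hB⟩
        have hco : (fun i => ((co D S T V1 V0 W2 W1 W0 i : OO v h) : K)) = a := by
          have h7 := co_map (OO v h).subtype D S T V1 V0 W2 W1 W0
          change (fun i => ((co D S T V1 V0 W2 W1 W0 i : OO v h) : K)) =
            co (d / z ^ 2) s t (v1 * z) (v0 * z) W2 W1 W0 at h7
          rw [h7, hW2, hW1, hW0, ← co_scale d s t v1 v0 w2 w1 w0 z hz, hac]
        refine ⟨D, V1, V0, rfl, ?_, ?_⟩
        · funext i
          apply Subtype.ext
          exact (congrFun hco i).symm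
        · funext i
          have h8 := map_dup (OO v h).subtype (co D S T V1 V0 W2 W1 W0) (kv S T W2 W0) i
          change ((dup (co D S T V1 V0 W2 W1 W0) (kv S T W2 W0) i : OO v h) : K) =
            dup (fun i => ((co D S T V1 V0 W2 W1 W0 i : OO v h) : K))
              (fun i => ((kv S T W2 W0 i : OO v h) : K)) i at h8
          have h9 := kv_map (OO v h).subtype S T W2 W0
          change (fun i => ((kv S T W2 W0 i : OO v h) : K)) = kv s t W2 W0 at h9
          rw [h8, hco, h9, hW2, hW0, hkc, dup_smul]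
      by_cases hev : ∃ x, v d = v x ^ 2
      · refine ⟨?_, fun h5 => absurd hev (by push Not; exact h5)⟩
        obtain ⟨z, hz⟩ := hev
        have hz0 : z ≠ 0 := by
          rintro rfl
          rw [map_zero] at hz
          have : v d ≠ 0 := v.ne_zero hd0
          apply this
          rw [hz]
          norm_num
        have hvz : v z ≠ 0 := v.ne_zero hz0
        have h3 : v (d / z ^ 2) = 1 := by
          rw [map_div₀, map_pow, hz]
          field_simp
        obtain ⟨D, V1, V0, hDD, hco, hdu⟩ := key z hz0 h3.le (by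
          rw [h3]; exact (inv_lt_one_of_one_lt₀ hq.one_lt).le)
        obtain ⟨i, hi⟩ := case1 hq h2' D S T V1 V0 W2 W1 W0 (by rw [ww, hDD, h3]) (by
          rw [← hco, hdis]; exact hD)
        refine ⟨i, ?_⟩
        have := congrFun hdu i
        rw [this, map_mul, map_pow, hc1, one_pow, one_mul]
        exact hi
      · have hD1 : v (dis a) = 1 := hd.resolve_left hev
        push Not at hev
        obtain ⟨z, hz0, h3⟩ := hq.odd hd0 hev
        obtain ⟨D, V1, V0, hDD, hco, hdu⟩ := key z hz0 (by
          rw [h3]; exact (inv_lt_one_of_one_lt₀ hq.one_lt).le) h3.ge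
        obtain ⟨h5, h6⟩ := case1' hq D S T V1 V0 W2 W1 W0 (by
          rw [ww, hDD, h3]; exact inv_lt_one_of_one_lt₀ hq.one_lt) (by
          rw [← hco, hdis]; exact hD1)
        have h7 : ∀ i, v (dup a k i) =
            ww (dup (co D S T V1 V0 W2 W1 W0) (kv S T W2 W0) i) := by
          intro i
          have := congrFun hdu i
          rw [this, map_mul, map_pow, hc1, one_pow, one_mul]
          rfl
        exact ⟨⟨3, by rw [h7]; exact h5⟩, fun _ i => by rw [h7]; exact h6 i⟩
    · exfalso
      apply hk00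
      rw [hkc]
      simp
    · exfalso
      apply hk00
      rw [hkc]
      simp

end Run7.h929.G2
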