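import Pool.Agent.Run7.h929.G2.Dbl3
import Pool.Agent.Run7.h929.G2.Iter

/-!
# The lower bound for the canonical height
-/

set_option autoImplicit false

namespace Run7.h929.G2

open NumberField IsDedekindDomain Filter Topology Polynomial

section seq
variable {K : Type} [Field K] {a : Fin 5 → K} {d : K}

/-- the pairs of Mumford -/
abbrev MP (a : Fin 5 → K) (d : K) : Type := {p : K[X] × K[X] // Mum (rhs a d) p.1 p.2}

variable (h2 : (2 : K) ≠ 0) (h5 : (5 : K) ≠ 0) (hd : d ≠ 0) (hdis : dis a ≠ 0)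

include h2 h5 hd hdis

theorem exists_next (p : MP a d) : ∃ p' : MP a d, Dou a d p.1.1 p.1.2 p'.1.1 p'.1.2 ∧
    (p.1.2 ≠ 0 → p'.1.1.natDegree ≠ 0) := by
  obtain ⟨u', V', h1, h3⟩ := exists_dou h2 h5 hd hdis p.2
  exact ⟨⟨(u', V'), h1.1⟩, h1, h3⟩

/-- the next pair -/
noncomputable def nxt (p : MP a d) : MP a d := (exists_next h2 h5 hd hdis p).choose

/-- the sequence of the doubles -/
noncomputable def dbls (p : MP a d) : ℕ → MP a d
  | 0 => p
  | n + 1 => nxt h2 h5 hd hdis (dbls p n)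

theorem dbls_dou (p : MP a d) (n : ℕ) :
    Dou a d (dbls h2 h5 hd hdis p n).1.1 (dbls h2 h5 hd hdis p n).1.2
      (dbls h2 h5 hd hdis p (n + 1)).1.1 (dbls h2 h5 hd hdis p (n + 1)).1.2 :=
  (exists_next h2 h5 hd hdis (dbls h2 h5 hd hdis p n)).choose_spec.1

theorem dbls_deg (p : MP a d) (hp : p.1.2 ≠ 0) :
    (dbls h2 h5 hd hdis p 1).1.1.natDegree ≠ 0 :=
  (exists_next h2 h5 hd hdis (dbls h2 h5 hd hdis p 0)).choose_spec.2 hp

theorem dbls_same (p : MP a d) (n : ℕ) :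
    Same (MI (rhs a d) (dbls h2 h5 hd hdis p n).1.1 (dbls h2 h5 hd hdis p n).1.2)
      (MI (rhs a d) p.1.1 p.1.2 ^ (2 ^ n)) := by
  have := dom (g := rhs a d) (by rw [natDegree_rhs hd]; decide)
  induction n with
  | zero =>
    rw [pow_zero, pow_one]
    exact Same.refl _
  | succ n ih =>
    have h1 := (dbls_dou h2 h5 hd hdis p n).2.1
    rw [pow_succ, pow_mul]
    exact h1.trans (ih.pow 2)

end seq

section
variable {K : Type} [Field K] [NumberField K] {a : Fin 5 → K} {d : K} {H : InfinitePlace K → ℝ}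
  {S T : Finset (FinitePlace K)}

/-- the lower bound -/
noncomputable def lowb (K : Type) [Field K] [NumberField K] (a : Fin 5 → K)
    (H : InfinitePlace K → ℝ) (S T : Finset (FinitePlace K)) : ℝ :=
  2 * logH H + ∑ v ∈ T, Real.log (qq v) - (NN / 3) * defect a H S -
    (Real.log CC / 3) * Module.finrank ℚ K

theorem kc_zero_or {u V : K[X]} (hu2 : u.natDegree ≤ 2) (hu : u.natDegree ≠ 0) :
    kc a d u V 0 ≠ 0 ∨ kc a d u V 1 ≠ 0 := by
  by_cases h2 : u.natDegree = 2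
  · left
    rw [kc, if_pos h2]
    simp
  · right
    rw [kc, if_neg h2, if_pos (by omega)]
    simp

theorem main_seq (h : Hyp a d H S T) {u V : K[X]} (hM : Mum (rhs a d) u V) (hV : V ≠ 0) :
    ∃ (P : ℕ → K[X] × K[X]) (c : ℝ), P 0 = (u, V) ∧
      (∀ n, Mum (rhs a d) (P n).1 (P n).2) ∧
      (∀ n, Same (MI (rhs a d) (P n).1 (P n).2) (MI (rhs a d) u V ^ (2 ^ n))) ∧
      (∀ n u' V', Mum (rhs a d) u' V' → Same (MI (rhs a d) u' V') (MI (rhs a d) u V ^ (2 ^ n)) →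
        P n = (u', V')) ∧
      Tendsto (fun n => Height.logHeight (kc a d (P n).1 (P n).2) / 4 ^ n) atTop (𝓝 c) ∧
      lowb K a H S T / 4 ≤ c := by
  have h2 : (2 : K) ≠ 0 := two_ne_zero
  have h5 : (5 : K) ≠ 0 := by norm_num
  have hdis := h.dis_ne
  have hd := h.d_ne
  have hdeg : (rhs a d).natDegree = 5 := natDegree_rhs hd
  have := dom (g := rhs a d) (by rw [hdeg]; decide)
  let p : MP a d := ⟨(u, V), hM⟩
  let P : ℕ → K[X] × K[X] := fun n => (dbls h2 h5 hd hdis p n).1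
  have hPM : ∀ n, Mum (rhs a d) (P n).1 (P n).2 := fun n => (dbls h2 h5 hd hdis p n).2
  have hPS : ∀ n, Same (MI (rhs a d) (P n).1 (P n).2) (MI (rhs a d) u V ^ (2 ^ n)) :=
    dbls_same h2 h5 hd hdis p
  have hseq : Seq a d fun n => kc a d (P n).1 (P n).2 :=
    ⟨fun n => kc_rep hd (hPM n), fun n => (dbls_dou h2 h5 hd hdis p n).2.2⟩
  obtain ⟨c, hc, hlow⟩ := seq_main h hseq (kc_zero_or (hPM 1).deg (dbls_deg h2 h5 hd hdis p hV))
  refine ⟨P, c, rfl, hPM, hPS, ?_, hc, hlow⟩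
  intro n u' V' hM' hS'
  obtain ⟨e1, e2⟩ := Mum.unique h2 (rhs_squarefree h5 hd hdis) hdeg (hPM n) hM'
    ((hPS n).trans hS'.symm)
  exact Prod.ext e1 e2

end

end Run7.h929.G2
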