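import Pool.Agent.Run7.h929.G2.Disc

/-!
# The duplication map has no base points if the discriminant is not zero
-/

set_option autoImplicit false

namespace Run7.h929.G2

section id
variable {R : Type*} [CommRing R]

theorem fv_co (d s q v1 v0 w2 w1 w0 x : R) : fv (co d s q v1 v0 w2 w1 w0) x =
    d * (v1 * x + v0) ^ 2 + (x ^ 2 - s * x + q) * (x ^ 3 + w2 * x ^ 2 + w1 * x + w0) := by
  simp [fv, co]
  ring

theorem fd_co (d s q v1 v0 w2 w1 w0 x : R) : fd (co d s q v1 v0 w2 w1 w0) x =
    2 * d * (v1 * x + v0) * v1 + (2 * x - s) * (x ^ 3 + w2 * x ^ 2 + w1 * x + w0) +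
      (x ^ 2 - s * x + q) * (3 * x ^ 2 + 2 * w2 * x + w1) := by
  simp [fd, co]
  ring

theorem w_div (s q w2 w1 w0 x : R) : x ^ 3 + w2 * x ^ 2 + w1 * x + w0 =
    (x ^ 2 - s * x + q) * (x + w2 + s) + (Wa s q w2 w1 * x + Wb s q w2 w0) := by
  simp only [Wa, Wb]
  ring

theorem kum_smul (a : Fin 5 → R) (c : R) (k : Fin 4 → R) :
    kum a (fun i => c * k i) = c ^ 4 * kum a k := by
  simp only [kum]
  ring

theorem D0_smul (a : Fin 5 → R) (c : R) (k : Fin 4 → R) :
    D0 a (fun i => c * k i) = c ^ 4 * D0 a k := by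
  simp only [D0]
  ring

theorem D1_smul (a : Fin 5 → R) (c : R) (k : Fin 4 → R) :
    D1 a (fun i => c * k i) = c ^ 4 * D1 a k := by
  simp only [D1]
  ring

theorem D2_smul (a : Fin 5 → R) (c : R) (k : Fin 4 → R) :
    D2 a (fun i => c * k i) = c ^ 4 * D2 a k := by
  simp only [D2]
  ring

theorem D3_smul (a : Fin 5 → R) (c : R) (k : Fin 4 → R) :
    D3 a (fun i => c * k i) = c ^ 4 * D3 a k := by
  simp only [D3]
  ring

theorem dup_smul (a : Fin 5 → R) (c : R) (k : Fin 4 → R) :
    dup a (fun i => c * k i) = fun i => c ^ 4 * dup a k i := by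
  funext i
  fin_cases i
  · exact D0_smul a c k
  · exact D1_smul a c k
  · exact D2_smul a c k
  · exact D3_smul a c k

/-- the remainder of the quintic modulo `x² - s x + q` -/
def r1 (a : Fin 5 → R) (s q : R) : R :=
  (s ^ 4 - 3 * s ^ 2 * q + q ^ 2) + a 4 * (s ^ 3 - 2 * s * q) + a 3 * (s ^ 2 - q) + a 2 * s + a 1
/-- the remainder of the quintic modulo `x² - s x + q` -/
def r0 (a : Fin 5 → R) (s q : R) : R :=
  -q * (s ^ 3 - 2 * s * q) - a 4 * (s ^ 2 * q - q ^ 2) - a 3 * s * q - a 2 * q + a 0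

theorem kum_one (a : Fin 5 → R) (s q t : R) : kum a ![1, s, q, t] =
    (r1 a s q - (t + gg a s q) * s) ^ 2 -
      4 * (t + gg a s q) * (r0 a s q + (t + gg a s q) * q) := by
  simp [kum, r1, r0, gg]
  ring

/-- the pair of polynomials `v`, `w` of a point of the Kummer surface -/
theorem co_eq (a : Fin 5 → R) (s q t v1 v0 d : R) (h1 : d * v1 ^ 2 = t + gg a s q)
    (h2 : 2 * d * v1 * v0 = r1 a s q - (t + gg a s q) * s)
    (h3 : d * v0 ^ 2 = r0 a s q + (t + gg a s q) * q) :
    ∃ w2 w1 w0 : R, a = co d s q v1 v0 w2 w1 w0 ∧ ![1, s, q, t] = kv s q w2 w0 := by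
  refine ⟨a 4 + s, a 3 + s * (a 4 + s) - q,
    a 2 - (t + gg a s q) + s * (a 3 + s * (a 4 + s) - q) - q * (a 4 + s), ?_, ?_⟩
  · funext i
    fin_cases i
    · simp only [co, Fin.zero_eta, Matrix.cons_val_zero]
      rw [h3]
      simp only [r0, gg]
      ring
    · simp only [co, Fin.mk_one, Matrix.cons_val_one, Matrix.cons_val_zero]
      rw [h2]
      simp only [r1, gg]
      ring
    · simp only [co, Fin.reduceFinMk, Matrix.cons_val]
      rw [h1]
      ring
    · simp [co]
      ring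
    · simp [co]
  · simp only [kv]
    congr 4
    simp only [gg]
    ring

theorem kum_inf (a : Fin 5 → R) (k : Fin 4 → R) (h : k 0 = 0) :
    kum a k = (k 1 * k 3 - k 2 ^ 2) ^ 2 := by
  simp [kum, h]
  ring

theorem D0_inf (a : Fin 5 → R) (x y t : R) (h : t = x ^ 2 * y) :
    D0 a ![0, y, x * y, t] = 4 * y ^ 4 * fv a x := by
  simp [D0, h, fv]
  ring

theorem D1_inf (a : Fin 5 → R) (x y t : R) (h : t = x ^ 2 * y) :
    D1 a ![0, y, x * y, t] = 8 * x * y ^ 4 * fv a x := by
  simp [D1, h, fv]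
  ring

theorem D2_inf (a : Fin 5 → R) (x y t : R) (h : t = x ^ 2 * y) :
    D2 a ![0, y, x * y, t] = 4 * x ^ 2 * y ^ 4 * fv a x := by
  simp [D2, h, fv]
  ring

theorem D3_inf (a : Fin 5 → R) (x y t : R) (h : t = x ^ 2 * y) :
    D3 a ![0, y, x * y, t] = y ^ 4 * (fd a x ^ 2 - 4 * fv a x * gg a (2 * x) (x ^ 2)) := by
  simp [D3, h, fv, fd, gg]
  ring

end id

section field
variable {F : Type*} [Field F]

theorem field_co (h2 : (2 : F) ≠ 0) (d s q v1 v0 w2 w1 w0 : F) (hd : d ≠ 0)
    (e0 : D0 (co d s q v1 v0 w2 w1 w0) (kv s q w2 w0) = 0)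
    (e1 : D1 (co d s q v1 v0 w2 w1 w0) (kv s q w2 w0) = 0)
    (e3 : D3 (co d s q v1 v0 w2 w1 w0) (kv s q w2 w0) = 0) :
    dis (co d s q v1 v0 w2 w1 w0) = 0 := by
  have h4 : (4 : F) ≠ 0 := by
    have : (4 : F) = 2 * 2 := by norm_num
    rw [this]
    exact mul_ne_zero h2 h2
  have h16 : (16 : F) ≠ 0 := by
    have : (16 : F) = 4 * 4 := by norm_num
    rw [this]
    exact mul_ne_zero h4 h4
  rw [D0_co] at e0
  have hvw : vw s q v1 v0 w2 w1 w0 = 0 := by
    rcases mul_eq_zero.1 e0 with h | h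
    · exact absurd h (mul_ne_zero h4 hd)
    · exact pow_eq_zero_iff (two_ne_zero) |>.1 h
  rw [D1_co, hvw] at e1
  have hrv : rv s q v1 v0 = 0 := by
    have : 16 * d ^ 2 * rv s q v1 v0 ^ 2 = 0 := by linear_combination e1
    rcases mul_eq_zero.1 this with h | h
    · exact absurd h (mul_ne_zero h16 (pow_ne_zero _ hd))
    · exact pow_eq_zero_iff (two_ne_zero) |>.1 h
  by_cases hv : v1 = 0
  · subst hv
    have hv0 : v0 = 0 := by
      have : v0 ^ 2 = 0 := by
        simpa [rv] using hrv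
      exact pow_eq_zero_iff (two_ne_zero) |>.1 this
    subst hv0
    rw [D3_co_zero] at e3
    have h5 : co d s q 0 0 w2 w1 w0 = co 0 s q 0 0 w2 w1 w0 := by
      funext i
      fin_cases i <;> simp [co]
    obtain ⟨t, ht⟩ := dis_uw s q w2 w1 w0
    rw [h5, ht, e3, zero_mul]
  · have hu : (-v0 / v1) ^ 2 - s * (-v0 / v1) + q = 0 := by
      have : (-v0 / v1) ^ 2 - s * (-v0 / v1) + q = rv s q v1 v0 / v1 ^ 2 := by
        simp only [rv]
        field_simp
        ring
      rw [this, hrv, zero_div]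
    have hw : Wa s q w2 w1 * (-v0 / v1) + Wb s q w2 w0 = 0 := by
      have : Wa s q w2 w1 * (-v0 / v1) + Wb s q w2 w0 = vw s q v1 v0 w2 w1 w0 / v1 := by
        simp only [vw]
        field_simp
        ring
      rw [this, hvw, zero_div]
    have hv' : v1 * (-v0 / v1) + v0 = 0 := by
      field_simp
      ring
    obtain ⟨t, ht⟩ := dis_root (co d s q v1 v0 w2 w1 w0) (-v0 / v1) (by
      rw [fv_co, hu, hv']
      ring)
    rw [ht, fd_co, w_div s q, hu, hw, hv']
    ring

/-- over an algebraically closed field -/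
theorem alg_closed [IsAlgClosed F] (h2 : (2 : F) ≠ 0) (a : Fin 5 → F) (k : Fin 4 → F)
    (hk : kum a k = 0) (e : ∀ i, dup a k i = 0) (h0 : k ≠ 0) : dis a = 0 := by
  have e0 : D0 a k = 0 := e 0
  have e1 : D1 a k = 0 := e 1
  have e2 : D2 a k = 0 := e 2
  have e3 : D3 a k = 0 := e 3
  by_cases hk0 : k 0 = 0
  · have h1 : k 1 * k 3 - k 2 ^ 2 = 0 := by
      rw [kum_inf a k hk0] at hk
      exact pow_eq_zero_iff (two_ne_zero) |>.1 hk
    by_cases hk1 : k 1 = 0
    · exfalso
      have hk2 : k 2 = 0 := by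
        rw [hk1] at h1
        have : k 2 ^ 2 = 0 := by linear_combination -h1
        exact pow_eq_zero_iff (two_ne_zero) |>.1 this
      have hk3 : k 3 = 0 := by
        have : D3 a k = k 3 ^ 4 := by
          simp [D3, hk0, hk1, hk2]
        rw [this] at e3
        exact pow_eq_zero_iff (by norm_num) |>.1 e3
      apply h0
      funext i
      fin_cases i
      · exact hk0
      · exact hk1
      · exact hk2
      · exact hk3
    · have hk' : k = ![0, k 1, (k 2 / k 1) * k 1, k 3] := by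
        funext i
        fin_cases i
        · exact hk0
        · rfl
        · simp [hk1]
        · rfl
      have ht : k 3 = (k 2 / k 1) ^ 2 * k 1 := by
        field_simp
        linear_combination h1
      rw [hk', D0_inf a _ _ _ ht] at e0
      rw [hk', D3_inf a _ _ _ ht] at e3
      have h4 : (4 : F) ≠ 0 := by
        have : (4 : F) = 2 * 2 := by norm_num
        rw [this]
        exact mul_ne_zero h2 h2
      have hf : fv a (k 2 / k 1) = 0 := by
        rcases mul_eq_zero.1 e0 with h | h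
        · exact absurd h (mul_ne_zero h4 (pow_ne_zero _ hk1))
        · exact h
      rw [hf] at e3
      have hfd : fd a (k 2 / k 1) = 0 := by
        rcases mul_eq_zero.1 e3 with h | h
        · exact absurd h (pow_ne_zero _ hk1)
        · have : fd a (k 2 / k 1) ^ 2 = 0 := by linear_combination h
          exact pow_eq_zero_iff (two_ne_zero) |>.1 this
      obtain ⟨t, ht⟩ := dis_root a _ hf
      rw [ht, hfd]
      ring
  · have hk' : k = fun i => k 0 * (![1, k 1 / k 0, k 2 / k 0, k 3 / k 0] : Fin 4 → F) i := by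
      funext i
      fin_cases i
      · simp
      · simp; field_simp
      · simp; field_simp
      · simp; field_simp
    set s := k 1 / k 0
    set q := k 2 / k 0
    set t := k 3 / k 0
    have hc : k 0 ^ 4 ≠ 0 := pow_ne_zero _ hk0
    rw [hk', kum_smul] at hk
    rw [hk', D0_smul] at e0
    rw [hk', D1_smul] at e1
    rw [hk', D3_smul] at e3
    replace hk := (mul_eq_zero.1 hk).resolve_left hc
    replace e0 := (mul_eq_zero.1 e0).resolve_left hc
    replace e1 := (mul_eq_zero.1 e1).resolve_left hc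
    replace e3 := (mul_eq_zero.1 e3).resolve_left hc
    rw [kum_one] at hk
    set A := t + gg a s q with hA
    have key : ∃ v1 v0 : F, 1 * v1 ^ 2 = A ∧ 2 * 1 * v1 * v0 = r1 a s q - A * s ∧
        1 * v0 ^ 2 = r0 a s q + A * q := by
      by_cases hA0 : A = 0
      · obtain ⟨z, hz⟩ := IsAlgClosed.exists_pow_nat_eq (r0 a s q + A * q) (n := 2) (by norm_num)
        refine ⟨0, z, by rw [hA0]; ring, ?_, by rw [hz]; ring⟩
        rw [hA0] at hk ⊢
        have : r1 a s q ^ 2 = 0 := by linear_combination hk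
        have := pow_eq_zero_iff (two_ne_zero) |>.1 this
        rw [this]
        ring
      · obtain ⟨z, hz⟩ := IsAlgClosed.exists_pow_nat_eq A (n := 2) (by norm_num)
        have hz0 : z ≠ 0 := by
          rintro rfl
          apply hA0
          rw [← hz]
          ring
        refine ⟨z, (r1 a s q - A * s) / (2 * z), by rw [hz]; ring, by field_simp, ?_⟩
        rw [div_pow, mul_pow, hz]
        field_simp
        linear_combination hk
    obtain ⟨v1, v0, g1, g2, g3⟩ := key
    obtain ⟨w2, w1, w0, h5, h6⟩ := co_eq a s q t v1 v0 1 g1 g2 g3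
    rw [h6] at e0 e1 e3
    rw [h5] at e0 e1 e3 ⊢
    exact field_co h2 1 s q v1 v0 w2 w1 w0 one_ne_zero e0 e1 e3

end field

/-! ## The theorem of zeros -/

open MvPolynomial

/-- the ring of the polynomials in the coefficients and the coordinates -/
abbrev U : Type := MvPolynomial (Fin 5 ⊕ Fin 4) ℤ

/-- the generic coefficients -/
noncomputable def gA : Fin 5 → U := fun i => X (Sum.inl i)
/-- the generic coordinates -/
noncomputable def gK : Fin 4 → U := fun i => X (Sum.inr i)
/-- the generic relations -/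
noncomputable def gR : Fin 5 → U := Fin.cons (kum gA gK) (dup gA gK)

theorem map_dup {R S : Type*} [CommRing R] [CommRing S] (φ : R →+* S) (a : Fin 5 → R)
    (k : Fin 4 → R) (i : Fin 4) :
    φ (dup a k i) = dup (fun i => φ (a i)) (fun i => φ (k i)) i := by
  fin_cases i
  · exact map_D0 φ a k
  · exact map_D1 φ a k
  · exact map_D2 φ a k
  · exact map_D3 φ a k

theorem gR_zero : gR 0 = kum gA gK := Fin.cons_zero (α := fun _ => U) _ _

theorem gR_succ (i : Fin 4) : gR i.succ = dup gA gK i := Fin.cons_succ (α := fun _ => U) _ _ i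

theorem hom_zero {F : Type*} [Field F] [IsAlgClosed F] (φ : U →+* F) (h : ∀ i, φ (gR i) = 0)
    (j : Fin 4) : φ (2 * dis gA * gK j) = 0 := by
  by_contra hne
  rw [map_mul, map_mul, map_dis, map_ofNat] at hne
  have h2 : (2 : F) ≠ 0 := fun h => hne (by rw [h]; ring)
  apply hne
  have h0 : dis (fun i => φ (gA i)) = 0 := by
    apply alg_closed h2 _ (fun i => φ (gK i))
    · rw [← map_kum, ← gR_zero]
      exact h 0
    · intro i
      rw [← map_dup, ← gR_succ]
      exact h _
    · intro h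
      apply hne
      have : φ (gK j) = 0 := congrFun h j
      rw [this]
      ring
  rw [h0]
  ring

theorem rad (j : Fin 4) : 2 * dis gA * gK j ∈ (Ideal.span (Set.range gR)).radical := by
  rw [Ideal.radical_eq_sInf, Submodule.mem_sInf]
  rintro P ⟨hP, hPp⟩
  let φ : U →+* AlgebraicClosure (FractionRing (U ⧸ P)) :=
    (algebraMap (FractionRing (U ⧸ P)) (AlgebraicClosure (FractionRing (U ⧸ P)))).comp
    ((algebraMap (U ⧸ P) (FractionRing (U ⧸ P))).comp (Ideal.Quotient.mk P))
  have hφ : ∀ x, φ x = 0 ↔ x ∈ P := by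
    intro x
    simp only [φ, RingHom.comp_apply]
    rw [map_eq_zero, FaithfulSMul.algebraMap_eq_zero_iff, Ideal.Quotient.eq_zero_iff_mem]
  exact (hφ _).1 (hom_zero φ (fun i => (hφ _).2 (hP (Ideal.subset_span ⟨i, rfl⟩))) j)

theorem nullst : ∃ (N : ℕ) (c : Fin 4 → Fin 5 → U), ∀ j,
    ∑ i, c j i * gR i = (2 * dis gA * gK j) ^ N := by
  choose n hn using fun j => (Ideal.mem_radical_iff).1 (rad j)
  let N := Finset.univ.sup n
  have h : ∀ j, (2 * dis gA * gK j) ^ N ∈ Ideal.span (Set.range gR) := by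
    intro j
    have h1 : n j ≤ N := Finset.le_sup (Finset.mem_univ j)
    obtain ⟨m, hm⟩ := Nat.exists_eq_add_of_le h1
    rw [hm, pow_add]
    exact Ideal.mul_mem_right _ _ (hn j)
  choose c hc using fun j => (Ideal.mem_span_range_iff_exists_fun).1 (h j)
  exact ⟨N, c, hc⟩

/-- The theorem of zeros for values in any ring. -/
theorem nullst' : ∃ (N : ℕ) (c : Fin 4 → Fin 4 → U), ∀ (S : Type) [CommRing S] (a : Fin 5 → S)
    (k : Fin 4 → S), kum a k = 0 → ∀ j, (2 * dis a * k j) ^ N =
      ∑ i, aeval (Sum.elim a k) (c j i) * dup a k i := by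
  obtain ⟨N, c, hc⟩ := nullst
  refine ⟨N, fun j i => c j i.succ, ?_⟩
  intro S _ a k hk j
  let φ : U →+* S := (aeval (Sum.elim a k)).toRingHom
  have hA : ∀ i, φ (gA i) = a i := fun i => by simp [φ, gA]
  have hK : ∀ i, φ (gK i) = k i := fun i => by simp [φ, gK]
  have h := congrArg φ (hc j)
  rw [map_sum, map_pow, map_mul, map_mul, map_dis, map_ofNat] at h
  simp only [map_mul] at h
  have hA' : (fun i => φ (gA i)) = a := funext hA
  have hK' : (fun i => φ (gK i)) = k := funext hK
  rw [hA', hK j] at h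
  rw [← h, Fin.sum_univ_succ]
  have e0 : φ (gR 0) = 0 := by
    rw [gR_zero, map_kum, hA', hK', hk]
  rw [e0, mul_zero, zero_add]
  refine Finset.sum_congr rfl fun i _ => ?_
  rw [gR_succ, map_dup, hA', hK']
  rfl

end Run7.h929.G2
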