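import Pool.Agent.Run7.h929.G2.Main

/-!
# Torsion points, and the passage to polynomials with integral coefficients
-/

set_option autoImplicit false

namespace Run7.h929.G2

open NumberField IsDedekindDomain Filter Topology Polynomial

section
variable {K : Type} [Field K] [NumberField K] {a : Fin 5 → K} {d : K} {H : InfinitePlace K → ℝ}
  {S T : Finset (FinitePlace K)}

theorem same_mod {B : Type} [CommRing B] [IsDomain B] {I : Ideal B} {m : ℕ}
    (hI : Same (I ^ m) ⊤) (n : ℕ) : Same (I ^ n) (I ^ (n % m)) := by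
  have h1 : I ^ n = (I ^ m) ^ (n / m) * I ^ (n % m) := by
    rw [← pow_mul, ← pow_add, Nat.div_add_mod]
  have h2 : Same ((I ^ m) ^ (n / m)) (⊤ : Ideal B) := by
    have := hI.pow (n / m)
    rwa [← Ideal.one_eq_top, one_pow, Ideal.one_eq_top] at this
  have h3 := h2.mul (Same.refl (I ^ (n % m)))
  rw [← h1] at h3
  rwa [← Ideal.one_eq_top, one_mul] at h3

theorem tors_bound (h : Hyp a d H S T) (hL : 0 < lowb K a H S T) {u V : K[X]}
    (hM : Mum (rhs a d) u V) {m : ℕ} (hm : 1 ≤ m) (ht : Same (MI (rhs a d) u V ^ m) ⊤) :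
    V = 0 := by
  by_contra hV
  have := dom (g := rhs a d) (by rw [natDegree_rhs h.d_ne]; decide)
  obtain ⟨P, c, -, hPM, hPS, huniq, hc, hlow⟩ := main_seq h hM hV
  have hP : ∀ n n', 2 ^ n % m = 2 ^ n' % m → P n = P n' := by
    intro n n' hn
    apply huniq n _ _ (hPM n')
    have h1 := same_mod ht (2 ^ n')
    have h2 := same_mod ht (2 ^ n)
    rw [← hn] at h1
    exact (hPS n').trans (h1.trans h2.symm)
  let x : ℕ → ℝ := fun n => Height.logHeight (kc a d (P n).1 (P n).2)
  have hx0 : ∀ n, 0 ≤ x n := fun n => Height.logHeight_nonneg _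
  have hB : ∃ B, ∀ n, x n ≤ B := by
    classical
    let g : ℕ → ℝ := fun r => if hr : ∃ n, 2 ^ n % m = r then x hr.choose else 0
    have hg0 : ∀ r, 0 ≤ g r := by
      intro r
      simp only [g]
      split_ifs
      · exact hx0 _
      · exact le_rfl
    refine ⟨∑ r ∈ Finset.range m, g r, fun n => ?_⟩
    have hr : ∃ n', 2 ^ n' % m = 2 ^ n % m := ⟨n, rfl⟩
    have h1 : x n = g (2 ^ n % m) := by
      simp only [g]
      rw [dif_pos hr]
      simp only [x]
      rw [hP n hr.choose hr.choose_spec.symm]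
    rw [h1]
    exact Finset.single_le_sum (f := g) (fun r _ => hg0 r)
      (Finset.mem_range.2 (Nat.mod_lt _ (by omega)))
  obtain ⟨B, hB⟩ := hB
  have h0 : Tendsto (fun n => x n / 4 ^ n) atTop (𝓝 0) := by
    have h1 : Tendsto (fun n : ℕ => B * (1 / 4 : ℝ) ^ n) atTop (𝓝 0) := by
      have := (tendsto_pow_atTop_nhds_zero_of_lt_one (r := (1 / 4 : ℝ)) (by norm_num)
        (by norm_num)).const_mul B
      rwa [mul_zero] at this
    refine squeeze_zero (fun n => div_nonneg (hx0 n) (by positivity)) (fun n => ?_) h1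
    rw [one_div, inv_pow, ← div_eq_mul_inv]
    exact div_le_div_of_nonneg_right (hB n) (by positivity)
  have := tendsto_nhds_unique hc h0
  rw [this] at hlow
  linarith

end

section
variable {K : Type} [Field K]

/-- the coefficients of a polynomial with integral coefficients -/
noncomputable def cf (f : (𝓞 K)[X]) : Fin 5 → K := fun i => (f.coeff i : K)

theorem quin_cf {f : (𝓞 K)[X]} (hf : f.Monic) (h5 : f.natDegree = 5) :
    quin (cf f) = f.map (algebraMap (𝓞 K) K) ∧ dis (cf f) = ((discr f : 𝓞 K) : K) := by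
  have h1 : quin (fun i : Fin 5 => f.coeff i) = f := by
    ext n
    congr 1
    rcases lt_trichotomy n 5 with h | h | h
    · exact coeff_quin (fun i : Fin 5 => f.coeff i) ⟨n, h⟩
    · rw [h, coeff_quin_five, ← h5]
      exact hf.symm
    · rw [coeff_eq_zero_of_natDegree_lt (by rw [natDegree_quin]; exact h),
        coeff_eq_zero_of_natDegree_lt (by rw [h5]; exact h)]
  constructor
  · have h2 := map_quin (algebraMap (𝓞 K) K) fun i : Fin 5 => f.coeff i
    rw [h1] at h2
    exact h2.symm
  · have h2 := map_dis (algebraMap (𝓞 K) K) fun i : Fin 5 => f.coeff i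
    rw [← discr_eq, h1] at h2
    exact h2.symm

theorem two_torsion [CharZero K] {a : Fin 5 → K} {d : K} (hd : d ≠ 0) (hdis : dis a ≠ 0) {u V : K[X]}
    (hM : Mum (rhs a d) u V) (h : ¬ Same (MI (rhs a d) u V ^ 2) ⊤) : V ≠ 0 := by
  rintro rfl
  apply h
  have h1 := (dou_zero two_ne_zero (by norm_num) hd hdis hM).2.1
  rw [MI_one] at h1
  exact h1.symm

end

end Run7.h929.G2
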